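import Pool.Agent.T6.H48.KP.MODN

/-!
Project KP, module ABSC (helper82): absolute continuity of the norm.
-/

set_option autoImplicit false

namespace Pool.Agent.T6.H48.KP

open MeasureTheory Set Filter Topology
open scoped ENNReal

theorem mABSC : StmABSC := by
  intro Φ F D hD f η hη
  obtain ⟨K, hK1, hK⟩ := hD.growth
  obtain ⟨s, hs, hf⟩ := f.2
  have hfin : Φ.I (fun x => η⁻¹ * f.fn x) ≠ ∞ := by
    set a : ℝ := min 1 (η / s) with ha
    have ha0 : 0 < a := lt_min one_pos (by positivity)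
    have ha1 : a ≤ 1 := min_le_left _ _
    have h1 := ModMODN.I_growth hK1 (fun h a h0 a0 a1 => (hK h a h0 a0 a1).2)
      (fun x => η⁻¹ * f.fn x) ha0 ha1
    have h2 : Φ.I (fun x => a * (η⁻¹ * f.fn x)) ≤ Φ.I (fun x => s⁻¹ * f.fn x) := by
      refine Φ.I_mono (Eventually.of_forall fun x => ?_)
      have h4 : a * η⁻¹ ≤ s⁻¹ := by
        rw [← div_eq_mul_inv, div_le_iff₀ hη]
        have : a ≤ η / s := min_le_right _ _
        rwa [div_eq_mul_inv, mul_comm] at this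
      calc |a * (η⁻¹ * f.fn x)| = (a * η⁻¹) * |f.fn x| := by
            rw [← mul_assoc, abs_mul, abs_of_pos (by positivity : 0 < a * η⁻¹)]
        _ ≤ s⁻¹ * |f.fn x| := mul_le_mul_of_nonneg_right h4 (abs_nonneg _)
        _ = |s⁻¹ * f.fn x| := by rw [abs_mul, abs_of_pos (inv_pos.2 hs)]
    have h3 : Φ.I (fun x => s⁻¹ * f.fn x) < ∞ := hf
    exact ((h1.trans (by gcongr)).trans_lt
      (ENNReal.mul_lt_top ENNReal.ofReal_lt_top h3)).ne
  unfold OrliczFun.I at hfin
  obtain ⟨δ, hδ, hδ'⟩ := exists_pos_setLIntegral_lt_of_measure_lt hfin one_ne_zero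
  obtain ⟨r, hr0, hr1, hr2⟩ := ENNReal.lt_iff_exists_real_btwn.1 hδ
  refine ⟨r, by simpa using hr1, fun A hA hmA => ?_⟩
  rw [LPhi.norm_le_iff _ hη]
  have e : (fun x => η⁻¹ * (f.cut A).fn x) =ᵐ[mu] fun x => η⁻¹ * A.indicator f.fn x :=
    (f.fn_cut hA).mono fun x hx => by simp only [hx]
  rw [Φ.I_congr e]
  unfold OrliczFun.I
  have e2 : (fun x => ENNReal.ofReal (Φ.φ |η⁻¹ * A.indicator f.fn x|)) =
      A.indicator fun x => ENNReal.ofReal (Φ.φ |η⁻¹ * f.fn x|) := by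
    ext x
    by_cases hx : x ∈ A
    · rw [indicator_of_mem hx, indicator_of_mem hx]
    · rw [indicator_of_notMem hx, indicator_of_notMem hx, mul_zero, abs_zero, Φ.zero',
        ENNReal.ofReal_zero]
  rw [e2, lintegral_indicator hA]
  exact (hδ' A (hmA.trans_lt hr2)).le

end Pool.Agent.T6.H48.KP
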