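import Pool.Agent.T6.H48.KP.WNUL

namespace Pool.Agent.T6.H48.KP

open MeasureTheory Set Filter Topology
open scoped ENNReal

namespace ModBDDS

variable {Φ : OrliczFun}

theorem fn_sub (f g : LPhi Φ) : (f - g).fn =ᵐ[mu] fun x => f.fn x - g.fn x := by
  have h1 : f - g = f + (-1 : ℝ) • g := by rw [neg_one_smul, sub_eq_add_neg]
  rw [h1]
  filter_upwards [LPhi.fn_add f ((-1 : ℝ) • g), LPhi.fn_smul (-1 : ℝ) g] with x h2 h3
  rw [h2, h3]
  ring

theorem cauchy_diff {c : ℕ → ℝ} (hc : CauchySeq c) {κ : ℕ → ℕ} (hκ : StrictMono κ) :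
    Tendsto (fun k => c (κ (2 * k + 1)) - c (κ (2 * k))) atTop (𝓝 0) := by
  obtain ⟨l, hl⟩ := cauchySeq_tendsto_of_complete hc
  have e1 : ∀ k : ℕ, id k ≤ 2 * k + 1 := fun k => by simp only [id]; omega
  have e2 : ∀ k : ℕ, id k ≤ 2 * k := fun k => by simp only [id]; omega
  have h1 : Tendsto (fun k : ℕ => κ (2 * k + 1)) atTop atTop :=
    hκ.tendsto_atTop.comp (tendsto_atTop_mono e1 tendsto_id)
  have h2 : Tendsto (fun k : ℕ => κ (2 * k)) atTop atTop :=
    hκ.tendsto_atTop.comp (tendsto_atTop_mono e2 tendsto_id)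
  have := (hl.comp h1).sub (hl.comp h2)
  rwa [sub_self] at this

end ModBDDS

open ModBDDS ModWNUL in
theorem mBDDS (hH : StmHOLD) (he : StmEXTR) (hb : StmEXTB) (h4 : StmMOM4) (hf : StmFOUR) :
    StmBDDS := by
  intro Φ F D hK T M δ g hδ hg hgM hsep
  obtain ⟨K0, hK0, -, hK2⟩ := hH Φ F D hK
  obtain ⟨K4, hK4, hfour⟩ := hf Φ F D hK
  set M' : ℝ := max M 0 with hM'
  have hM'0 : 0 ≤ M' := le_max_right _ _
  set G : ℕ → ℝ → ℝ := fun n x => max (-M') (min M' ((g n).fn x)) with hG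
  have hGm : ∀ n, Measurable (G n) := fun n =>
    measurable_const.max (measurable_const.min (g n).fn_meas)
  have hGb : ∀ n x, |G n x| ≤ M' := by
    intro n x
    rw [abs_le]
    refine ⟨le_max_left _ _, max_le (by linarith) (min_le_left _ _)⟩
  have hGe : ∀ n, G n =ᵐ[mu] (g n).fn := by
    intro n
    filter_upwards [hgM n] with x hx
    have hx' : |(g n).fn x| ≤ M' := hx.trans (le_max_left _ _)
    rw [abs_le] at hx'
    simp only [hG]
    rw [min_eq_right hx'.2, max_eq_right hx'.1]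
  obtain ⟨κ1, hκ1, hc1⟩ := hb G M' hGm hGb
  obtain ⟨κ2, hκ2, hc2⟩ := he Φ F D hK (fun n => T (g (κ1 n))) ‖T‖ (fun n => by
    refine (T.le_opNorm _).trans ?_
    exact mul_le_of_le_one_right (norm_nonneg _) (hg _))
  set W : ℕ → ℝ → ℝ := fun k x => G (κ1 (κ2 (2 * k + 1))) x - G (κ1 (κ2 (2 * k))) x with hW
  have hWm : ∀ n, Measurable (W n) := fun n => (hGm _).sub (hGm _)
  have hWb : ∀ n x, |W n x| ≤ 2 * M' := by
    intro n x
    have e1 := hGb (κ1 (κ2 (2 * n + 1))) x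
    have e2 := hGb (κ1 (κ2 (2 * n))) x
    have e3 := abs_sub (G (κ1 (κ2 (2 * n + 1))) x) (G (κ1 (κ2 (2 * n))) x)
    simp only [hW]
    linarith
  have hGi : ∀ n (h : ℝ → ℝ), Integrable h mu → Integrable (fun x => G n x * h x) mu := by
    intro n h hh
    refine hh.bdd_mul (c := M') (hGm n).aestronglyMeasurable (Eventually.of_forall fun x => ?_)
    rw [Real.norm_eq_abs]
    exact hGb n x
  have hW0 : ∀ h : ℝ → ℝ, Integrable h mu → Tendsto (fun n => ∫ x, W n x * h x ∂mu) atTop (𝓝 0) := by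
    intro h hh
    have e1 := cauchy_diff (hc1 h hh) hκ2
    refine e1.congr fun k => ?_
    rw [← integral_sub (hGi _ h hh) (hGi _ h hh)]
    refine integral_congr_ae (Eventually.of_forall fun x => ?_)
    simp only [hW]
    ring
  obtain ⟨κ3, hκ3, K, hKpos, hmom⟩ := h4 W (2 * M') hWm hWb hW0
  set y : ℕ → LPhi Φ := fun k => g (κ1 (κ2 (2 * κ3 k + 1))) - g (κ1 (κ2 (2 * κ3 k))) with hy
  have hyW : ∀ k, (y k).fn =ᵐ[mu] W (κ3 k) := by
    intro k
    filter_upwards [fn_sub (g (κ1 (κ2 (2 * κ3 k + 1)))) (g (κ1 (κ2 (2 * κ3 k)))),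
      hGe (κ1 (κ2 (2 * κ3 k + 1))), hGe (κ1 (κ2 (2 * κ3 k)))] with x e1 e2 e3
    simp only [hy, hW]
    rw [e1, e2, e3]
  refine ⟨y, ?_, ?_, ?_, ?_⟩
  · intro n
    refine (norm_sub_le _ _).trans ?_
    have e1 := hg (κ1 (κ2 (2 * κ3 n + 1)))
    have e2 := hg (κ1 (κ2 (2 * κ3 n)))
    linarith
  · -- the upper estimate
    set B : ℝ := (K + 1) ^ (1 / 4 : ℝ) with hB
    have hB0 : 0 < B := Real.rpow_pos_of_pos (by linarith) _
    have hB4 : B ^ 4 = K + 1 := by
      rw [hB, ← Real.rpow_natCast, ← Real.rpow_mul (by linarith)]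
      norm_num
    refine ⟨K4 * B, by positivity, fun s a ha => ?_⟩
    apply hfour _ _ hB0
    rw [hB4]
    have e1 : ∫⁻ x, ENNReal.ofReal ((∑ k ∈ s, a k • y k : LPhi Φ).fn x ^ 4) ∂mu =
        ∫⁻ x, ENNReal.ofReal ((∑ k ∈ s, a k * W (κ3 k) x) ^ 4) ∂mu := by
      refine lintegral_congr_ae ?_
      have hall : ∀ᵐ x ∂mu, ∀ k, (y k).fn x = W (κ3 k) x := by
        rw [ae_all_iff]
        exact hyW
      filter_upwards [fn_sum s a y, hall] with x e2 e3
      rw [e2]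
      simp only [e3]
    rw [e1]
    have hmeas : Measurable fun x => (∑ k ∈ s, a k * W (κ3 k) x) ^ 4 :=
      (Finset.measurable_sum _ fun k _ => (hWm _).const_mul _).pow_const 4
    have hbdd : ∀ x, ‖(∑ k ∈ s, a k * W (κ3 k) x) ^ 4‖ ≤ (∑ k ∈ s, |a k| * (2 * M')) ^ 4 := by
      intro x
      rw [norm_pow, Real.norm_eq_abs]
      refine pow_le_pow_left₀ (abs_nonneg _) ?_ 4
      refine (Finset.abs_sum_le_sum_abs _ _).trans (Finset.sum_le_sum fun k _ => ?_)
      rw [abs_mul]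
      exact mul_le_mul_of_nonneg_left (hWb _ x) (abs_nonneg _)
    have hint : Integrable (fun x => (∑ k ∈ s, a k * W (κ3 k) x) ^ 4) mu :=
      Integrable.of_bound hmeas.aestronglyMeasurable _ (Eventually.of_forall hbdd)
    rw [← ofReal_integral_eq_lintegral_ofReal hint (Eventually.of_forall fun x => by
      show (0:ℝ) ≤ _
      positivity)]
    apply ENNReal.ofReal_le_ofReal
    refine (hmom s a).trans ?_
    have e2 : ∑ k ∈ s, a k ^ 2 ≤ 1 := by
      refine le_trans (le_of_eq (Finset.sum_congr rfl fun k _ => ?_)) ha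
      unfold sq
      rw [sq_abs]
    have e3 : 0 ≤ ∑ k ∈ s, a k ^ 2 := Finset.sum_nonneg fun k _ => sq_nonneg _
    have e4 : (∑ k ∈ s, a k ^ 2) ^ 2 ≤ 1 := pow_le_one₀ e3 e2
    nlinarith
  · intro n
    simp only [hy]
    rw [map_sub]
    apply hsep
    intro h
    have e1 := (hκ1.comp hκ2).injective h
    omega
  · intro h hh
    have e1 := (cauchy_diff (hc2 h hh) strictMono_id).comp hκ3.tendsto_atTop
    refine e1.congr fun k => ?_
    simp only [Function.comp_apply, id_eq]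
    rw [← integral_sub (hK2 _ h hh).1 (hK2 _ h hh).1]
    refine integral_congr_ae ?_
    simp only [hy]
    have e2 : T (g (κ1 (κ2 (2 * κ3 k + 1))) - g (κ1 (κ2 (2 * κ3 k)))) =
        T (g (κ1 (κ2 (2 * κ3 k + 1)))) - T (g (κ1 (κ2 (2 * κ3 k)))) := map_sub _ _ _
    rw [e2]
    filter_upwards [fn_sub (T (g (κ1 (κ2 (2 * κ3 k + 1))))) (T (g (κ1 (κ2 (2 * κ3 k)))))]
      with x hx
    rw [hx]
    ring

end Pool.Agent.T6.H48.KP
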