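import Pool.Agent.T6.H48.KP.Defs

/-!
Project KP (helper48), MP_8301f5_an: module CASE (helper41).
-/

namespace Pool.Agent.T6.H48.KP

open MeasureTheory Set Filter Topology
open scoped ENNReal

namespace ModCASE

variable {Φ : OrliczFun}

theorem cut_add_compl (f : LPhi Φ) {A : Set ℝ} (hA : MeasurableSet A) :
    f.cut A + f.cut Aᶜ = f := by
  apply LPhi.ext_ae
  filter_upwards [LPhi.fn_add (f.cut A) (f.cut Aᶜ), f.fn_cut hA, f.fn_cut hA.compl] with x h1 h2 h3
  rw [h1, h2, h3]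
  by_cases hx : x ∈ A
  · rw [indicator_of_mem hx, indicator_of_notMem (by simpa using hx), add_zero]
  · rw [indicator_of_notMem hx, indicator_of_mem (by simpa using hx), zero_add]

/-- values of a cut -/
theorem cut_val (f : LPhi Φ) {A : Set ℝ} (hA : MeasurableSet A) :
    ∀ᵐ x ∂mu, (f.cut A).fn x = 0 ∨ (x ∈ A ∧ (f.cut A).fn x = f.fn x) := by
  filter_upwards [f.fn_cut hA] with x hx
  by_cases h : x ∈ A
  · right
    exact ⟨h, by rw [hx, indicator_of_mem h]⟩
  · left
    rw [hx, indicator_of_notMem h]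

theorem high_cut {u : ℕ → LPhi Φ} (hu : High u) {κ : ℕ → ℕ} (hκ : StrictMono κ) {A : ℕ → Set ℝ}
    (hA : ∀ j, MeasurableSet (A j)) : High fun j => (u (κ j)).cut (A j) := by
  intro k
  filter_upwards [cut_val (u (κ k)) (hA k), hu (κ k)] with x h1 h2
  rcases h1 with h1 | ⟨-, h1⟩
  · exact Or.inl h1
  · rcases h2 with h2 | h2
    · left
      rw [h1, h2]
    · right
      have h3 : (k : ℝ) ≤ (κ k : ℝ) := by exact_mod_cast hκ.id_le k
      rw [h1]
      exact h3.trans_lt h2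

theorem disj_cut {u : ℕ → LPhi Φ} (hu : DisjSeq u) {κ : ℕ → ℕ} (hκ : StrictMono κ)
    {A : ℕ → Set ℝ} (hA : ∀ j, MeasurableSet (A j)) : DisjSeq fun j => (u (κ j)).cut (A j) := by
  intro m n hmn
  have h := hu (κ m) (κ n) fun h => hmn (hκ.injective h)
  filter_upwards [cut_val (u (κ m)) (hA m), cut_val (u (κ n)) (hA n), h] with x h1 h2 h3
  rcases h1 with h1 | ⟨-, h1⟩
  · exact Or.inl h1
  rcases h2 with h2 | ⟨-, h2⟩
  · exact Or.inr h2
  rw [h1, h2]
  exact h3

end ModCASE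

open ModCASE in
theorem mCASE : StmCASE := by
  intro Φ F D hK T u δ hδ hT hH hD
  have hB : ∀ (M : ℝ) (k : ℕ), MeasurableSet {x | D |(u k).fn x| ≤ M} := fun M k =>
    measurableSet_le (hK.Dmeas.comp (continuous_abs.measurable.comp (u k).fn_meas))
      measurable_const
  by_cases h : ∃ M : ℕ, ∃ᶠ k in atTop, δ / 2 ≤ ‖T ((u k).cut {x | D |(u k).fn x| ≤ (M : ℝ)})‖
  · obtain ⟨M, hM⟩ := h
    obtain ⟨κ, hκ, hk⟩ := Filter.extraction_of_frequently_atTop hM
    refine ⟨κ, hκ, fun j => {x | D |(u (κ j)).fn x| ≤ (M : ℝ)}, fun j => hB _ _,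
      high_cut hH hκ fun j => hB _ _, disj_cut hD hκ fun j => hB _ _,
      ⟨δ / 2, by positivity, hk⟩, Or.inl ⟨M, fun j => ?_⟩⟩
    filter_upwards [cut_val (u (κ j)) (hB M (κ j))] with x hx
    rcases hx with hx | ⟨hx, hx'⟩
    · exact Or.inl hx
    · right
      rw [hx']
      exact hx
  · push Not at h
    obtain ⟨κ, hκ, hk⟩ := Filter.extraction_forall_of_eventually
      (P := fun n k => ‖T ((u k).cut {x | D |(u k).fn x| ≤ (n : ℝ)})‖ < δ / 2)
      (fun n => (h n))
    refine ⟨κ, hκ, fun j => {x | D |(u (κ j)).fn x| ≤ (j : ℝ)}ᶜ, fun j => (hB _ _).compl,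
      high_cut hH hκ fun j => (hB _ _).compl, disj_cut hD hκ fun j => (hB _ _).compl,
      ⟨δ / 2, by positivity, fun j => ?_⟩, Or.inr fun j => ?_⟩
    · have h1 := cut_add_compl (u (κ j)) (hB j (κ j))
      have h2 : T (u (κ j)) = T ((u (κ j)).cut {x | D |(u (κ j)).fn x| ≤ (j : ℝ)}) +
          T ((u (κ j)).cut {x | D |(u (κ j)).fn x| ≤ (j : ℝ)}ᶜ) := by
        rw [← map_add, h1]
      have h3 := hT (κ j)
      rw [h2] at h3
      have h4 := h3.trans (norm_add_le _ _)
      have h5 := hk j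
      linarith
    · filter_upwards [cut_val (u (κ j)) (hB j (κ j)).compl] with x hx
      rcases hx with hx | ⟨hx, hx'⟩
      · exact Or.inl hx
      · right
        rw [hx']
        simpa using hx

end Pool.Agent.T6.H48.KP
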