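import Pool.Agent.T6.H48.KP.Defs

/-! Module COMPL (helper24): the Orlicz space is complete. -/

set_option autoImplicit false

namespace Pool.Agent.T6.H48.KP

open MeasureTheory Set Filter Topology
open scoped ENNReal

namespace ModCOMPL

variable {Φ : OrliczFun}

theorem fn_sub (f g : LPhi Φ) : (f - g).fn =ᵐ[mu] fun x => f.fn x - g.fn x := by
  have e : f - g = f + (-1 : ℝ) • g := by rw [neg_one_smul, sub_eq_add_neg]
  rw [e]
  filter_upwards [LPhi.fn_add f ((-1 : ℝ) • g), LPhi.fn_smul (-1) g] with x h1 h2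
  rw [h1, h2]
  ring

theorem mu_univ : mu (univ : Set ℝ) = 1 := by
  rw [Measure.restrict_apply_univ, Real.volume_Icc]
  norm_num

theorem L1_bound (Φ : OrliczFun) : ∃ K : ℝ, 0 < K ∧ ∀ (f : LPhi Φ) (s : ℝ), 0 < s → ‖f‖ ≤ s →
    eLpNorm f.fn 1 mu ≤ ENNReal.ofReal (K * s) := by
  obtain ⟨t₀, ht₀, hne⟩ := Φ.ne'
  have hc : 0 < Φ.φ t₀ := lt_of_le_of_ne (Φ.nonneg ht₀.le) (Ne.symm hne)
  have hlin : ∀ t : ℝ, 0 ≤ t → t ≤ t₀ + t₀ / Φ.φ t₀ * Φ.φ t := by
    intro t ht
    have h0 : 0 ≤ t₀ / Φ.φ t₀ * Φ.φ t := mul_nonneg (by positivity) (Φ.nonneg ht)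
    rcases le_or_gt t t₀ with h | h
    · linarith
    · have htpos : 0 < t := ht₀.trans h
      have h3 := Φ.scale_le htpos.le (a := t₀ / t) (by positivity) ((div_le_one htpos).2 h.le)
      rw [div_mul_cancel₀ _ htpos.ne'] at h3
      have h5 : t * Φ.φ t₀ ≤ t₀ * Φ.φ t := by
        have := mul_le_mul_of_nonneg_left h3 htpos.le
        rwa [← mul_assoc, mul_div_cancel₀ _ htpos.ne'] at this
      have h6 : t ≤ t₀ / Φ.φ t₀ * Φ.φ t := by
        rw [div_mul_eq_mul_div, le_div_iff₀ hc]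
        exact h5
      linarith
  refine ⟨t₀ + t₀ / Φ.φ t₀, by positivity, fun f s hs hfs => ?_⟩
  have hI := (LPhi.norm_le_iff f hs).1 hfs
  rw [eLpNorm_one_eq_lintegral_enorm]
  calc ∫⁻ x, ‖f.fn x‖ₑ ∂mu ≤ ∫⁻ x, (ENNReal.ofReal (s * t₀) +
        ENNReal.ofReal (s * (t₀ / Φ.φ t₀)) * ENNReal.ofReal (Φ.φ |s⁻¹ * f.fn x|)) ∂mu := by
        refine lintegral_mono fun x => ?_
        rw [← ENNReal.ofReal_mul (by positivity), ← ENNReal.ofReal_add (by positivity)
          (mul_nonneg (by positivity) (Φ.nonneg (abs_nonneg _))), ← ofReal_norm]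
        apply ENNReal.ofReal_le_ofReal
        have h1 := hlin |s⁻¹ * f.fn x| (abs_nonneg _)
        have h2 : ‖f.fn x‖ = s * |s⁻¹ * f.fn x| := by
          rw [abs_mul, abs_of_pos (inv_pos.2 hs), ← mul_assoc, mul_inv_cancel₀ hs.ne', one_mul,
            Real.norm_eq_abs]
        rw [h2]
        have := mul_le_mul_of_nonneg_left h1 hs.le
        linarith
    _ = ENNReal.ofReal (s * t₀) + ENNReal.ofReal (s * (t₀ / Φ.φ t₀)) *
        Φ.I (fun x => s⁻¹ * f.fn x) := by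
        rw [lintegral_add_left measurable_const, lintegral_const, mu_univ, mul_one,
          lintegral_const_mul' _ _ ENNReal.ofReal_ne_top]
        rfl
    _ ≤ ENNReal.ofReal (s * t₀) + ENNReal.ofReal (s * (t₀ / Φ.φ t₀)) * 1 := by gcongr
    _ = ENNReal.ofReal ((t₀ + t₀ / Φ.φ t₀) * s) := by
        rw [mul_one, ← ENNReal.ofReal_add (by positivity) (by positivity)]
        congr 1
        ring

/-- Fatou -/
theorem fatou {u : ℕ → ℝ → ℝ} {g : ℝ → ℝ} (hu : ∀ n, AEMeasurable (u n) mu)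
    (hlim : ∀ᵐ x ∂mu, Tendsto (fun n => u n x) atTop (𝓝 (g x))) {N : ℕ}
    (h : ∀ n, N ≤ n → Φ.I (u n) ≤ 1) : Φ.I g ≤ 1 := by
  unfold OrliczFun.I
  calc ∫⁻ x, ENNReal.ofReal (Φ.φ |g x|) ∂mu
      = ∫⁻ x, liminf (fun n => ENNReal.ofReal (Φ.φ |u n x|)) atTop ∂mu := by
        refine lintegral_congr_ae (hlim.mono fun x hx => ?_)
        have h1 : Tendsto (fun n => ENNReal.ofReal (Φ.φ |u n x|)) atTop
            (𝓝 (ENNReal.ofReal (Φ.φ |g x|))) :=
          (ENNReal.continuous_ofReal.tendsto _).comp ((Φ.continuous_abs'.tendsto _).comp hx)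
        exact h1.liminf_eq.symm
    _ ≤ liminf (fun n => ∫⁻ x, ENNReal.ofReal (Φ.φ |u n x|) ∂mu) atTop :=
        lintegral_liminf_le' fun n => Φ.aemeas (hu n)
    _ ≤ liminf (fun _ : ℕ => (1 : ℝ≥0∞)) atTop := by
        refine liminf_le_liminf ?_
        filter_upwards [eventually_ge_atTop N] with n hn
        exact h n hn
    _ = 1 := by simp

end ModCOMPL

open ModCOMPL in
theorem mCOMPL : StmCOMPL := by
  intro Φ
  obtain ⟨K, hK, hL1⟩ := L1_bound Φ
  refine Metric.complete_of_convergent_controlled_sequences (fun n => (1 / 2 : ℝ) ^ n)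
    (fun n => by positivity) fun u hu => ?_
  have hu' : ∀ N n m : ℕ, N ≤ n → N ≤ m → ‖u n - u m‖ ≤ (1 / 2 : ℝ) ^ N := by
    intro N n m hn hm
    rw [← dist_eq_norm]
    exact (hu N n m hn hm).le
  -- almost everywhere convergence
  have hae : ∀ᵐ x ∂mu, ∃ l : ℝ, Tendsto (fun n => (u n).fn x) atTop (𝓝 l) := by
    have hB : ∑' i : ℕ, ENNReal.ofReal ((K + 1) * (1 / 2 : ℝ) ^ i) ≠ ∞ := by
      rw [← ENNReal.ofReal_tsum_of_nonneg (fun n => by positivity)
        ((summable_geometric_of_lt_one (by norm_num) (by norm_num)).mul_left _)]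
      exact ENNReal.ofReal_ne_top
    refine Lp.ae_tendsto_of_cauchy_eLpNorm (p := 1)
      (fun n => (u n).fn_meas.aestronglyMeasurable) le_rfl hB fun N n m hn hm => ?_
    have h1 : eLpNorm ((u n).fn - (u m).fn) 1 mu = eLpNorm (u n - u m).fn 1 mu := by
      apply eLpNorm_congr_ae
      filter_upwards [fn_sub (u n) (u m)] with x hx
      rw [hx]
      rfl
    rw [h1]
    refine (hL1 (u n - u m) _ (by positivity) (hu' N n m hn hm)).trans_lt ?_
    rw [ENNReal.ofReal_lt_ofReal_iff (by positivity)]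
    have : (0 : ℝ) < (1 / 2 : ℝ) ^ N := by positivity
    nlinarith
  obtain ⟨g, hg, hlim⟩ := measurable_limit_of_tendsto_metrizable_ae
    (fun n => (u n).fn_meas.aemeasurable) hae
  have hkey : ∀ N : ℕ, Φ.I (fun x => ((1 / 2 : ℝ) ^ N)⁻¹ * (g x - (u N).fn x)) ≤ 1 := by
    intro N
    refine fatou (u := fun n x => ((1 / 2 : ℝ) ^ N)⁻¹ * ((u n).fn x - (u N).fn x))
      (fun n => ((u n).fn_meas.sub (u N).fn_meas).aemeasurable.const_mul _) ?_ (N := N) ?_
    · filter_upwards [hlim] with x hx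
      exact (hx.sub_const _).const_mul _
    · intro n hn
      have h1 := (LPhi.norm_le_iff (u n - u N) (by positivity : (0 : ℝ) < (1 / 2 : ℝ) ^ N)).1
        (hu' N n N hn le_rfl)
      refine le_trans (le_of_eq ?_) h1
      apply Φ.I_congr
      filter_upwards [fn_sub (u n) (u N)] with x hx
      rw [hx]
  obtain ⟨w, hw⟩ : ∃ w : LPhi Φ, w.fn =ᵐ[mu] fun x => g x - (u 0).fn x := by
    refine ⟨LPhi.ofFn Φ fun x => g x - (u 0).fn x, LPhi.fn_ofFn
      (hg.sub (u 0).fn_meas).aestronglyMeasurable ⟨1, one_pos, ?_⟩⟩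
    have := hkey 0
    rw [pow_zero] at this
    exact this.trans_lt ENNReal.one_lt_top
  have hF : (w + u 0).fn =ᵐ[mu] g := by
    filter_upwards [LPhi.fn_add w (u 0), hw] with x h1 h2
    rw [h1, h2]
    ring
  refine ⟨w + u 0, ?_⟩
  have hb : ∀ N : ℕ, dist (u N) (w + u 0) ≤ (1 / 2 : ℝ) ^ N := by
    intro N
    rw [dist_comm, dist_eq_norm, LPhi.norm_le_iff _ (by positivity)]
    refine le_trans (le_of_eq ?_) (hkey N)
    apply Φ.I_congr
    filter_upwards [fn_sub (w + u 0) (u N), hF] with x h1 h2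
    rw [h1, h2]
  rw [tendsto_iff_dist_tendsto_zero]
  exact squeeze_zero (fun _ => dist_nonneg) hb
    (tendsto_pow_atTop_nhds_zero_of_lt_one (by norm_num) (by norm_num))

end Pool.Agent.T6.H48.KP
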