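import Pool.Agent.T6.H48.KP.Defs

/-!
Project KP (helper48), module DDIS (helper12): the distance to the features.
-/

namespace Pool.Agent.T6.H48.KP

open MeasureTheory Set Filter Topology

namespace ModDDIS

theorem sep {k l : ℕ} (h : k < l) : 4 * (4 : ℝ) ^ (k + 1) ≤ 4 ^ (l + 1) := by
  have : (4 : ℝ) * 4 ^ (k + 1) = 4 ^ (k + 2) := by ring
  rw [this]
  exact pow_le_pow_right₀ (by norm_num) (by omega)

theorem one_le (k : ℕ) : (1 : ℝ) ≤ 4 ^ (k + 1) := one_le_pow₀ (by norm_num)

theorem gap {k l : ℕ} (h : k ≠ l) :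
    3 / 4 * (4 : ℝ) ^ (k + 1) ≤ |(4 : ℝ) ^ (k + 1) - 4 ^ (l + 1)| := by
  have h1 := one_le k
  have h2 := one_le l
  rcases lt_or_gt_of_ne h with h | h
  · have := sep h
    rw [abs_sub_comm]
    refine le_trans ?_ (le_abs_self _)
    linarith
  · have := sep h
    refine le_trans ?_ (le_abs_self _)
    linarith

theorem closed : IsClosed (range fun k : ℕ => (4 : ℝ) ^ (k + 1)) := by
  refine Metric.isClosed_of_pairwise_le_dist (ε := 3 / 4) (by norm_num) ?_
  rintro _ ⟨k, rfl⟩ _ ⟨l, rfl⟩ hne
  have hkl : k ≠ l := by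
    rintro rfl
    exact hne rfl
  have h1 := one_le k
  have h2 := gap hkl
  rw [Real.dist_eq]
  change 3 / 4 ≤ |(4 : ℝ) ^ (k + 1) - 4 ^ (l + 1)|
  linarith

end ModDDIS

open ModDDIS in
theorem mDDIS : StmDDIS := by
  have hne : (range fun k : ℕ => (4 : ℝ) ^ (k + 1)).Nonempty := range_nonempty _
  refine ⟨fun x x' => ?_, fun x => Metric.infDist_nonneg, fun k => ?_, fun M A hM hA => ?_⟩
  · rw [abs_sub_le_iff]
    constructor
    · have := Metric.infDist_le_infDist_add_dist (s := range fun k : ℕ => (4 : ℝ) ^ (k + 1))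
        (x := x) (y := x')
      rw [Real.dist_eq] at this
      unfold dd
      linarith
    · have := Metric.infDist_le_infDist_add_dist (s := range fun k : ℕ => (4 : ℝ) ^ (k + 1))
        (x := x') (y := x)
      rw [Real.dist_eq, abs_sub_comm] at this
      unfold dd
      linarith
  · exact Metric.infDist_zero_of_mem ⟨k, rfl⟩
  · refine ⟨M + 4 * A, fun x y hx hd hy0 hyA => ?_⟩
    obtain ⟨s, ⟨k, hk⟩, hs⟩ := closed.exists_infDist_eq_dist hne x
    have hk' : s = (4 : ℝ) ^ (k + 1) := hk.symm
    have hxs : |x - s| ≤ M := by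
      rw [← Real.dist_eq, ← hs]
      exact hd
    have hxs' := abs_le.mp hxs
    rw [abs_le]
    constructor
    · have : y - M ≤ dd (x - y) := by
        refine (Metric.le_infDist hne).mpr ?_
        rintro _ ⟨l, rfl⟩
        rw [Real.dist_eq]
        change y - M ≤ |x - y - (4 : ℝ) ^ (l + 1)|
        by_cases hkl : k = l
        · subst hkl
          rw [← hk', abs_sub_comm]
          refine le_trans ?_ (le_abs_self _)
          linarith
        · have h1 := gap hkl
          rw [← hk'] at h1
          have h2 : |s - (4 : ℝ) ^ (l + 1)| ≤ |x - y - (4 : ℝ) ^ (l + 1)| + (|x - s| + y) := by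
            have e : s - (4 : ℝ) ^ (l + 1) = (x - y - (4 : ℝ) ^ (l + 1)) + (-(x - s) + y) := by
              ring
            rw [e]
            refine (abs_add_le _ _).trans (add_le_add le_rfl ((abs_add_le _ _).trans ?_))
            rw [abs_neg, abs_of_nonneg hy0]
          linarith
      linarith
    · have : dd (x - y) ≤ |x - y - s| := by
        rw [← Real.dist_eq]
        exact Metric.infDist_le_dist_of_mem ⟨k, hk⟩
      have h2 : |x - y - s| ≤ |x - s| + y := by
        have e : x - y - s = (x - s) + (-y) := by ring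
        rw [e]
        refine (abs_add_le _ _).trans ?_
        rw [abs_neg, abs_of_nonneg hy0]
      linarith

end Pool.Agent.T6.H48.KP
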