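import Pool.Agent.T6.H48.KP.Defs

/-!
Project KP (helper48), MP_8301f5_an: module DISJ (helper41).
-/

namespace Pool.Agent.T6.H48.KP

open MeasureTheory Set Filter Topology
open scoped ENNReal

namespace ModDISJ

variable {Φ : OrliczFun}

/-- the support -/
def sp (f : LPhi Φ) : Set ℝ := {x | f.fn x ≠ 0}

theorem sp_meas (f : LPhi Φ) : MeasurableSet (sp f) :=
  (measurableSet_eq_fun f.fn_meas measurable_const).compl

theorem sp_small {u : ℕ → LPhi Φ} {B : ℝ} (hu : ∀ n, ‖u n‖ ≤ B) (hH : High u) {θ : ℝ}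
    (hθ : 0 < θ) : ∃ N : ℕ, ∀ k, N ≤ k → mu (sp (u k)) ≤ ENNReal.ofReal θ := by
  set B' : ℝ := max B 1 with hB'
  have hB1 : 1 ≤ B' := le_max_right _ _
  have hB0 : 0 < B' := by linarith
  obtain ⟨T, hT, hT'⟩ := Φ.exists_large (1 / θ)
  obtain ⟨N, hN⟩ := exists_nat_ge (T * B')
  refine ⟨N, fun k hk => ?_⟩
  have h1 : Φ.I (fun x => B'⁻¹ * (u k).fn x) ≤ 1 :=
    (LPhi.norm_le_iff (u k) hB0).1 ((hu k).trans (le_max_left _ _))
  have h2 : ENNReal.ofReal (1 / θ) * mu (sp (u k)) ≤ Φ.I (fun x => B'⁻¹ * (u k).fn x) := by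
    unfold OrliczFun.I
    rw [← lintegral_indicator_const (sp_meas (u k))]
    refine lintegral_mono_ae ?_
    filter_upwards [hH k] with x hx
    by_cases hx' : x ∈ sp (u k)
    · rw [indicator_of_mem hx']
      apply ENNReal.ofReal_le_ofReal
      apply hT'
      rcases hx with hx | hx
      · exact absurd hx hx'
      · rw [abs_mul, abs_of_pos (inv_pos.2 hB0), inv_mul_eq_div, le_div_iff₀ hB0]
        have h3 : (N : ℝ) ≤ k := by exact_mod_cast hk
        exact hN.trans (h3.trans hx.le)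
    · rw [indicator_of_notMem hx']
      exact zero_le
  have h3 := h2.trans h1
  calc mu (sp (u k)) = ENNReal.ofReal θ * (ENNReal.ofReal (1 / θ) * mu (sp (u k))) := by
        rw [← mul_assoc, ← ENNReal.ofReal_mul hθ.le, mul_one_div_cancel hθ.ne',
          ENNReal.ofReal_one, one_mul]
    _ ≤ ENNReal.ofReal θ * 1 := by gcongr
    _ = ENNReal.ofReal θ := mul_one _

end ModDISJ

open ModDISJ in
theorem mDISJ (ha : StmABSC) : StmDISJ := by
  intro Φ F D hK u B ε hu hH hε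
  have hA : ∀ m j : ℕ, ∃ θ : ℝ, 0 < θ ∧ ∀ A : Set ℝ, MeasurableSet A →
      mu A ≤ ENNReal.ofReal θ → ‖(u m).cut A‖ ≤ ε j := fun m j => ha Φ F D hK (u m) (ε j) (hε j)
  choose θ hθ hθ' using hA
  have hne : ∀ n : ℕ, (Finset.range (n + 1) ×ˢ Finset.range (n + 1)).Nonempty := fun n =>
    ⟨(0, 0), by simp⟩
  set Θ : ℕ → ℝ := fun n =>
    (Finset.range (n + 1) ×ˢ Finset.range (n + 1)).inf' (hne n) (fun p => θ p.1 p.2) with hΘ
  have hΘ0 : ∀ n, 0 < Θ n := fun n => (Finset.lt_inf'_iff _).2 fun p _ => hθ p.1 p.2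
  have hΘle : ∀ n m j, m ≤ n → j ≤ n → Θ n ≤ θ m j := by
    intro n m j hm hj
    have : ((m, j) : ℕ × ℕ) ∈ Finset.range (n + 1) ×ˢ Finset.range (n + 1) := by
      simp only [Finset.mem_product, Finset.mem_range]
      omega
    exact Finset.inf'_le (fun p : ℕ × ℕ => θ p.1 p.2) this
  have hΘanti : ∀ m n, m ≤ n → Θ n ≤ Θ m := by
    intro m n hmn
    refine Finset.inf'_mono _ ?_ (hne m)
    intro p hp
    simp only [Finset.mem_product, Finset.mem_range] at hp ⊢
    omega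
  have hN : ∀ n : ℕ, ∃ N : ℕ, n < N ∧ ∀ k, N ≤ k →
      mu (sp (u k)) ≤ ENNReal.ofReal (Θ n / 2 / 2 ^ (n + 1)) := by
    intro n
    obtain ⟨N, hN⟩ := sp_small hu hH (θ := Θ n / 2 / 2 ^ (n + 1)) (by
      have := hΘ0 n
      positivity)
    exact ⟨max N (n + 1), by omega, fun k hk => hN k (by omega)⟩
  choose g hg1 hg2 using hN
  set κ : ℕ → ℕ := fun i => g^[i] 0 with hκdef
  have hκs : ∀ i, κ (i + 1) = g (κ i) := fun i => Function.iterate_succ_apply' g i 0
  have hκ : StrictMono κ := strictMono_nat_of_lt_succ fun i => by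
    rw [hκs]
    exact hg1 _
  have hsm : ∀ j i, j < i → mu (sp (u (κ i))) ≤ ENNReal.ofReal (Θ (κ j) / 2 / 2 ^ i) := by
    intro j i hji
    obtain ⟨i, rfl⟩ : ∃ i', i = i' + 1 := ⟨i - 1, by omega⟩
    refine (hg2 (κ i) (κ (i + 1)) (by rw [hκs])).trans (ENNReal.ofReal_le_ofReal ?_)
    have h1 : Θ (κ i) ≤ Θ (κ j) := hΘanti _ _ (hκ.monotone (by omega))
    have h2 : (2 : ℝ) ^ (i + 1) ≤ 2 ^ (κ i + 1) :=
      pow_le_pow_right₀ (by norm_num) (by have := hκ.id_le i; simp only [id] at this; omega)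
    have h3 := hΘ0 (κ j)
    have h4 := hΘ0 (κ i)
    gcongr
  set U : ℕ → Set ℝ := fun j => ⋃ i : ℕ, if j < i then sp (u (κ i)) else ∅ with hU
  have hUm : ∀ j, MeasurableSet (U j) := fun j => MeasurableSet.iUnion fun i => by
    split_ifs
    · exact sp_meas _
    · exact MeasurableSet.empty
  have hUmu : ∀ j, mu (U j) ≤ ENNReal.ofReal (Θ (κ j)) := by
    intro j
    have h0 := hΘ0 (κ j)
    calc mu (U j) ≤ ∑' i : ℕ, mu (if j < i then sp (u (κ i)) else ∅) := measure_iUnion_le _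
      _ ≤ ∑' i : ℕ, ENNReal.ofReal (Θ (κ j) / 2 / 2 ^ i) := by
          refine ENNReal.tsum_le_tsum fun i => ?_
          split_ifs with h
          · exact hsm j i h
          · simp
      _ = ENNReal.ofReal (∑' i : ℕ, Θ (κ j) / 2 / 2 ^ i) :=
          (ENNReal.ofReal_tsum_of_nonneg (fun i => by positivity)
            (summable_geometric_two' _)).symm
      _ = ENNReal.ofReal (Θ (κ j)) := by rw [tsum_geometric_two']
  refine ⟨κ, hκ, fun j => sp (u (κ j)) \ U j, fun j => (sp_meas _).diff (hUm j), ?_, ?_⟩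
  · have key : ∀ i j, i < j → Disjoint (sp (u (κ i)) \ U i) (sp (u (κ j)) \ U j) := by
      intro i j hij
      rw [Set.disjoint_left]
      rintro x ⟨-, hx⟩ ⟨hx', -⟩
      apply hx
      simp only [hU, mem_iUnion]
      exact ⟨j, by rw [if_pos hij]; exact hx'⟩
    intro i j hij
    rcases lt_or_gt_of_ne hij with h | h
    · exact key i j h
    · exact (key j i h).symm
  · intro j
    have h1 : ‖(u (κ j)).cut (U j)‖ ≤ ε j :=
      hθ' (κ j) j (U j) (hUm j) ((hUmu j).trans (ENNReal.ofReal_le_ofReal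
        (hΘle _ _ _ le_rfl (by have := hκ.id_le j; simpa using this))))
    refine le_trans (LPhi.norm_mono ?_) h1
    have hsub : u (κ j) - (u (κ j)).cut (sp (u (κ j)) \ U j) =
        u (κ j) + (-1 : ℝ) • (u (κ j)).cut (sp (u (κ j)) \ U j) := by
      rw [neg_one_smul, sub_eq_add_neg]
    rw [hsub]
    filter_upwards [LPhi.fn_add (u (κ j)) ((-1 : ℝ) • (u (κ j)).cut (sp (u (κ j)) \ U j)),
      LPhi.fn_smul (-1 : ℝ) ((u (κ j)).cut (sp (u (κ j)) \ U j)),
      (u (κ j)).fn_cut ((sp_meas (u (κ j))).diff (hUm j)), (u (κ j)).fn_cut (hUm j)]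
      with x h1 h2 h3 h4
    rw [h1, h2, h3, h4]
    by_cases hx : x ∈ sp (u (κ j))
    · by_cases hx' : x ∈ U j
      · rw [indicator_of_notMem (fun h => h.2 hx'), indicator_of_mem hx']
        simp
      · rw [indicator_of_mem (show x ∈ sp (u (κ j)) \ U j from ⟨hx, hx'⟩),
          indicator_of_notMem hx']
        simp
    · have h0 : (u (κ j)).fn x = 0 := by
        by_contra h
        exact hx h
      rw [indicator_of_notMem (fun h => hx h.1), h0]
      simp

end Pool.Agent.T6.H48.KP
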