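import Pool.Agent.T6.H48.KP.Defs

/-!
Project KP, module DSUM (helper82): the modular of a combination of disjoint elements.
-/

set_option autoImplicit false

namespace Pool.Agent.T6.H48.KP

open MeasureTheory Set Filter Topology
open scoped ENNReal

namespace ModDSUM

/-- the function of a finite combination -/
theorem fn_sum {Φ : OrliczFun} (u : ℕ → LPhi Φ) (s : Finset ℕ) (a : ℕ → ℝ) :
    (∑ k ∈ s, a k • u k : LPhi Φ).fn =ᵐ[mu] fun x => ∑ k ∈ s, a k * (u k).fn x := by
  classical
  induction s using Finset.induction_on with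
  | empty =>
    filter_upwards [LPhi.fn_zero (Φ := Φ)] with x hx
    simp only [Finset.sum_empty]
    exact hx
  | insert k s hk ih =>
    filter_upwards [ih, LPhi.fn_add (a k • u k) (∑ k ∈ s, a k • u k), LPhi.fn_smul (a k) (u k)]
      with x h1 h2 h3
    rw [Finset.sum_insert hk, Finset.sum_insert hk, h2, h3, h1]

/-- almost everywhere at most one member of a disjoint sequence does not vanish -/
theorem ae_disj {Φ : OrliczFun} {u : ℕ → LPhi Φ} (hu : DisjSeq u) :
    ∀ᵐ x ∂mu, ∀ m n, m ≠ n → (u m).fn x = 0 ∨ (u n).fn x = 0 := by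
  rw [ae_all_iff]
  intro m
  rw [ae_all_iff]
  intro n
  by_cases h : m = n
  · exact Eventually.of_forall fun x h' => absurd h h'
  · exact (hu m n h).mono fun x hx _ => hx

end ModDSUM

open ModDSUM in
theorem mDSUM : StmDSUM := by
  intro Φ u hu s a b
  have h1 : (fun x => b * (∑ k ∈ s, a k • u k : LPhi Φ).fn x) =ᵐ[mu]
      fun x => b * ∑ k ∈ s, a k * (u k).fn x :=
    (fn_sum u s a).mono fun x hx => by simp only [hx]
  rw [Φ.I_congr h1]
  unfold OrliczFun.I
  rw [← lintegral_finsetSum' s fun k _ =>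
    Φ.aemeas (((u k).fn_meas.aemeasurable.const_mul _).const_mul _)]
  refine lintegral_congr_ae ((ae_disj hu).mono fun x hx => ?_)
  simp only
  by_cases h0 : ∀ k ∈ s, (u k).fn x = 0
  · rw [Finset.sum_eq_zero fun k hk => by rw [h0 k hk, mul_zero],
      Finset.sum_eq_zero fun k hk => by rw [h0 k hk, mul_zero, mul_zero, abs_zero, Φ.zero',
        ENNReal.ofReal_zero], mul_zero, abs_zero, Φ.zero', ENNReal.ofReal_zero]
  · push Not at h0
    obtain ⟨k, hk, hk0⟩ := h0
    have h2 : ∀ j, j ≠ k → (u j).fn x = 0 := fun j hj =>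
      (hx j k hj).resolve_right hk0
    rw [Finset.sum_eq_single_of_mem k hk fun j _ hj => by rw [h2 j hj, mul_zero],
      Finset.sum_eq_single_of_mem k hk fun j _ hj => by
        rw [h2 j hj, mul_zero, mul_zero, abs_zero, Φ.zero', ENNReal.ofReal_zero]]

end Pool.Agent.T6.H48.KP
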