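import Pool.Agent.T6.H48.KP.Space

/-!
Project KP (helper48), MP_8301f5_an: an Orlicz space `L_φ[0,1]` with the Kato property which is not
2-DH. Definitions and statements of the modules.
-/

namespace Pool.Agent.T6.H48.KP

open MeasureTheory Set Filter Topology
open scoped ENNReal

/-! ### The notions of the problem -/

/-- strictly singular operators: not an isomorphism onto the image on any closed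
infinite-dimensional subspace -/
def StrictlySingular {E : Type*} [NormedAddCommGroup E] [NormedSpace ℝ E] (T : E →L[ℝ] E) : Prop :=
  ∀ V : Submodule ℝ E, IsClosed (V : Set E) → ¬ FiniteDimensional ℝ V →
    ¬ ∃ c : ℝ, 0 < c ∧ ∀ x ∈ V, c * ‖x‖ ≤ ‖T x‖

/-- the Kato property: strictly singular operators are compact -/
def KatoProperty (E : Type*) [NormedAddCommGroup E] [NormedSpace ℝ E] : Prop :=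
  ∀ T : E →L[ℝ] E, StrictlySingular T → IsCompactOperator T

/-- disjoint elements of `L_φ[0,1]` -/
def Disj {Φ : OrliczFun} (f g : LPhi Φ) : Prop := ∀ᵐ x ∂mu, f.fn x = 0 ∨ g.fn x = 0

/-- pairwise disjoint sequences -/
def DisjSeq {Φ : OrliczFun} (u : ℕ → LPhi Φ) : Prop := ∀ m n, m ≠ n → Disj (u m) (u n)

/-- equivalence with the unit vector basis of `ℓ_2` -/
def EquivL2 {E : Type*} [NormedAddCommGroup E] [NormedSpace ℝ E] (x : ℕ → E) : Prop :=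
  ∃ K : ℝ, 0 < K ∧ ∀ (s : Finset ℕ) (a : ℕ → ℝ),
    K⁻¹ * √(∑ k ∈ s, a k ^ 2) ≤ ‖∑ k ∈ s, a k • x k‖ ∧
      ‖∑ k ∈ s, a k • x k‖ ≤ K * √(∑ k ∈ s, a k ^ 2)

/-- `L_φ[0,1]` is 2-disjointly homogeneous -/
def TwoDH (Φ : OrliczFun) : Prop :=
  ∀ x : ℕ → LPhi Φ, (∀ n, ‖x n‖ = 1) → DisjSeq x →
    ∃ κ : ℕ → ℕ, StrictMono κ ∧ EquivL2 (fun n => x (κ n))

/-! ### Tools -/

theorem mk_mem_sub {Φ : OrliczFun} {f : ℝ → ℝ}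
    (h : AEStronglyMeasurable f mu ∧ ∃ s : ℝ, 0 < s ∧ Φ.I (fun x => s⁻¹ * f x) < ∞) :
    AEEqFun.mk f h.1 ∈ Φ.sub := by
  obtain ⟨h1, s, hs, h2⟩ := h
  refine ⟨s, hs, ?_⟩
  have : (fun x => s⁻¹ * (AEEqFun.mk f h1 : ℝ →ₘ[mu] ℝ) x) =ᵐ[mu] fun x => s⁻¹ * f x :=
    (AEEqFun.coeFn_mk f h1).mono fun x hx => by
      have hx' : (AEEqFun.mk f h1 : ℝ →ₘ[mu] ℝ) x = f x := hx
      simp only [hx']
  rw [Φ.I_congr this]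
  exact h2

open Classical in
/-- the element of `L_φ` given by a function (`0` if the function is not in `L_φ`) -/
noncomputable def LPhi.ofFn (Φ : OrliczFun) (f : ℝ → ℝ) : LPhi Φ :=
  if h : AEStronglyMeasurable f mu ∧ ∃ s : ℝ, 0 < s ∧ Φ.I (fun x => s⁻¹ * f x) < ∞ then
    LPhi.ofAE (AEEqFun.mk f h.1) (mk_mem_sub h)
  else 0

theorem LPhi.fn_ofFn {Φ : OrliczFun} {f : ℝ → ℝ} (h1 : AEStronglyMeasurable f mu)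
    (h2 : ∃ s : ℝ, 0 < s ∧ Φ.I (fun x => s⁻¹ * f x) < ∞) : (LPhi.ofFn Φ f).fn =ᵐ[mu] f := by
  have : LPhi.ofFn Φ f = LPhi.ofAE (AEEqFun.mk f h1) (mk_mem_sub ⟨h1, h2⟩) :=
    dif_pos ⟨h1, h2⟩
  rw [this]
  exact AEEqFun.coeFn_mk f h1

/-- restriction of `f` to the set `A` -/
noncomputable def LPhi.cut {Φ : OrliczFun} (f : LPhi Φ) (A : Set ℝ) : LPhi Φ :=
  LPhi.ofFn Φ (A.indicator f.fn)

theorem LPhi.fn_cut {Φ : OrliczFun} (f : LPhi Φ) {A : Set ℝ} (hA : MeasurableSet A) :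
    (f.cut A).fn =ᵐ[mu] A.indicator f.fn := by
  unfold LPhi.cut
  apply LPhi.fn_ofFn (f.fn_meas.indicator hA).aestronglyMeasurable
  obtain ⟨s, hs, hf⟩ := f.2
  refine ⟨s, hs, lt_of_le_of_lt (Φ.I_mono (Eventually.of_forall fun x => ?_)) hf⟩
  rw [abs_mul, abs_mul]
  refine mul_le_mul_of_nonneg_left ?_ (abs_nonneg _)
  by_cases hx : x ∈ A
  · rw [indicator_of_mem hx]
    exact le_rfl
  · rw [indicator_of_notMem hx, abs_zero]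
    exact abs_nonneg _

theorem LPhi.norm_mono {Φ : OrliczFun} {f g : LPhi Φ} (h : ∀ᵐ x ∂mu, |f.fn x| ≤ |g.fn x|) :
    ‖f‖ ≤ ‖g‖ := by
  rw [LPhi.norm_def, LPhi.norm_def]
  unfold OrliczFun.lux
  refine csInf_le_csInf (Φ.lset_bdd _) g.lset_ne fun s hs => ⟨hs.1, ?_⟩
  refine (Φ.I_mono (h.mono fun x hx => ?_)).trans hs.2
  rw [abs_mul, abs_mul]
  exact mul_le_mul_of_nonneg_left hx (abs_nonneg _)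

theorem LPhi.norm_cut_le {Φ : OrliczFun} (f : LPhi Φ) {A : Set ℝ} (hA : MeasurableSet A) :
    ‖f.cut A‖ ≤ ‖f‖ := by
  refine LPhi.norm_mono ?_
  filter_upwards [f.fn_cut hA] with x hx
  rw [hx]
  by_cases hx : x ∈ A
  · rw [indicator_of_mem hx]
  · rw [indicator_of_notMem hx, abs_zero]
    exact abs_nonneg _

/-- upper estimate of a sequence in terms of `Ξ` -/
def Upper {E : Type*} [NormedAddCommGroup E] [NormedSpace ℝ E] (Ξ : ℝ → ℝ) (x : ℕ → E) : Prop :=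
  ∃ K : ℝ, 0 < K ∧ ∀ (s : Finset ℕ) (a : ℕ → ℝ), ∑ k ∈ s, Ξ |a k| ≤ 1 →
    ‖∑ k ∈ s, a k • x k‖ ≤ K

/-- lower estimate of a sequence in terms of `Ξ` -/
def Lower {E : Type*} [NormedAddCommGroup E] [NormedSpace ℝ E] (Ξ : ℝ → ℝ) (x : ℕ → E) : Prop :=
  ∃ K : ℝ, 0 < K ∧ ∀ (s : Finset ℕ) (a : ℕ → ℝ), ‖∑ k ∈ s, a k • x k‖ ≤ 1 →
    ∑ k ∈ s, Ξ |a k| ≤ K

/-- `t ↦ t^2` -/
def sq (t : ℝ) : ℝ := t ^ 2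

/-- functions with power type growth between `3/2` and `5/2`, equal to `t^2` for `t ≥ 1` -/
structure GrowthFn (Ξ : ℝ → ℝ) : Prop where
  zero : Ξ 0 = 0
  nonneg : ∀ a, 0 ≤ Ξ a
  big : ∀ a, 1 ≤ a → Ξ a = a ^ 2
  growth : ∀ l a : ℝ, 0 < l → l ≤ 1 → 0 ≤ a →
    Ξ (l * a) ≤ l ^ (3 / 2 : ℝ) * Ξ a ∧ l ^ (5 / 2 : ℝ) * Ξ a ≤ Ξ (l * a)

/-- The properties of the Orlicz function which are used. `D h` measures the distance (in a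
logarithmic scale) of the height `h` to the feature heights; `F` is the Orlicz function of
disjoint sequences at the feature heights. -/
structure KD (Φ : OrliczFun) (F D : ℝ → ℝ) : Prop where
  Dmeas : Measurable D
  pos : ∀ h, 0 < h → 0 < Φ.φ h
  growth : ∃ K : ℝ, 1 ≤ K ∧ ∀ h a : ℝ, 0 < h → 0 < a → a ≤ 1 →
    Φ.φ (a * h) ≤ K * a ^ (3 / 2 : ℝ) * Φ.φ h ∧ a ^ (5 / 2 : ℝ) * Φ.φ h ≤ K * Φ.φ (a * h)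
  feat : ∀ M : ℝ, ∃ K : ℝ, 1 ≤ K ∧ ∀ A : ℝ, ∃ H : ℝ, ∀ h a : ℝ, 0 < h → H ≤ h → D h ≤ M →
    Real.exp (-A) ≤ a → a ≤ 1 →
    Φ.φ (a * h) ≤ K * F a * Φ.φ h ∧ F a * Φ.φ h ≤ K * Φ.φ (a * h)
  flat : ∃ K : ℝ, 1 ≤ K ∧ ∀ A : ℝ, ∃ M : ℝ, ∀ h a : ℝ, 0 < h → M ≤ D h →
    Real.exp (-A) ≤ a → a ≤ 1 →
    Φ.φ (a * h) ≤ K * a ^ 2 * Φ.φ h ∧ a ^ 2 * Φ.φ h ≤ K * Φ.φ (a * h)
  feats : ∀ H : ℝ, ∃ h : ℝ, H ≤ h ∧ 0 < h ∧ D h ≤ 0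
  F_growth : GrowthFn F
  osc_up : ∀ K : ℝ, 1 ≤ K → ∃ N : ℕ, 0 < N ∧ K < N * F (1 / (K * √(N : ℝ)))
  osc_dn : ∀ K : ℝ, 1 ≤ K → ∃ N : ℕ, 0 < N ∧ N * F (K / √(N : ℝ)) ≤ 1

/-- the heights of `u k` are above `k` -/
def High {Φ : OrliczFun} (u : ℕ → LPhi Φ) : Prop :=
  ∀ k : ℕ, ∀ᵐ x ∂mu, (u k).fn x = 0 ∨ (k : ℝ) < |(u k).fn x|

/-- the heights of all `u k` are at distance at most `M` from the features -/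
def Feat {Φ : OrliczFun} (D : ℝ → ℝ) (M : ℝ) (u : ℕ → LPhi Φ) : Prop :=
  ∀ k : ℕ, ∀ᵐ x ∂mu, (u k).fn x = 0 ∨ D |(u k).fn x| ≤ M

/-- the heights of `u k` are at distance more than `k` from the features -/
def Flat {Φ : OrliczFun} (D : ℝ → ℝ) (u : ℕ → LPhi Φ) : Prop :=
  ∀ k : ℕ, ∀ᵐ x ∂mu, (u k).fn x = 0 ∨ (k : ℝ) < D |(u k).fn x|

/-- weakly null against `L^3` -/
def WNull {Φ : OrliczFun} (z : ℕ → LPhi Φ) : Prop :=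
  ∀ h : ℝ → ℝ, MemLp h 3 mu → Tendsto (fun k => ∫ x, (z k).fn x * h x ∂mu) atTop (𝓝 0)

/-! ### Statements: the Orlicz space -/

/-- COMPL -/
def StmCOMPL : Prop := ∀ Φ : OrliczFun, CompleteSpace (LPhi Φ)

/-- ABSC: absolute continuity of the norm -/
def StmABSC : Prop := ∀ (Φ : OrliczFun) (F D : ℝ → ℝ), KD Φ F D → ∀ (f : LPhi Φ) (η : ℝ), 0 < η →
  ∃ θ : ℝ, 0 < θ ∧ ∀ A : Set ℝ, MeasurableSet A → mu A ≤ ENNReal.ofReal θ → ‖f.cut A‖ ≤ η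

/-- MODN: norm and modular -/
def StmMODN : Prop := ∀ (Φ : OrliczFun) (F D : ℝ → ℝ), KD Φ F D →
  (∀ δ : ℝ, 0 < δ → ∃ c : ℝ, 0 < c ∧ ∀ f : LPhi Φ, δ ≤ ‖f‖ → ENNReal.ofReal c ≤ Φ.I f.fn) ∧
  (∀ (B K : ℝ) (f : LPhi Φ), 0 < B → 1 ≤ K →
    Φ.I (fun x => B⁻¹ * f.fn x) ≤ ENNReal.ofReal K → ‖f‖ ≤ B * K)

/-- DSUM: modular of a combination of disjoint elements -/
def StmDSUM : Prop := ∀ (Φ : OrliczFun) (u : ℕ → LPhi Φ), DisjSeq u →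
  ∀ (s : Finset ℕ) (a : ℕ → ℝ) (b : ℝ),
    Φ.I (fun x => b * (∑ k ∈ s, a k • u k : LPhi Φ).fn x) =
      ∑ k ∈ s, Φ.I (fun x => b * (a k * (u k).fn x))

/-- FOUR: the embedding of `L^4` -/
def StmFOUR : Prop := ∀ (Φ : OrliczFun) (F D : ℝ → ℝ), KD Φ F D → ∃ K : ℝ, 0 < K ∧
  ∀ (f : LPhi Φ) (B : ℝ), 0 < B → ∫⁻ x, ENNReal.ofReal (f.fn x ^ 4) ∂mu ≤ ENNReal.ofReal (B ^ 4) →
    ‖f‖ ≤ K * B

/-- HOLD: duality with `L^3` -/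
def StmHOLD : Prop := ∀ (Φ : OrliczFun) (F D : ℝ → ℝ), KD Φ F D → ∃ K : ℝ, 0 < K ∧
  (∀ (f : LPhi Φ), eLpNorm f.fn (3 / 2) mu ≤ ENNReal.ofReal (K * ‖f‖) ∧ Integrable f.fn mu ∧
    ∫ x, |f.fn x| ∂mu ≤ K * ‖f‖) ∧
  (∀ (f : LPhi Φ) (h : ℝ → ℝ), MemLp h 3 mu → Integrable (fun x => f.fn x * h x) mu ∧
    |∫ x, f.fn x * h x ∂mu| ≤ K * ‖f‖ * (eLpNorm h 3 mu).toReal)

/-- EXTR: extraction of weakly Cauchy subsequences -/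
def StmEXTR : Prop := ∀ (Φ : OrliczFun) (F D : ℝ → ℝ), KD Φ F D → ∀ (f : ℕ → LPhi Φ) (B : ℝ),
  (∀ n, ‖f n‖ ≤ B) → ∃ κ : ℕ → ℕ, StrictMono κ ∧ ∀ h : ℝ → ℝ, MemLp h 3 mu →
    CauchySeq fun n => ∫ x, (f (κ n)).fn x * h x ∂mu

/-- EXTB: the same for bounded functions against `L^1` -/
def StmEXTB : Prop := ∀ (g : ℕ → ℝ → ℝ) (B : ℝ), (∀ n, Measurable (g n)) →
  (∀ n x, |g n x| ≤ B) → ∃ κ : ℕ → ℕ, StrictMono κ ∧ ∀ h : ℝ → ℝ, Integrable h mu →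
    CauchySeq fun n => ∫ x, g (κ n) x * h x ∂mu

/-- MOM4: fourth moments -/
def StmMOM4 : Prop := ∀ (g : ℕ → ℝ → ℝ) (B : ℝ), (∀ n, Measurable (g n)) →
  (∀ n x, |g n x| ≤ B) →
  (∀ h : ℝ → ℝ, Integrable h mu → Tendsto (fun n => ∫ x, g n x * h x ∂mu) atTop (𝓝 0)) →
  ∃ κ : ℕ → ℕ, StrictMono κ ∧ ∃ K : ℝ, 0 < K ∧ ∀ (s : Finset ℕ) (a : ℕ → ℝ),
    ∫ x, (∑ k ∈ s, a k * g (κ k) x) ^ 4 ∂mu ≤ K * (∑ k ∈ s, a k ^ 2) ^ 2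

/-! ### Statements: general lemmas -/

/-- SEPA: a separated image of the unit ball -/
def StmSEPA : Prop := ∀ (E : Type) [NormedAddCommGroup E] [NormedSpace ℝ E] [CompleteSpace E]
  (T : E →L[ℝ] E), ¬ IsCompactOperator T →
  ∃ δ : ℝ, 0 < δ ∧ ∃ f : ℕ → E, (∀ n, ‖f n‖ ≤ 1) ∧ ∀ m n, m ≠ n → δ ≤ ‖T (f m) - T (f n)‖

/-- TOTB -/
def StmTOTB : Prop := ∀ (E : Type) [NormedAddCommGroup E],
  (∀ y : ℕ → E, ¬ TotallyBounded (range y) → ∃ δ : ℝ, 0 < δ ∧ ∃ κ : ℕ → ℕ, StrictMono κ ∧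
    ∀ m n, m ≠ n → δ ≤ ‖y (κ m) - y (κ n)‖) ∧
  (∀ y : ℕ → ℕ → E, (∀ M, TotallyBounded (range (y M))) → ∃ κ : ℕ → ℕ, StrictMono κ ∧
    ∀ M, CauchySeq fun n => y M (κ n))

/-- PERT: perturbation of lower estimates -/
def StmPERT : Prop := ∀ (E : Type) [NormedAddCommGroup E] [NormedSpace ℝ E] (Ξ : ℝ → ℝ)
  (z w : ℕ → E), GrowthFn Ξ → Lower Ξ w → (∀ j, ‖z j - w j‖ ≤ (1 / 4) ^ j) →
  ∃ j₀ : ℕ, Lower Ξ fun j => z (j + j₀)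

/-- ISOM: upper and lower estimates give an isomorphism -/
def StmISOM : Prop := ∀ (E : Type) [NormedAddCommGroup E] [NormedSpace ℝ E] (Ξ : ℝ → ℝ)
  (T : E →L[ℝ] E) (y : ℕ → E), GrowthFn Ξ → Upper Ξ y → Lower Ξ (fun k => T (y k)) →
  ¬ StrictlySingular T

/-- CONT: the two contradictions -/
def StmCONT : Prop := ∀ (Φ : OrliczFun) (F D : ℝ → ℝ), KD Φ F D →
  ∀ (E : Type) [NormedAddCommGroup E] [NormedSpace ℝ E] (T : E →L[ℝ] E) (y : ℕ → E),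
  ¬ (Upper sq y ∧ Lower F fun k => T (y k)) ∧ ¬ (Upper F y ∧ Lower sq fun k => T (y k))

/-! ### Statements: sequences in the space -/

/-- SPLI -/
def StmSPLI : Prop := ∀ (Φ : OrliczFun) (F D : ℝ → ℝ), KD Φ F D → ∀ (T : LPhi Φ →L[ℝ] LPhi Φ)
  (δ : ℝ) (f : ℕ → LPhi Φ), 0 < δ → (∀ n, ‖f n‖ ≤ 1) →
  (∀ m n, m ≠ n → δ ≤ ‖T (f m) - T (f n)‖) →
  (∃ M δ' : ℝ, 0 < δ' ∧ ∃ g : ℕ → LPhi Φ, (∀ n, ‖g n‖ ≤ 1) ∧ (∀ n, ∀ᵐ x ∂mu, |(g n).fn x| ≤ M) ∧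
    ∀ m n, m ≠ n → δ' ≤ ‖T (g m) - T (g n)‖) ∨
  (∃ δ' : ℝ, 0 < δ' ∧ ∃ u : ℕ → LPhi Φ, (∀ n, ‖u n‖ ≤ 1) ∧ High u ∧ ∀ n, δ' ≤ ‖T (u n)‖)

/-- DISJ: disjointification -/
def StmDISJ : Prop := ∀ (Φ : OrliczFun) (F D : ℝ → ℝ), KD Φ F D → ∀ (u : ℕ → LPhi Φ) (B : ℝ)
  (ε : ℕ → ℝ), (∀ n, ‖u n‖ ≤ B) → High u → (∀ n, 0 < ε n) →
  ∃ κ : ℕ → ℕ, StrictMono κ ∧ ∃ A : ℕ → Set ℝ, (∀ j, MeasurableSet (A j)) ∧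
    (∀ i j, i ≠ j → Disjoint (A i) (A j)) ∧ ∀ j, ‖u (κ j) - (u (κ j)).cut (A j)‖ ≤ ε j

/-- CASE: feature part or flat part -/
def StmCASE : Prop := ∀ (Φ : OrliczFun) (F D : ℝ → ℝ), KD Φ F D → ∀ (T : LPhi Φ →L[ℝ] LPhi Φ)
  (u : ℕ → LPhi Φ) (δ : ℝ), 0 < δ → (∀ n, δ ≤ ‖T (u n)‖) → High u → DisjSeq u →
  ∃ κ : ℕ → ℕ, StrictMono κ ∧ ∃ A : ℕ → Set ℝ, (∀ j, MeasurableSet (A j)) ∧
    High (fun j => (u (κ j)).cut (A j)) ∧ DisjSeq (fun j => (u (κ j)).cut (A j)) ∧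
    (∃ δ' : ℝ, 0 < δ' ∧ ∀ j, δ' ≤ ‖T ((u (κ j)).cut (A j))‖) ∧
    ((∃ M, Feat D M fun j => (u (κ j)).cut (A j)) ∨ Flat D fun j => (u (κ j)).cut (A j))

/-- SRCF -/
def StmSRCF : Prop := ∀ (Φ : OrliczFun) (F D : ℝ → ℝ), KD Φ F D → ∀ (u : ℕ → LPhi Φ) (B M : ℝ),
  (∀ n, ‖u n‖ ≤ B) → High u → DisjSeq u → Feat D M u →
  ∃ κ : ℕ → ℕ, StrictMono κ ∧ Upper F fun j => u (κ j)

/-- TGTF -/
def StmTGTF : Prop := ∀ (Φ : OrliczFun) (F D : ℝ → ℝ), KD Φ F D → ∀ (u : ℕ → LPhi Φ) (δ M : ℝ),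
  0 < δ → (∀ n, δ ≤ ‖u n‖) → High u → DisjSeq u → Feat D M u →
  ∃ κ : ℕ → ℕ, StrictMono κ ∧ Lower F fun j => u (κ j)

/-- SRCS -/
def StmSRCS : Prop := ∀ (Φ : OrliczFun) (F D : ℝ → ℝ), KD Φ F D → ∀ (u : ℕ → LPhi Φ) (B : ℝ),
  (∀ n, ‖u n‖ ≤ B) → DisjSeq u → Flat D u →
  ∃ κ : ℕ → ℕ, StrictMono κ ∧ Upper sq fun j => u (κ j)

/-- TGTS -/
def StmTGTS : Prop := ∀ (Φ : OrliczFun) (F D : ℝ → ℝ), KD Φ F D → ∀ (u : ℕ → LPhi Φ) (δ : ℝ),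
  0 < δ → (∀ n, δ ≤ ‖u n‖) → DisjSeq u → Flat D u →
  ∃ κ : ℕ → ℕ, StrictMono κ ∧ Lower sq fun j => u (κ j)

/-- UP32 -/
def StmUP32 : Prop := ∀ (Φ : OrliczFun) (F D : ℝ → ℝ), KD Φ F D → ∀ (u : ℕ → LPhi Φ) (B : ℝ),
  (∀ n, ‖u n‖ ≤ B) → DisjSeq u → ∃ K : ℝ, 0 < K ∧ ∀ (s : Finset ℕ) (a : ℕ → ℝ),
    (∀ k, |a k| ≤ 1) → ‖∑ k ∈ s, a k • u k‖ ≤ K * (s.card : ℝ) ^ (2 / 3 : ℝ)

/-- WNUL: images of disjoint sequences are weakly null -/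
def StmWNUL : Prop := ∀ (Φ : OrliczFun) (F D : ℝ → ℝ), KD Φ F D → ∀ (T : LPhi Φ →L[ℝ] LPhi Φ)
  (u : ℕ → LPhi Φ) (B : ℝ), (∀ n, ‖u n‖ ≤ B) → DisjSeq u → WNull fun k => T (u k)

/-- BDDS: the bounded case of the source -/
def StmBDDS : Prop := ∀ (Φ : OrliczFun) (F D : ℝ → ℝ), KD Φ F D → ∀ (T : LPhi Φ →L[ℝ] LPhi Φ)
  (M δ : ℝ) (g : ℕ → LPhi Φ), 0 < δ → (∀ n, ‖g n‖ ≤ 1) → (∀ n, ∀ᵐ x ∂mu, |(g n).fn x| ≤ M) →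
  (∀ m n, m ≠ n → δ ≤ ‖T (g m) - T (g n)‖) →
  ∃ y : ℕ → LPhi Φ, (∀ n, ‖y n‖ ≤ 2) ∧ Upper sq y ∧ (∀ n, δ ≤ ‖T (y n)‖) ∧ WNull fun k => T (y k)

/-- SRCE: the source -/
def StmSRCE : Prop := ∀ (Φ : OrliczFun) (F D : ℝ → ℝ), KD Φ F D → ∀ T : LPhi Φ →L[ℝ] LPhi Φ,
  ¬ IsCompactOperator T → ∃ (y : ℕ → LPhi Φ) (δ : ℝ), 0 < δ ∧ (∀ n, ‖y n‖ ≤ 2) ∧
    (Upper sq y ∨ Upper F y) ∧ (∀ n, δ ≤ ‖T (y n)‖) ∧ WNull fun k => T (y k)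

/-- TGTL: target not small in `L^1` -/
def StmTGTL : Prop := ∀ (Φ : OrliczFun) (F D : ℝ → ℝ), KD Φ F D → ∀ (z : ℕ → LPhi Φ) (B η : ℝ),
  (∀ n, ‖z n‖ ≤ B) → WNull z → 0 < η → (∀ n, η ≤ ∫ x, |(z n).fn x| ∂mu) →
  ∃ κ : ℕ → ℕ, StrictMono κ ∧ Lower sq fun j => z (κ j)

/-- TGTD: target small in `L^1` -/
def StmTGTD : Prop := ∀ (Φ : OrliczFun) (F D : ℝ → ℝ), KD Φ F D → ∀ (z : ℕ → LPhi Φ) (B : ℝ)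
  (ε : ℕ → ℝ), (∀ n, ‖z n‖ ≤ B) → Tendsto (fun n => ∫ x, |(z n).fn x| ∂mu) atTop (𝓝 0) →
  Antitone ε → (∀ n, 0 < ε n) →
  ∃ κ : ℕ → ℕ, StrictMono κ ∧ ∃ w : ℕ → LPhi Φ, High w ∧ DisjSeq w ∧
    ∀ j, ‖z (κ j) - w j‖ ≤ ε j

/-- TARG: the target -/
def StmTARG : Prop := ∀ (Φ : OrliczFun) (F D : ℝ → ℝ), KD Φ F D → ∀ (z : ℕ → LPhi Φ) (B δ : ℝ),
  0 < δ → (∀ n, ‖z n‖ ≤ B) → (∀ n, δ ≤ ‖z n‖) → WNull z →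
  ∃ κ : ℕ → ℕ, StrictMono κ ∧ ((Lower sq fun j => z (κ j)) ∨ Lower F fun j => z (κ j))

/-- KATO -/
def StmKATO : Prop := ∀ (Φ : OrliczFun) (F D : ℝ → ℝ), KD Φ F D → KatoProperty (LPhi Φ)

/-- NDH -/
def StmNDH : Prop := ∀ (Φ : OrliczFun) (F D : ℝ → ℝ), KD Φ F D → ¬ TwoDH Φ

/-! ### Statements: the Orlicz function -/

/-- the oscillating function -/
noncomputable def vv (y : ℝ) : ℝ :=
  1 / 2 * (√(Real.log (1 + y)) * Real.sin (√(Real.log (1 + y))))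

/-- distance to the features `4^(k+1)` (logarithmic scale) -/
noncomputable def dd (x : ℝ) : ℝ := Metric.infDist x (range fun k : ℕ => (4 : ℝ) ^ (k + 1))

/-- `w = v ∘ d` -/
noncomputable def ww (x : ℝ) : ℝ := vv (dd x)

/-- the derivative of the Orlicz function -/
noncomputable def psi0 (s : ℝ) : ℝ := if s ≤ 0 then 0 else s * Real.exp (ww (Real.log s))

/-- the Orlicz function -/
noncomputable def phi0 (t : ℝ) : ℝ := ∫ s in (0:ℝ)..t, psi0 s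

/-- the Orlicz function of the features -/
noncomputable def F0 (a : ℝ) : ℝ := a ^ 2 * Real.exp (vv (max 0 (-Real.log a)))

/-- distance of the height to the features -/
noncomputable def D0 (h : ℝ) : ℝ := dd (Real.log h)

/-- VV -/
def StmVV : Prop := vv 0 = 0 ∧
  (∀ y y' : ℝ, 0 ≤ y → 0 ≤ y' → |vv y - vv y'| ≤ 1 / 2 * |Real.log (1 + y) - Real.log (1 + y')|) ∧
  (∀ K Y : ℝ, ∃ y, Y ≤ y ∧ 0 ≤ y ∧ K ≤ vv y) ∧ (∀ K Y : ℝ, ∃ y, Y ≤ y ∧ 0 ≤ y ∧ vv y ≤ -K)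

/-- DDIS -/
def StmDDIS : Prop := (∀ x x' : ℝ, |dd x - dd x'| ≤ |x - x'|) ∧ (∀ x, 0 ≤ dd x) ∧
  (∀ k : ℕ, dd ((4 : ℝ) ^ (k + 1)) = 0) ∧
  (∀ M A : ℝ, 0 ≤ M → 0 ≤ A → ∃ X : ℝ, ∀ x y : ℝ, X ≤ x → dd x ≤ M → 0 ≤ y → y ≤ A →
    |dd (x - y) - y| ≤ M)

/-- PHIB -/
def StmPHIB : Prop := (∀ t : ℝ, 0 < t →
    2 / 5 * t ^ 2 * Real.exp (ww (Real.log t)) ≤ phi0 t ∧
    phi0 t ≤ 2 / 3 * t ^ 2 * Real.exp (ww (Real.log t))) ∧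
  ConvexOn ℝ (Ici 0) phi0 ∧ MonotoneOn phi0 (Ici 0) ∧ ContinuousOn phi0 (Ici 0) ∧ phi0 0 = 0

/-- F0G -/
def StmF0G : Prop := GrowthFn F0 ∧
  (∀ K : ℝ, 1 ≤ K → ∃ N : ℕ, 0 < N ∧ K < N * F0 (1 / (K * √(N : ℝ)))) ∧
  (∀ K : ℝ, 1 ≤ K → ∃ N : ℕ, 0 < N ∧ N * F0 (K / √(N : ℝ)) ≤ 1)

/-- EXKD: existence -/
def StmEXKD : Prop := ∃ (Φ : OrliczFun) (F D : ℝ → ℝ), KD Φ F D

/-- FINAL -/
def StmFIN : Prop := ∃ Φ : OrliczFun, KatoProperty (LPhi Φ) ∧ ¬ TwoDH Φ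

end Pool.Agent.T6.H48.KP
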