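import Pool.Agent.T6.H48.KP.Defs

/-!
Project KP, module EXKD: existence of the Orlicz function.
-/

namespace Pool.Agent.T6.H48.KP

open MeasureTheory Set Filter Topology
open scoped ENNReal

namespace ModEXKD

theorem log_sub_le {p q : ℝ} (hp : 0 < p) (hq : 0 < q) : Real.log p - Real.log q ≤ (p - q) / q := by
  rw [← Real.log_div hp.ne' hq.ne']
  have := Real.log_le_sub_one_of_pos (div_pos hp hq)
  refine this.trans (le_of_eq ?_)
  field_simp

theorem abs_log_sub_le {u v m d : ℝ} (hm : 0 < m) (hu : m ≤ 1 + u) (hv : m ≤ 1 + v)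
    (hd : |u - v| ≤ d) :
    |Real.log (1 + u) - Real.log (1 + v)| ≤ d / m := by
  have hd0 : 0 ≤ d := (abs_nonneg _).trans hd
  have key : ∀ u v : ℝ, m ≤ 1 + u → m ≤ 1 + v → |u - v| ≤ d →
      Real.log (1 + u) - Real.log (1 + v) ≤ d / m := by
    intro u v hu hv hd
    refine (log_sub_le (by linarith) (by linarith)).trans ?_
    have h1 : (1 + u) - (1 + v) ≤ d := by
      have := le_abs_self (u - v)
      linarith
    calc ((1 + u) - (1 + v)) / (1 + v) ≤ d / (1 + v) := by
          have : 0 < 1 + v := by linarith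
          gcongr
      _ ≤ d / m := by gcongr
  rw [abs_le]
  constructor
  · have := key v u hv hu (by rwa [abs_sub_comm])
    linarith
  · exact key u v hu hv hd

theorem up (hp : StmPHIB) {h a C G : ℝ} (hh : 0 < h) (ha : 0 < a) (hC : 0 ≤ C) (hG : 0 ≤ G)
    (hE : Real.exp (ww (Real.log (a * h))) ≤ C * G * Real.exp (ww (Real.log h))) :
    phi0 (a * h) ≤ 5 / 3 * C * a ^ 2 * G * phi0 h := by
  have h1 := (hp.1 (a * h) (by positivity)).2
  have h2 := (hp.1 h hh).1
  have h3 : 0 ≤ 5 / 3 * C * a ^ 2 * G := by positivity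
  calc phi0 (a * h) ≤ 2 / 3 * (a * h) ^ 2 * Real.exp (ww (Real.log (a * h))) := h1
    _ ≤ 2 / 3 * (a * h) ^ 2 * (C * G * Real.exp (ww (Real.log h))) := by gcongr
    _ = 5 / 3 * C * a ^ 2 * G * (2 / 5 * h ^ 2 * Real.exp (ww (Real.log h))) := by ring
    _ ≤ 5 / 3 * C * a ^ 2 * G * phi0 h := mul_le_mul_of_nonneg_left h2 h3

theorem dn (hp : StmPHIB) {h a C G : ℝ} (hh : 0 < h) (ha : 0 < a) (hC : 0 ≤ C) (hG : 0 ≤ G)
    (hE : G * Real.exp (ww (Real.log h)) ≤ C * Real.exp (ww (Real.log (a * h)))) :
    a ^ 2 * G * phi0 h ≤ 5 / 3 * C * phi0 (a * h) := by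
  have h1 := (hp.1 (a * h) (by positivity)).1
  have h2 := (hp.1 h hh).2
  have h3 : 0 ≤ a ^ 2 * G := by positivity
  have h4 : 0 ≤ 5 / 3 * C := by positivity
  calc a ^ 2 * G * phi0 h ≤ a ^ 2 * G * (2 / 3 * h ^ 2 * Real.exp (ww (Real.log h))) :=
        mul_le_mul_of_nonneg_left h2 h3
    _ = 2 / 3 * (a * h) ^ 2 * (G * Real.exp (ww (Real.log h))) := by ring
    _ ≤ 2 / 3 * (a * h) ^ 2 * (C * Real.exp (ww (Real.log (a * h)))) := by gcongr
    _ = 5 / 3 * C * (2 / 5 * (a * h) ^ 2 * Real.exp (ww (Real.log (a * h)))) := by ring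
    _ ≤ 5 / 3 * C * phi0 (a * h) := mul_le_mul_of_nonneg_left h1 h4

theorem logmul {h a : ℝ} (hh : 0 < h) (ha : 0 < a) :
    Real.log (a * h) = Real.log h - (-Real.log a) := by
  rw [Real.log_mul ha.ne' hh.ne']; ring

theorem ww_diff (hv : StmVV) (hd : StmDDIS) {x y : ℝ} (hy : 0 ≤ y) :
    |ww (x - y) - ww x| ≤ y / 2 := by
  have h1 := hv.2.1 (dd (x - y)) (dd x) (hd.2.1 _) (hd.2.1 _)
  have h2 : |dd (x - y) - dd x| ≤ y := by
    refine (hd.1 _ _).trans (le_of_eq ?_)
    rw [show x - y - x = -y by ring, abs_neg, abs_of_nonneg hy]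
  have h3 := abs_log_sub_le (m := 1) one_pos (by linarith [hd.2.1 (x - y)])
    (by linarith [hd.2.1 x]) h2
  rw [div_one] at h3
  unfold ww
  linarith

end ModEXKD

open ModEXKD in
theorem mEXKD (hv : StmVV) (hd : StmDDIS) (hp : StmPHIB) (hf : StmF0G) : StmEXKD := by
  have hpos : ∀ h : ℝ, 0 < h → 0 < phi0 h := fun h hh =>
    lt_of_lt_of_le (by positivity) (hp.1 h hh).1
  refine ⟨⟨phi0, hp.2.1, hp.2.2.1, hp.2.2.2.1, hp.2.2.2.2, 1, one_pos, (hpos 1 one_pos).ne'⟩,
    F0, D0, ?_⟩
  refine
    { Dmeas := ?_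
      pos := hpos
      growth := ?_
      feat := ?_
      flat := ?_
      feats := ?_
      F_growth := hf.1
      osc_up := hf.2.1
      osc_dn := hf.2.2 }
  · have h1 : Continuous dd := Metric.continuous_infDist_pt _
    exact h1.measurable.comp Real.measurable_log
  · refine ⟨5 / 3, by norm_num, fun h a hh ha ha1 => ?_⟩
    have hy : 0 ≤ -Real.log a := by
      have := Real.log_nonpos ha.le ha1
      linarith
    have hw := ww_diff hv hd (x := Real.log h) hy
    rw [← logmul hh ha] at hw
    rw [abs_le] at hw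
    have e1 : Real.exp (-Real.log a / 2) = a ^ (-(1 / 2) : ℝ) := by
      rw [Real.rpow_def_of_pos ha]; congr 1; ring
    have e2 : Real.exp (Real.log a / 2) = a ^ (1 / 2 : ℝ) := by
      rw [Real.rpow_def_of_pos ha]; congr 1; ring
    constructor
    · have := up hp (C := 1) (G := a ^ (-(1 / 2) : ℝ)) hh ha zero_le_one
        (Real.rpow_nonneg ha.le _) (by
          rw [one_mul, ← e1, ← Real.exp_add]
          exact Real.exp_le_exp.2 (by linarith [hw.2]))
      refine this.trans (le_of_eq ?_)
      have e3 : a ^ (3 / 2 : ℝ) = a ^ 2 * a ^ (-(1 / 2) : ℝ) := by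
        rw [← Real.rpow_natCast a 2, ← Real.rpow_add ha]; norm_num
      rw [e3]; ring
    · have := dn hp (C := 1) (G := a ^ (1 / 2 : ℝ)) hh ha zero_le_one
        (Real.rpow_nonneg ha.le _) (by
          rw [one_mul, ← e2, ← Real.exp_add]
          exact Real.exp_le_exp.2 (by linarith [hw.1]))
      have e3 : a ^ (5 / 2 : ℝ) = a ^ 2 * a ^ (1 / 2 : ℝ) := by
        rw [← Real.rpow_natCast a 2, ← Real.rpow_add ha]; norm_num
      rw [e3]
      refine this.trans (le_of_eq ?_)
      ring
  · intro M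
    set M' := max M 0 with hM'
    have hM0 : 0 ≤ M' := le_max_right _ _
    have hexp1 : (1:ℝ) ≤ Real.exp M' := Real.one_le_exp hM0
    refine ⟨5 / 3 * Real.exp M', by nlinarith, fun A => ?_⟩
    obtain ⟨X, hX⟩ := hd.2.2.2 M' (max A 0) hM0 (le_max_right _ _)
    refine ⟨Real.exp X, fun h a hh hH hD hA ha1 => ?_⟩
    have ha : 0 < a := (Real.exp_pos _).trans_le hA
    have hy : 0 ≤ -Real.log a := by
      have := Real.log_nonpos ha.le ha1
      linarith
    have hyA : -Real.log a ≤ max A 0 := by
      have : -A ≤ Real.log a := (Real.le_log_iff_exp_le ha).2 hA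
      exact (by linarith : -Real.log a ≤ A).trans (le_max_left _ _)
    have hx : X ≤ Real.log h := (Real.le_log_iff_exp_le hh).2 hH
    have hDx : dd (Real.log h) ≤ M' := le_trans hD (le_max_left _ _)
    have h1 := hX (Real.log h) (-Real.log a) hx hDx hy hyA
    have h2 := hv.2.1 (dd (Real.log h - -Real.log a)) (-Real.log a) (hd.2.1 _) hy
    have h3 := abs_log_sub_le (m := 1) one_pos (by linarith [hd.2.1 (Real.log h - -Real.log a)])
      (by linarith) h1
    have h4 := hv.2.1 (dd (Real.log h)) 0 (hd.2.1 _) le_rfl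
    have h5 : |dd (Real.log h) - 0| ≤ M' := by
      rw [sub_zero, abs_of_nonneg (hd.2.1 _)]; exact hDx
    have h6 := abs_log_sub_le (m := 1) one_pos (by linarith [hd.2.1 (Real.log h)])
      (by linarith) h5
    rw [hv.1, sub_zero] at h4
    rw [div_one] at h3 h6
    have h7 : |ww (Real.log (a * h)) - (vv (-Real.log a) + ww (Real.log h))| ≤ M' := by
      rw [logmul hh ha]
      unfold ww
      have e1 : vv (dd (Real.log h - -Real.log a)) - (vv (-Real.log a) + vv (dd (Real.log h))) =
        (vv (dd (Real.log h - -Real.log a)) - vv (-Real.log a)) - vv (dd (Real.log h)) := by ring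
      rw [e1]
      have e2 := abs_sub (vv (dd (Real.log h - -Real.log a)) - vv (-Real.log a))
        (vv (dd (Real.log h)))
      have e3 : |vv (dd (Real.log h - -Real.log a)) - vv (-Real.log a)| ≤ M' / 2 := by
        refine h2.trans ?_
        linarith [h3]
      have e4 : |vv (dd (Real.log h))| ≤ M' / 2 := by
        refine h4.trans ((mul_le_mul_of_nonneg_left h6 (by norm_num)).trans ?_)
        linarith
      refine e2.trans ?_
      linarith [e3, e4]
    rw [abs_le] at h7
    have hF : F0 a = a ^ 2 * Real.exp (vv (-Real.log a)) := by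
      unfold F0
      rw [max_eq_right hy]
    rw [hF]
    constructor
    · have := up hp (C := Real.exp M') (G := Real.exp (vv (-Real.log a))) hh ha
        (Real.exp_pos _).le (Real.exp_pos _).le (by
          rw [← Real.exp_add, ← Real.exp_add]
          exact Real.exp_le_exp.2 (by linarith [h7.2]))
      refine this.trans (le_of_eq ?_)
      ring
    · have := dn hp (C := Real.exp M') (G := Real.exp (vv (-Real.log a))) hh ha
        (Real.exp_pos _).le (Real.exp_pos _).le (by
          rw [← Real.exp_add, ← Real.exp_add]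
          exact Real.exp_le_exp.2 (by linarith [h7.1]))
      exact this
  · have hexp1 : (1:ℝ) ≤ Real.exp 1 := Real.one_le_exp zero_le_one
    refine ⟨5 / 3 * Real.exp 1, by nlinarith, fun A => ⟨2 * max A 0, fun h a hh hM hA ha1 => ?_⟩⟩
    set A' := max A 0 with hA'
    have hA0 : 0 ≤ A' := le_max_right _ _
    have ha : 0 < a := (Real.exp_pos _).trans_le hA
    have hy : 0 ≤ -Real.log a := by
      have := Real.log_nonpos ha.le ha1
      linarith
    have hyA : -Real.log a ≤ A' := by
      have : -A ≤ Real.log a := (Real.le_log_iff_exp_le ha).2 hA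
      exact (by linarith : -Real.log a ≤ A).trans (le_max_left _ _)
    have h2 : |dd (Real.log h - -Real.log a) - dd (Real.log h)| ≤ A' := by
      refine (hd.1 _ _).trans ?_
      rw [show Real.log h - -Real.log a - Real.log h = -(-Real.log a) by ring, abs_neg,
        abs_of_nonneg hy]
      exact hyA
    have hD : 2 * A' ≤ dd (Real.log h) := hM
    have h3 := abs_log_sub_le (m := 1 + A') (by linarith)
      (u := dd (Real.log h - -Real.log a)) (v := dd (Real.log h))
      (by
        have := (abs_le.1 h2).1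
        linarith)
      (by linarith) h2
    have h4 : A' / (1 + A') ≤ 1 := (div_le_one (by linarith)).2 (by linarith)
    have h5 := hv.2.1 (dd (Real.log h - -Real.log a)) (dd (Real.log h)) (hd.2.1 _) (hd.2.1 _)
    have h7 : |ww (Real.log (a * h)) - ww (Real.log h)| ≤ 1 := by
      rw [logmul hh ha]
      unfold ww
      linarith
    rw [abs_le] at h7
    constructor
    · have := up hp (C := Real.exp 1) (G := 1) hh ha
        (Real.exp_pos _).le zero_le_one (by
          rw [mul_one, ← Real.exp_add]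
          exact Real.exp_le_exp.2 (by linarith [h7.2]))
      refine this.trans (le_of_eq ?_)
      ring
    · have := dn hp (C := Real.exp 1) (G := 1) hh ha
        (Real.exp_pos _).le zero_le_one (by
          rw [one_mul, ← Real.exp_add]
          exact Real.exp_le_exp.2 (by linarith [h7.1]))
      rw [mul_one] at this
      exact this
  · intro H
    obtain ⟨k, hk⟩ := pow_unbounded_of_one_lt H (by norm_num : (1:ℝ) < 4)
    refine ⟨Real.exp (4 ^ (k + 1)), ?_, Real.exp_pos _, ?_⟩
    · have h1 : (4:ℝ) ^ k ≤ 4 ^ (k + 1) := pow_le_pow_right₀ (by norm_num) (by omega)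
      have h2 := Real.add_one_le_exp ((4:ℝ) ^ (k + 1))
      linarith
    · unfold D0
      rw [Real.log_exp, hd.2.2.1 k]

end Pool.Agent.T6.H48.KP
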