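import Pool.Agent.T6.H48.KP.Defs

/-!
Project KP, module EXTB: extraction of weakly Cauchy subsequences of bounded functions.
-/

namespace Pool.Agent.T6.H48.KP

open MeasureTheory Set Filter Topology
open scoped ENNReal

namespace ModEXTB

/-- equicontinuous pointwise bounded functions on a separable space have a pointwise Cauchy
subsequence -/
theorem diag {X : Type*} [PseudoMetricSpace X] [TopologicalSpace.SeparableSpace X] [Nonempty X]
    (L : ℕ → X → ℝ) (K : ℝ) (hK : 0 ≤ K) (hb : ∀ x, ∃ C, ∀ n, |L n x| ≤ C)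
    (hl : ∀ n x y, |L n x - L n y| ≤ K * dist x y) :
    ∃ κ : ℕ → ℕ, StrictMono κ ∧ ∀ x, CauchySeq fun n => L (κ n) x := by
  choose C hC using hb
  set d := TopologicalSpace.denseSeq X with hd
  have hcomp : IsCompact (Set.pi univ fun j : ℕ => Icc (-(C (d j))) (C (d j))) :=
    isCompact_univ_pi fun j => isCompact_Icc
  obtain ⟨a, -, κ, hκ, hlim⟩ := hcomp.tendsto_subseq (x := fun n j => L n (d j))
    (fun n => fun j _ => ⟨(abs_le.1 (hC (d j) n)).1, (abs_le.1 (hC (d j) n)).2⟩)
  refine ⟨κ, hκ, fun x => ?_⟩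
  rw [tendsto_pi_nhds] at hlim
  rw [Metric.cauchySeq_iff']
  intro e he
  have he' : 0 < e / (3 * (K + 1)) := by positivity
  obtain ⟨j, hj⟩ := (TopologicalSpace.denseRange_denseSeq X).exists_dist_lt x he'
  have hcau := (hlim j).cauchySeq
  rw [Metric.cauchySeq_iff'] at hcau
  obtain ⟨N, hN⟩ := hcau (e / 3) (by positivity)
  refine ⟨N, fun n hn => ?_⟩
  have h1 := hN n hn
  simp only [Function.comp, Real.dist_eq] at h1
  rw [Real.dist_eq]
  have h2 := hl (κ n) x (d j)
  have h3 := hl (κ N) x (d j)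
  have h4 : K * dist x (d j) ≤ e / 3 := by
    have : K * dist x (d j) ≤ (K + 1) * (e / (3 * (K + 1))) := by
      have := hj.le
      gcongr
      linarith
    refine this.trans (le_of_eq ?_)
    field_simp
  have h5 : L (κ n) x - L (κ N) x = (L (κ n) x - L (κ n) (d j)) + (L (κ n) (d j) - L (κ N) (d j))
      - (L (κ N) x - L (κ N) (d j)) := by ring
  rw [h5]
  have h6 : |L (κ n) (d j) - L (κ N) (d j)| < e / 3 := h1
  have := abs_sub (( L (κ n) x - L (κ n) (d j)) + (L (κ n) (d j) - L (κ N) (d j)))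
    (L (κ N) x - L (κ N) (d j))
  have h7 := abs_add_le (L (κ n) x - L (κ n) (d j)) (L (κ n) (d j) - L (κ N) (d j))
  linarith

end ModEXTB

open ModEXTB in
theorem mEXTB : StmEXTB := by
  intro g B hg hB
  have _i1 : Fact ((1 : ℝ≥0∞) ≠ ∞) := ⟨by norm_num⟩
  have hB0 : 0 ≤ B := (abs_nonneg _).trans (hB 0 0)
  have hint : ∀ n (h : ℝ → ℝ), Integrable h mu → Integrable (fun x => g n x * h x) mu := by
    intro n h hh
    refine hh.bdd_mul (c := B) (hg n).aestronglyMeasurable (Eventually.of_forall fun x => ?_)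
    rw [Real.norm_eq_abs]
    exact hB n x
  have hbd : ∀ n (h : ℝ → ℝ), Integrable h mu → |∫ x, g n x * h x ∂mu| ≤ B * ∫ x, |h x| ∂mu := by
    intro n h hh
    refine abs_integral_le_integral_abs.trans ?_
    rw [← integral_const_mul]
    refine integral_mono (hint n h hh).abs (hh.abs.const_mul _) fun x => ?_
    simp only [abs_mul]
    exact mul_le_mul_of_nonneg_right (hB n x) (abs_nonneg _)
  have hLi : ∀ h : Lp ℝ 1 mu, Integrable (h : ℝ → ℝ) mu := fun h => L1.integrable_coeFn h
  obtain ⟨κ, hκ, hc⟩ := diag (X := Lp ℝ 1 mu) (fun n h => ∫ x, g n x * h x ∂mu) B hB0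
    (fun h => ⟨_, fun n => hbd n h (hLi h)⟩) (fun n h k => by
      have h1 : ∫ x, g n x * h x ∂mu - ∫ x, g n x * k x ∂mu = ∫ x, g n x * (h x - k x) ∂mu := by
        rw [← integral_sub (hint n _ (hLi h)) (hint n _ (hLi k))]
        refine integral_congr_ae (Eventually.of_forall fun x => ?_)
        simp only
        ring
      rw [h1]
      refine (hbd n _ ((hLi h).sub (hLi k))).trans (le_of_eq ?_)
      congr 1
      rw [L1.dist_eq_integral_dist]
      rfl)
  refine ⟨κ, hκ, fun h hh => ?_⟩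
  have h1 := hc (hh.toL1 h)
  have h2 : (fun n => ∫ x, g (κ n) x * h x ∂mu) =
      fun n => ∫ x, g (κ n) x * (hh.toL1 h : ℝ → ℝ) x ∂mu := by
    funext n
    refine integral_congr_ae ?_
    filter_upwards [hh.coeFn_toL1] with x hx
    rw [hx]
  rw [h2]
  exact h1

end Pool.Agent.T6.H48.KP
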