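import Pool.Agent.T6.H48.KP.Defs

/-!
Project KP, module EXTR: extraction of weakly Cauchy subsequences.
-/

namespace Pool.Agent.T6.H48.KP

open MeasureTheory Set Filter Topology
open scoped ENNReal

namespace ModEXTR

/-- equicontinuous pointwise bounded functions on a separable space have a pointwise Cauchy
subsequence -/
theorem diag {X : Type*} [PseudoMetricSpace X] [TopologicalSpace.SeparableSpace X] [Nonempty X]
    (L : ℕ → X → ℝ) (K : ℝ) (hK : 0 ≤ K) (hb : ∀ x, ∃ C, ∀ n, |L n x| ≤ C)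
    (hl : ∀ n x y, |L n x - L n y| ≤ K * dist x y) :
    ∃ κ : ℕ → ℕ, StrictMono κ ∧ ∀ x, CauchySeq fun n => L (κ n) x := by
  choose C hC using hb
  set d := TopologicalSpace.denseSeq X with hd
  have hcomp : IsCompact (Set.pi univ fun j : ℕ => Icc (-(C (d j))) (C (d j))) :=
    isCompact_univ_pi fun j => isCompact_Icc
  obtain ⟨a, -, κ, hκ, hlim⟩ := hcomp.tendsto_subseq (x := fun n j => L n (d j))
    (fun n => fun j _ => ⟨(abs_le.1 (hC (d j) n)).1, (abs_le.1 (hC (d j) n)).2⟩)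
  refine ⟨κ, hκ, fun x => ?_⟩
  rw [tendsto_pi_nhds] at hlim
  rw [Metric.cauchySeq_iff']
  intro e he
  have he' : 0 < e / (3 * (K + 1)) := by positivity
  obtain ⟨j, hj⟩ := (TopologicalSpace.denseRange_denseSeq X).exists_dist_lt x he'
  have hcau := (hlim j).cauchySeq
  rw [Metric.cauchySeq_iff'] at hcau
  obtain ⟨N, hN⟩ := hcau (e / 3) (by positivity)
  refine ⟨N, fun n hn => ?_⟩
  have h1 := hN n hn
  simp only [Function.comp, Real.dist_eq] at h1
  rw [Real.dist_eq]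
  have h2 := hl (κ n) x (d j)
  have h3 := hl (κ N) x (d j)
  have h4 : K * dist x (d j) ≤ e / 3 := by
    have : K * dist x (d j) ≤ (K + 1) * (e / (3 * (K + 1))) := by
      have := hj.le
      gcongr
      linarith
    refine this.trans (le_of_eq ?_)
    field_simp
  have h5 : L (κ n) x - L (κ N) x = (L (κ n) x - L (κ n) (d j)) + (L (κ n) (d j) - L (κ N) (d j))
      - (L (κ N) x - L (κ N) (d j)) := by ring
  rw [h5]
  have h6 : |L (κ n) (d j) - L (κ N) (d j)| < e / 3 := h1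
  have := abs_sub (( L (κ n) x - L (κ n) (d j)) + (L (κ n) (d j) - L (κ N) (d j)))
    (L (κ N) x - L (κ N) (d j))
  have h7 := abs_add_le (L (κ n) x - L (κ n) (d j)) (L (κ n) (d j) - L (κ N) (d j))
  linarith

end ModEXTR

open ModEXTR in
theorem mEXTR (hH : StmHOLD) : StmEXTR := by
  intro Φ F D hKD f B hB
  obtain ⟨K, hK, -, hH2⟩ := hH Φ F D hKD
  have _i1 : Fact ((3 : ℝ≥0∞) ≠ ∞) := ⟨by norm_num⟩
  have _i2 : Fact ((1 : ℝ≥0∞) ≤ 3) := ⟨by norm_num⟩
  have hB0 : 0 ≤ B := (norm_nonneg _).trans (hB 0)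
  have hmem : ∀ h : Lp ℝ 3 mu, MemLp (h : ℝ → ℝ) 3 mu := fun h => Lp.memLp h
  have hbd : ∀ n (h : ℝ → ℝ), MemLp h 3 mu →
      |∫ x, (f n).fn x * h x ∂mu| ≤ K * B * (eLpNorm h 3 mu).toReal := by
    intro n h hh
    refine (hH2 (f n) h hh).2.trans ?_
    have := hB n
    gcongr
  obtain ⟨κ, hκ, hc⟩ := diag (X := Lp ℝ 3 mu) (fun n h => ∫ x, (f n).fn x * h x ∂mu) (K * B)
    (by positivity)
    (fun h => ⟨_, fun n => hbd n h (hmem h)⟩) (fun n h k => by
      have h1 : ∫ x, (f n).fn x * h x ∂mu - ∫ x, (f n).fn x * k x ∂mu =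
          ∫ x, (f n).fn x * ((h : ℝ → ℝ) - (k : ℝ → ℝ)) x ∂mu := by
        rw [← integral_sub (hH2 (f n) _ (hmem h)).1 (hH2 (f n) _ (hmem k)).1]
        refine integral_congr_ae (Eventually.of_forall fun x => ?_)
        simp only [Pi.sub_apply]
        ring
      rw [h1]
      refine (hbd n _ ((hmem h).sub (hmem k))).trans (le_of_eq ?_)
      congr 1
      rw [Lp.dist_def])
  refine ⟨κ, hκ, fun h hh => ?_⟩
  have h1 := hc (hh.toLp h)
  have h2 : (fun n => ∫ x, (f (κ n)).fn x * h x ∂mu) =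
      fun n => ∫ x, (f (κ n)).fn x * (hh.toLp h : ℝ → ℝ) x ∂mu := by
    funext n
    refine integral_congr_ae ?_
    filter_upwards [hh.coeFn_toLp] with x hx
    rw [hx]
  rw [h2]
  exact h1

end Pool.Agent.T6.H48.KP
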