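import Pool.Agent.T6.H48.KP.Defs

/-!
Project KP (helper48), MP_8301f5_an: module F0G (helper80).
-/

namespace Pool.Agent.T6.H48.KP

open MeasureTheory Set Filter Topology
open scoped ENNReal

namespace ModF0G

theorem log_diff {y y' : ℝ} (h0 : 0 ≤ y) (h : y ≤ y') :
    |Real.log (1 + y') - Real.log (1 + y)| ≤ y' - y := by
  have h1 : 0 < 1 + y := by linarith
  have h2 : 0 < 1 + y' := by linarith
  have h3 : Real.log (1 + y) ≤ Real.log (1 + y') := Real.log_le_log h1 (by linarith)
  rw [abs_of_nonneg (by linarith), ← Real.log_div h2.ne' h1.ne']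
  have h4 := Real.log_le_sub_one_of_pos (div_pos h2 h1)
  have h5 : (1 + y') / (1 + y) - 1 = (y' - y) / (1 + y) := by
    field_simp
    ring
  rw [h5] at h4
  refine h4.trans ?_
  exact div_le_self (by linarith) (by linarith)

theorem vv_diff (hv : StmVV) {y y' : ℝ} (h0 : 0 ≤ y) (h : y ≤ y') :
    |vv y' - vv y| ≤ 1 / 2 * (y' - y) := by
  have h1 := hv.2.1 y' y (h0.trans h) h0
  have h2 := log_diff h0 h
  linarith

theorem growth (hv : StmVV) : GrowthFn F0 where
  zero := by simp [F0]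
  nonneg a := by unfold F0; positivity
  big a ha := by
    unfold F0
    have h1 : 0 ≤ Real.log a := Real.log_nonneg ha
    rw [max_eq_left (by linarith), hv.1, Real.exp_zero, mul_one]
  growth l a hl hl1 ha := by
    rcases eq_or_lt_of_le ha with h0 | h0
    · rw [← h0, mul_zero]
      simp [F0]
    · obtain ⟨y, hy⟩ : ∃ y, y = max 0 (-Real.log a) := ⟨_, rfl⟩
      obtain ⟨y', hy'⟩ : ∃ y', y' = max 0 (-Real.log (l * a)) := ⟨_, rfl⟩
      have hll : Real.log l ≤ 0 := Real.log_nonpos hl.le hl1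
      have hla : Real.log (l * a) = Real.log l + Real.log a := Real.log_mul hl.ne' h0.ne'
      have hy0 : 0 ≤ y := by rw [hy]; exact le_max_left _ _
      have hyy : y ≤ y' := by
        rw [hy, hy', hla]
        apply max_le_max le_rfl
        linarith
      have hyy2 : y' - y ≤ -Real.log l := by
        rw [hy', hla]
        have h1 : max 0 (-(Real.log l + Real.log a)) ≤ -Real.log l + y := by
          apply max_le
          · linarith
          · have : -Real.log a ≤ y := by rw [hy]; exact le_max_right _ _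
            linarith
        linarith
      have hd := abs_le.1 (vv_diff hv hy0 hyy)
      have hF : F0 (l * a) = Real.exp (2 * Real.log l + vv y') * a ^ 2 := by
        unfold F0
        rw [← hy', Real.exp_add, mul_pow]
        have : Real.exp (2 * Real.log l) = l ^ 2 := by
          rw [two_mul, Real.exp_add, Real.exp_log hl]
          ring
        rw [this]
        ring
      have hp : ∀ r : ℝ, l ^ r * F0 a = Real.exp (Real.log l * r + vv y) * a ^ 2 := by
        intro r
        unfold F0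
        rw [← hy, Real.exp_add, Real.rpow_def_of_pos hl]
        ring
      rw [hF, hp, hp]
      constructor
      · apply mul_le_mul_of_nonneg_right _ (by positivity)
        apply Real.exp_le_exp.2
        linarith [hd.2]
      · apply mul_le_mul_of_nonneg_right _ (by positivity)
        apply Real.exp_le_exp.2
        linarith [hd.1]

/-- choice of `N` -/
theorem exists_N {c y : ℝ} (hc : 0 < c) (h : 1 ≤ c ^ 2 * Real.exp y ^ 2) :
    ∃ N : ℕ, 0 < N ∧ y ≤ Real.log (√(N : ℝ) / c) ∧ Real.log (√(N : ℝ) / c) ≤ y + 1 := by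
  obtain ⟨X, hX⟩ : ∃ X, X = c ^ 2 * Real.exp y ^ 2 := ⟨_, rfl⟩
  rw [← hX] at h
  refine ⟨⌈X⌉₊, Nat.ceil_pos.2 (by linarith), ?_, ?_⟩
  · have h1 : X ≤ (⌈X⌉₊ : ℝ) := Nat.le_ceil X
    have h2 : c * Real.exp y ≤ √(⌈X⌉₊ : ℝ) := by
      apply Real.le_sqrt_of_sq_le
      rw [mul_pow, ← hX]
      exact h1
    rw [Real.le_log_iff_exp_le (by positivity), le_div_iff₀ hc]
    linarith
  · have h1 : (⌈X⌉₊ : ℝ) < X + 1 := Nat.ceil_lt_add_one (by linarith)
    have h2 : √(⌈X⌉₊ : ℝ) ≤ c * Real.exp (y + 1) := by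
      rw [Real.sqrt_le_left (by positivity)]
      have h3 : (2:ℝ) ≤ Real.exp 1 := by
        have := Real.add_one_le_exp (1:ℝ)
        linarith
      have h4 : (c * Real.exp (y + 1)) ^ 2 = X * Real.exp 1 ^ 2 := by
        rw [Real.exp_add, hX]
        ring
      rw [h4]
      have h5 : (2:ℝ) ≤ Real.exp 1 ^ 2 := by nlinarith
      nlinarith
    have hN : (0:ℝ) < (⌈X⌉₊ : ℝ) := by
      have := Nat.le_ceil X
      linarith
    rw [Real.log_le_iff_le_exp (by positivity), div_le_iff₀ hc]
    linarith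

/-- value of `N F0 (c / √N)` -/
theorem value {c : ℝ} {N : ℕ} (hc : 0 < c) (hN : 0 < N) (hL : 0 ≤ Real.log (√(N : ℝ) / c)) :
    (N : ℝ) * F0 (c / √(N : ℝ)) = c ^ 2 * Real.exp (vv (Real.log (√(N : ℝ) / c))) := by
  unfold F0
  have hN' : (0:ℝ) < N := by exact_mod_cast hN
  have h1 : -Real.log (c / √(N : ℝ)) = Real.log (√(N : ℝ) / c) := by
    rw [← Real.log_inv, inv_div]
  rw [h1, max_eq_right hL, div_pow, Real.sq_sqrt hN'.le]
  field_simp

end ModF0G

open ModF0G

theorem mF0G (hv : StmVV) : StmF0G := by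
  refine ⟨growth hv, ?_, ?_⟩
  · intro K hK
    have hK0 : 0 < K := by linarith
    obtain ⟨y, hy1, hy0, hy2⟩ := hv.2.2.1 (3 * Real.log K + 2) (Real.log K)
    have hc : 0 < K⁻¹ := inv_pos.2 hK0
    have hexp : K ≤ Real.exp y := by
      have := Real.exp_le_exp.2 hy1
      rwa [Real.exp_log hK0] at this
    have h1 : 1 ≤ K⁻¹ ^ 2 * Real.exp y ^ 2 := by
      rw [← mul_pow]
      apply one_le_pow₀
      rw [inv_mul_eq_div, one_le_div hK0]
      exact hexp
    obtain ⟨N, hN, hN1, hN2⟩ := exists_N hc h1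
    refine ⟨N, hN, ?_⟩
    have e1 : 1 / (K * √(N : ℝ)) = K⁻¹ / √(N : ℝ) := by
      rw [one_div, mul_inv, div_eq_mul_inv]
    rw [e1, value hc hN (hy0.trans hN1)]
    have h2 := abs_le.1 (vv_diff hv hy0 hN1)
    have h3 : 3 * Real.log K + 1 ≤ vv (Real.log (√(N : ℝ) / K⁻¹)) := by linarith [h2.1]
    have h4 := Real.exp_le_exp.2 h3
    have h5 : Real.exp (3 * Real.log K + 1) = K ^ 3 * Real.exp 1 := by
      rw [Real.exp_add]
      congr 1
      rw [show (3 : ℝ) * Real.log K = Real.log K + Real.log K + Real.log K by ring, Real.exp_add,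
        Real.exp_add, Real.exp_log hK0]
      ring
    rw [h5] at h4
    have h6 : K⁻¹ ^ 2 * (K ^ 3 * Real.exp 1) = K * Real.exp 1 := by
      field_simp
    have h7 : (2:ℝ) ≤ Real.exp 1 := by
      have := Real.add_one_le_exp (1:ℝ)
      linarith
    calc K < K * Real.exp 1 := by nlinarith
      _ = K⁻¹ ^ 2 * (K ^ 3 * Real.exp 1) := h6.symm
      _ ≤ K⁻¹ ^ 2 * Real.exp (vv (Real.log (√(N : ℝ) / K⁻¹))) := by
        apply mul_le_mul_of_nonneg_left h4
        positivity
  · intro K hK
    have hK0 : 0 < K := by linarith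
    obtain ⟨y, hy1, hy0, hy2⟩ := hv.2.2.2 (2 * Real.log K + 2) 0
    have h1 : 1 ≤ K ^ 2 * Real.exp y ^ 2 := by
      rw [← mul_pow]
      apply one_le_pow₀
      have : 1 ≤ Real.exp y := Real.one_le_exp hy0
      nlinarith
    obtain ⟨N, hN, hN1, hN2⟩ := exists_N hK0 h1
    refine ⟨N, hN, ?_⟩
    rw [value hK0 hN (hy0.trans hN1)]
    have h2 := abs_le.1 (vv_diff hv hy0 hN1)
    have h3 : vv (Real.log (√(N : ℝ) / K)) ≤ -(2 * Real.log K) := by linarith [h2.2]
    have h4 := Real.exp_le_exp.2 h3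
    have h5 : Real.exp (-(2 * Real.log K)) = (K ^ 2)⁻¹ := by
      rw [Real.exp_neg, two_mul, Real.exp_add, Real.exp_log hK0]
      congr 1
      ring
    rw [h5] at h4
    calc K ^ 2 * Real.exp (vv (Real.log (√(N : ℝ) / K))) ≤ K ^ 2 * (K ^ 2)⁻¹ := by
          apply mul_le_mul_of_nonneg_left h4
          positivity
      _ = 1 := mul_inv_cancel₀ (by positivity)

end Pool.Agent.T6.H48.KP
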