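import Pool.Agent.T6.H48.KP.MODN

/-!
Project KP, module FOUR (helper82): the embedding of `L^4`.
-/

set_option autoImplicit false

namespace Pool.Agent.T6.H48.KP

open MeasureTheory Set Filter Topology
open scoped ENNReal

theorem mFOUR : StmFOUR := by
  intro Φ F D hD
  obtain ⟨K, hK1, hK⟩ := hD.growth
  have hK0 : 0 < K := by linarith
  have h1pos : 0 < Φ.φ 1 := hD.pos 1 one_pos
  set C : ℝ := K * Φ.φ 1 with hC
  have hC0 : 0 < C := by positivity
  have hphi : ∀ t : ℝ, 0 ≤ t → Φ.φ t ≤ C * (1 + t ^ 4) := by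
    intro t ht
    rcases le_total t 1 with h | h
    · have h2 : Φ.φ t ≤ Φ.φ 1 := Φ.mono ht h
      have h3 : 0 ≤ t ^ 4 := by positivity
      nlinarith [mul_nonneg hC0.le h3, mul_nonneg (by linarith : 0 ≤ K - 1) h1pos.le]
    · have ht0 : 0 < t := by linarith
      have h2 := (hK t t⁻¹ ht0 (by positivity) (inv_le_one_of_one_le₀ h)).2
      rw [inv_mul_cancel₀ ht0.ne', Real.inv_rpow ht0.le, inv_mul_le_iff₀
        (Real.rpow_pos_of_pos ht0 _)] at h2
      have h3 : t ^ (5 / 2 : ℝ) ≤ t ^ 4 := by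
        rw [← Real.rpow_natCast t 4]
        exact Real.rpow_le_rpow_of_exponent_le h (by norm_num)
      calc Φ.φ t ≤ t ^ (5 / 2 : ℝ) * (K * Φ.φ 1) := h2
        _ ≤ t ^ 4 * (K * Φ.φ 1) := by gcongr
        _ ≤ C * (1 + t ^ 4) := by rw [← hC]; nlinarith
  refine ⟨max 1 (2 * C), lt_of_lt_of_le one_pos (le_max_left _ _), fun f B hB hf => ?_⟩
  rw [mul_comm]
  refine ModMODN.norm_le_of_I hB (le_max_left _ _) ?_
  have hmeas : Measurable fun x => ENNReal.ofReal (f.fn x ^ 4) :=
    (f.fn_meas.pow_const 4).ennreal_ofReal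
  unfold OrliczFun.I
  calc ∫⁻ x, ENNReal.ofReal (Φ.φ |B⁻¹ * f.fn x|) ∂mu
      ≤ ∫⁻ x, (ENNReal.ofReal C + ENNReal.ofReal (C * (B⁻¹) ^ 4) * ENNReal.ofReal (f.fn x ^ 4))
          ∂mu := by
        refine lintegral_mono fun x => ?_
        have h4 : 0 ≤ f.fn x ^ 4 := by positivity
        rw [← ENNReal.ofReal_mul (by positivity), ← ENNReal.ofReal_add hC0.le (by positivity)]
        apply ENNReal.ofReal_le_ofReal
        refine (hphi _ (abs_nonneg _)).trans (le_of_eq ?_)
        have : |B⁻¹ * f.fn x| ^ 4 = (B⁻¹) ^ 4 * f.fn x ^ 4 := by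
          rw [← abs_pow, mul_pow, abs_of_nonneg (by positivity)]
        rw [this]
        ring
    _ = ENNReal.ofReal C * mu univ +
          ENNReal.ofReal (C * (B⁻¹) ^ 4) * ∫⁻ x, ENNReal.ofReal (f.fn x ^ 4) ∂mu := by
        rw [lintegral_add_left measurable_const, lintegral_const,
          lintegral_const_mul _ hmeas]
    _ ≤ ENNReal.ofReal C * 1 + ENNReal.ofReal (C * (B⁻¹) ^ 4) * ENNReal.ofReal (B ^ 4) := by
        have hmu : mu univ = 1 := by
          simp [mu]
        rw [hmu]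
        gcongr
    _ = ENNReal.ofReal (2 * C) := by
        rw [mul_one, ← ENNReal.ofReal_mul (by positivity), ← ENNReal.ofReal_add hC0.le
          (by positivity)]
        congr 1
        have : C * B⁻¹ ^ 4 * B ^ 4 = C := by field_simp
        rw [this]
        ring
    _ ≤ ENNReal.ofReal (max 1 (2 * C)) := ENNReal.ofReal_le_ofReal (le_max_right _ _)

end Pool.Agent.T6.H48.KP
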