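import Pool.Agent.T6.H48.KP.Defs

/-!
Project KP, module HOLD: duality of `L_φ` with `L^3`.
-/

namespace Pool.Agent.T6.H48.KP

open MeasureTheory Set Filter Topology
open scoped ENNReal

namespace ModHOLD

instance muProb : IsProbabilityMeasure mu := ⟨by
  rw [Measure.restrict_apply_univ, Real.volume_Icc]; norm_num⟩

theorem toReal32 : (3 / 2 : ℝ≥0∞).toReal = 3 / 2 := by
  rw [ENNReal.toReal_div]; norm_num

theorem one_le32 : (1 : ℝ≥0∞) ≤ 3 / 2 := by
  rw [ENNReal.le_div_iff_mul_le (by norm_num) (by norm_num)]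
  norm_num

instance holder : ENNReal.HolderTriple (3 / 2) 3 1 where
  inv_add_inv_eq_inv := by
    rw [ENNReal.inv_div (by norm_num) (by norm_num), inv_one, ← one_div (3 : ℝ≥0∞),
      ENNReal.div_add_div_same]
    rw [show (2 : ℝ≥0∞) + 1 = 3 by norm_num]
    exact ENNReal.div_self (by norm_num) (by norm_num)

variable {Φ : OrliczFun} {F D : ℝ → ℝ}

theorem pow_le (h : KD Φ F D) : ∃ c : ℝ, 0 ≤ c ∧ ∀ t : ℝ, 0 ≤ t →
    t ^ (3 / 2 : ℝ) ≤ 1 + c * Φ.φ t := by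
  obtain ⟨K, hK, hg⟩ := h.growth
  have h1 : 0 < Φ.φ 1 := h.pos 1 one_pos
  refine ⟨K / Φ.φ 1, by positivity, fun t ht => ?_⟩
  have hφ : 0 ≤ Φ.φ t := Φ.nonneg ht
  rcases le_total t 1 with ht1 | ht1
  · have : t ^ (3 / 2 : ℝ) ≤ 1 := Real.rpow_le_one ht ht1 (by norm_num)
    have h2 : 0 ≤ K / Φ.φ 1 * Φ.φ t := by positivity
    linarith
  · have ht0 : 0 < t := by linarith
    have h2 := (hg t (1 / t) ht0 (by positivity) ((div_le_one ht0).2 ht1)).1
    rw [one_div_mul_cancel ht0.ne', one_div, Real.inv_rpow ht] at h2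
    have h3 : 0 < t ^ (3 / 2 : ℝ) := Real.rpow_pos_of_pos ht0 _
    have h4 : t ^ (3 / 2 : ℝ) * Φ.φ 1 ≤ K * Φ.φ t := by
      have := mul_le_mul_of_nonneg_left h2 h3.le
      calc t ^ (3 / 2 : ℝ) * Φ.φ 1 ≤ t ^ (3 / 2 : ℝ) * (K * (t ^ (3 / 2 : ℝ))⁻¹ * Φ.φ t) := this
        _ = K * Φ.φ t := by field_simp
    have h5 : t ^ (3 / 2 : ℝ) ≤ K / Φ.φ 1 * Φ.φ t := by
      rw [div_mul_eq_mul_div, le_div_iff₀ h1]
      exact h4
    linarith

theorem eLp_le (h : KD Φ F D) : ∃ K : ℝ, 1 ≤ K ∧ ∀ f : LPhi Φ,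
    eLpNorm f.fn (3 / 2) mu ≤ ENNReal.ofReal (K * ‖f‖) := by
  obtain ⟨c, hc, hp⟩ := pow_le h
  refine ⟨1 + c, by linarith, fun f => ?_⟩
  by_cases hf : ‖f‖ = 0
  · have h0 : f = 0 := LPhi.eq_zero_of_norm hf
    subst h0
    have : eLpNorm (0 : LPhi Φ).fn (3 / 2) mu = 0 := by
      rw [eLpNorm_congr_ae (g := fun _ => (0:ℝ)) LPhi.fn_zero]
      simp
    rw [this]
    exact zero_le
  have hs : 0 < ‖f‖ := lt_of_le_of_ne (norm_nonneg _) (Ne.symm hf)
  have hI := (LPhi.norm_le_iff f hs).1 le_rfl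
  set s := ‖f‖ with hsdef
  have h1 : ∫⁻ x, ENNReal.ofReal (|s⁻¹ * f.fn x| ^ (3 / 2 : ℝ)) ∂mu ≤ ENNReal.ofReal (1 + c) := by
    calc ∫⁻ x, ENNReal.ofReal (|s⁻¹ * f.fn x| ^ (3 / 2 : ℝ)) ∂mu
        ≤ ∫⁻ x, (1 + ENNReal.ofReal c * ENNReal.ofReal (Φ.φ |s⁻¹ * f.fn x|)) ∂mu := by
          refine lintegral_mono fun x => ?_
          rw [← ENNReal.ofReal_mul hc, ← ENNReal.ofReal_one,
            ← ENNReal.ofReal_add zero_le_one (mul_nonneg hc (Φ.nonneg (abs_nonneg _)))]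
          exact ENNReal.ofReal_le_ofReal (hp _ (abs_nonneg _))
      _ = 1 + ENNReal.ofReal c * Φ.I (fun x => s⁻¹ * f.fn x) := by
          rw [lintegral_add_left measurable_const, lintegral_const,
            lintegral_const_mul' _ _ ENNReal.ofReal_ne_top, measure_univ, mul_one]
          rfl
      _ ≤ 1 + ENNReal.ofReal c * 1 := by gcongr
      _ = ENNReal.ofReal (1 + c) := by
          rw [mul_one, ENNReal.ofReal_add zero_le_one hc, ENNReal.ofReal_one]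
  have h2 : eLpNorm (fun x => s⁻¹ * f.fn x) (3 / 2) mu ≤ ENNReal.ofReal (1 + c) := by
    rw [eLpNorm_eq_lintegral_rpow_enorm_toReal (by norm_num)
      (ENNReal.div_ne_top (by norm_num) (by norm_num)), toReal32]
    have h3 : ∫⁻ x, ‖s⁻¹ * f.fn x‖ₑ ^ (3 / 2 : ℝ) ∂mu ≤ ENNReal.ofReal (1 + c) := by
      refine le_trans (le_of_eq (lintegral_congr fun x => ?_)) h1
      rw [Real.enorm_eq_ofReal_abs, ENNReal.ofReal_rpow_of_nonneg (abs_nonneg _) (by norm_num)]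
    calc (∫⁻ x, ‖s⁻¹ * f.fn x‖ₑ ^ (3 / 2 : ℝ) ∂mu) ^ (1 / (3 / 2 : ℝ))
        ≤ (ENNReal.ofReal (1 + c)) ^ (1 / (3 / 2 : ℝ)) :=
          ENNReal.rpow_le_rpow h3 (by norm_num)
      _ ≤ (ENNReal.ofReal (1 + c)) ^ (1 : ℝ) := by
          refine ENNReal.rpow_le_rpow_of_exponent_le ?_ (by norm_num)
          rw [← ENNReal.ofReal_one]
          exact ENNReal.ofReal_le_ofReal (by linarith)
      _ = ENNReal.ofReal (1 + c) := ENNReal.rpow_one _
  have h4 : f.fn = s • fun x => s⁻¹ * f.fn x := by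
    ext x
    rw [Pi.smul_apply, smul_eq_mul, mul_inv_cancel_left₀ hs.ne']
  rw [h4, eLpNorm_const_smul, Real.enorm_eq_ofReal_abs, abs_of_pos hs, mul_comm (1 + c),
    ENNReal.ofReal_mul hs.le]
  gcongr

end ModHOLD

open ModHOLD in
theorem mHOLD : StmHOLD := by
  intro Φ F D h
  obtain ⟨K, hK, hf⟩ := eLp_le h
  have hmem : ∀ f : LPhi Φ, MemLp f.fn (3 / 2) mu := fun f =>
    ⟨f.fn_meas.aestronglyMeasurable, (hf f).trans_lt ENNReal.ofReal_lt_top⟩
  refine ⟨K, by linarith, fun f => ⟨hf f, (hmem f).integrable one_le32, ?_⟩, fun f g hg => ?_⟩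
  · have h1 : ∫ x, |f.fn x| ∂mu = (eLpNorm f.fn 1 mu).toReal := by
      have := integral_norm_eq_lintegral_enorm (μ := mu) f.fn_meas.aestronglyMeasurable
      rw [eLpNorm_one_eq_lintegral_enorm]
      simpa [Real.norm_eq_abs] using this
    rw [h1]
    have h2 : eLpNorm f.fn 1 mu ≤ ENNReal.ofReal (K * ‖f‖) :=
      (eLpNorm_le_eLpNorm_of_exponent_le one_le32 f.fn_meas.aestronglyMeasurable).trans (hf f)
    exact ENNReal.toReal_le_of_le_ofReal (mul_nonneg (by linarith) (norm_nonneg _)) h2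
  · have hint : Integrable (fun x => f.fn x * g x) mu := (hmem f).integrable_mul hg
    refine ⟨hint, ?_⟩
    have h1 : |∫ x, f.fn x * g x ∂mu| ≤ (eLpNorm (fun x => f.fn x * g x) 1 mu).toReal := by
      refine (abs_integral_le_integral_abs).trans (le_of_eq ?_)
      have := integral_norm_eq_lintegral_enorm (μ := mu) hint.aestronglyMeasurable
      rw [eLpNorm_one_eq_lintegral_enorm]
      simpa [Real.norm_eq_abs] using this
    have h2 : eLpNorm (fun x => f.fn x * g x) 1 mu ≤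
        ENNReal.ofReal (K * ‖f‖) * eLpNorm g 3 mu := by
      have h3 := eLpNorm_smul_le_mul_eLpNorm (p := 3 / 2) (q := 3) (r := 1) (μ := mu)
        hg.aestronglyMeasurable f.fn_meas.aestronglyMeasurable
      refine le_trans (le_of_eq ?_) (h3.trans (mul_le_mul_left (hf f) _))
      rfl
    have h4 : (ENNReal.ofReal (K * ‖f‖) * eLpNorm g 3 mu).toReal =
        K * ‖f‖ * (eLpNorm g 3 mu).toReal := by
      rw [ENNReal.toReal_mul, ENNReal.toReal_ofReal (mul_nonneg (by linarith) (norm_nonneg _))]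
    rw [← h4]
    exact h1.trans (ENNReal.toReal_mono (ENNReal.mul_ne_top ENNReal.ofReal_ne_top
      hg.eLpNorm_ne_top) h2)

end Pool.Agent.T6.H48.KP
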