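import Pool.Agent.T6.H48.KP.Defs

/-! Module ISOM (helper24): upper and lower estimates give an isomorphism. -/

set_option autoImplicit false

namespace Pool.Agent.T6.H48.KP

open MeasureTheory Set Filter Topology
open scoped ENNReal

namespace ModISOM

variable {E : Type} [NormedAddCommGroup E] [NormedSpace ℝ E] {Ξ : ℝ → ℝ} {T : E →L[ℝ] E}
  {y : ℕ → E}

theorem map_sum' (T : E →L[ℝ] E) (y : ℕ → E) (s : Finset ℕ) (a : ℕ → ℝ) :
    T (∑ k ∈ s, a k • y k) = ∑ k ∈ s, a k • T (y k) := by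
  rw [map_sum]
  exact Finset.sum_congr rfl fun k _ => map_smul T _ _

theorem bound (hΞ : GrowthFn Ξ) (hu : Upper Ξ y) (hl : Lower Ξ (fun k => T (y k))) :
    ∃ K : ℝ, 0 < K ∧ ∀ (s : Finset ℕ) (a : ℕ → ℝ),
      ‖∑ k ∈ s, a k • y k‖ ≤ K * ‖T (∑ k ∈ s, a k • y k)‖ := by
  obtain ⟨K1, hK1, h1⟩ := hu
  obtain ⟨K2, hK2, h2⟩ := hl
  obtain ⟨l, hl0, hl1, hl2⟩ : ∃ l : ℝ, 0 < l ∧ l ≤ 1 ∧ l ^ (3 / 2 : ℝ) * K2 ≤ 1 := by
    refine ⟨min 1 (1 / K2), lt_min one_pos (by positivity), min_le_left _ _, ?_⟩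
    have h3 : (min 1 (1 / K2)) ^ (3 / 2 : ℝ) ≤ (min 1 (1 / K2)) ^ (1 : ℝ) :=
      Real.rpow_le_rpow_of_exponent_ge (lt_min one_pos (by positivity)) (min_le_left _ _)
        (by norm_num)
    rw [Real.rpow_one] at h3
    calc (min 1 (1 / K2)) ^ (3 / 2 : ℝ) * K2 ≤ (1 / K2) * K2 :=
          mul_le_mul_of_nonneg_right (h3.trans (min_le_right _ _)) hK2.le
      _ = 1 := by field_simp
  -- scaled estimate
  have key : ∀ (s : Finset ℕ) (a : ℕ → ℝ), ‖T (∑ k ∈ s, a k • y k)‖ ≤ 1 →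
      ‖∑ k ∈ s, a k • y k‖ ≤ K1 / l := by
    intro s a h
    rw [map_sum'] at h
    have h3 := h2 s a h
    have h4 : ∑ k ∈ s, Ξ |l * a k| ≤ 1 := by
      calc ∑ k ∈ s, Ξ |l * a k| ≤ ∑ k ∈ s, l ^ (3 / 2 : ℝ) * Ξ |a k| := by
            apply Finset.sum_le_sum
            intro k _
            rw [abs_mul, abs_of_pos hl0]
            exact (hΞ.growth l |a k| hl0 hl1 (abs_nonneg _)).1
        _ = l ^ (3 / 2 : ℝ) * ∑ k ∈ s, Ξ |a k| := by rw [Finset.mul_sum]
        _ ≤ l ^ (3 / 2 : ℝ) * K2 := mul_le_mul_of_nonneg_left h3 (by positivity)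
        _ ≤ 1 := hl2
    have h5 := h1 s (fun k => l * a k) h4
    have h6 : ∑ k ∈ s, (l * a k) • y k = l • ∑ k ∈ s, a k • y k := by
      rw [Finset.smul_sum]
      exact Finset.sum_congr rfl fun k _ => mul_smul _ _ _
    rw [h6, norm_smul, Real.norm_eq_abs, abs_of_pos hl0] at h5
    rw [le_div_iff₀ hl0, mul_comm]
    exact h5
  have key2 : ∀ (s : Finset ℕ) (a : ℕ → ℝ) (c : ℝ), 0 ≤ c →
      c * ‖T (∑ k ∈ s, a k • y k)‖ ≤ 1 → c * ‖∑ k ∈ s, a k • y k‖ ≤ K1 / l := by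
    intro s a c hc h
    have h6 : ∑ k ∈ s, (c * a k) • y k = c • ∑ k ∈ s, a k • y k := by
      rw [Finset.smul_sum]
      exact Finset.sum_congr rfl fun k _ => mul_smul _ _ _
    have h7 := key s (fun k => c * a k)
    rw [h6, map_smul, norm_smul, norm_smul, Real.norm_eq_abs, abs_of_nonneg hc] at h7
    exact h7 h
  have hKl : 0 < K1 / l := by positivity
  refine ⟨K1 / l, hKl, fun s a => ?_⟩
  rcases (norm_nonneg (T (∑ k ∈ s, a k • y k))).eq_or_lt with h0 | h0
  · rw [← h0, mul_zero]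
    by_contra hcon
    push Not at hcon
    have := key2 s a ((K1 / l + 1) / ‖∑ k ∈ s, a k • y k‖) (by positivity) (by
      rw [← h0, mul_zero]; exact zero_le_one)
    rw [div_mul_cancel₀ _ hcon.ne'] at this
    linarith
  · have := key2 s a (1 / ‖T (∑ k ∈ s, a k • y k)‖) (by positivity) (by
      rw [one_div, inv_mul_cancel₀ h0.ne'])
    rw [one_div, inv_mul_le_iff₀ h0] at this
    linarith

theorem indep (hΞ : GrowthFn Ξ) (hl : Lower Ξ (fun k => T (y k))) : LinearIndependent ℝ y := by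
  obtain ⟨K2, hK2, h2⟩ := hl
  rw [linearIndependent_iff']
  intro s a h i hi
  by_contra hne
  have h3 : ∀ c : ℝ, ∑ k ∈ s, Ξ |c * a k| ≤ K2 := by
    intro c
    apply h2 s (fun k => c * a k)
    have h6 : ∑ k ∈ s, (c * a k) • T (y k) = T (c • ∑ k ∈ s, a k • y k) := by
      rw [map_smul, map_sum', Finset.smul_sum]
      exact Finset.sum_congr rfl fun k _ => mul_smul _ _ _
    show ‖∑ k ∈ s, (c * a k) • T (y k)‖ ≤ 1
    rw [h6, h, smul_zero, map_zero, norm_zero]
    exact zero_le_one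
  have h4 : ∀ c : ℝ, Ξ |c * a i| ≤ K2 := by
    intro c
    exact (Finset.single_le_sum (f := fun k => Ξ |c * a k|) (fun k _ => hΞ.nonneg _) hi).trans
      (h3 c)
  have h5 := h4 ((K2 + 1) / a i)
  rw [div_mul_cancel₀ _ hne, abs_of_pos (by positivity), hΞ.big _ (by linarith)] at h5
  nlinarith

end ModISOM

theorem mISOM : StmISOM := by
  intro E _ _ Ξ T y hΞ hu hl hss
  obtain ⟨K, hK, hb⟩ := ModISOM.bound hΞ hu hl
  have hind := ModISOM.indep hΞ hl
  apply hss (Submodule.span ℝ (range y)).topologicalClosure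
    (Submodule.isClosed_topologicalClosure _)
  · intro hfin
    have h1 : ∀ k, y k ∈ (Submodule.span ℝ (range y)).topologicalClosure := fun k =>
      Submodule.le_topologicalClosure _ (Submodule.subset_span ⟨k, rfl⟩)
    have h2 : LinearIndependent ℝ
        (fun k => (⟨y k, h1 k⟩ : (Submodule.span ℝ (range y)).topologicalClosure)) := by
      apply LinearIndependent.of_comp (Submodule.span ℝ (range y)).topologicalClosure.subtype
      exact hind
    have h3 : Finite ℕ := h2.finite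
    exact not_finite ℕ
  · refine ⟨1 / K, by positivity, ?_⟩
    have hcl : IsClosed {x : E | ‖x‖ ≤ K * ‖T x‖} := by
      apply isClosed_le
      · fun_prop
      · fun_prop
    have hsub : ((Submodule.span ℝ (range y) : Submodule ℝ E) : Set E) ⊆ {x : E | ‖x‖ ≤ K * ‖T x‖} := by
      intro x hx
      obtain ⟨c, rfl⟩ := (Finsupp.mem_span_range_iff_exists_finsupp).1 hx
      exact hb c.support c
    intro x hx
    have hx' : x ∈ closure ((Submodule.span ℝ (range y) : Submodule ℝ E) : Set E) := hx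
    have h4 : ‖x‖ ≤ K * ‖T x‖ := (closure_minimal hsub hcl) hx'
    rw [one_div, inv_mul_le_iff₀ hK]
    exact h4

end Pool.Agent.T6.H48.KP
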