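import Pool.Agent.T6.H48.KP.Defs

namespace Pool.Agent.T6.H48.KP

open MeasureTheory Set Filter Topology
open scoped ENNReal

namespace ModKATO

variable {E : Type*} [NormedAddCommGroup E] [NormedSpace ℝ E]

theorem upper_sub {Ξ : ℝ → ℝ} {x : ℕ → E} (h : Upper Ξ x) {κ : ℕ → ℕ} (hκ : StrictMono κ) :
    Upper Ξ fun k => x (κ k) := by
  obtain ⟨K, hK, h⟩ := h
  refine ⟨K, hK, fun s a ha => ?_⟩
  have hinj := hκ.injective
  have h1 := h (s.map ⟨κ, hinj⟩) (Function.extend κ a 0)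
  rw [Finset.sum_map, Finset.sum_map] at h1
  simp only [Function.Embedding.coeFn_mk, hinj.extend_apply] at h1
  exact h1 ha

theorem lower_sub {Ξ : ℝ → ℝ} {x : ℕ → E} (h : Lower Ξ x) {κ : ℕ → ℕ} (hκ : StrictMono κ) :
    Lower Ξ fun k => x (κ k) := by
  obtain ⟨K, hK, h⟩ := h
  refine ⟨K, hK, fun s a ha => ?_⟩
  have hinj := hκ.injective
  have h1 := h (s.map ⟨κ, hinj⟩) (Function.extend κ a 0)
  rw [Finset.sum_map, Finset.sum_map] at h1
  simp only [Function.Embedding.coeFn_mk, hinj.extend_apply] at h1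
  exact h1 ha

theorem growth_sq : GrowthFn sq where
  zero := by simp [sq]
  nonneg a := by unfold sq; positivity
  big a _ := rfl
  growth l a hl hl1 ha := by
    unfold sq
    have h1 : (l * a) ^ 2 = l ^ (2:ℝ) * a ^ 2 := by
      rw [mul_pow]
      congr 1
      exact_mod_cast (Real.rpow_natCast l 2).symm
    rw [h1]
    constructor
    · refine mul_le_mul_of_nonneg_right ?_ (by positivity)
      exact Real.rpow_le_rpow_of_exponent_ge hl hl1 (by norm_num)
    · refine mul_le_mul_of_nonneg_right ?_ (by positivity)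
      exact Real.rpow_le_rpow_of_exponent_ge hl hl1 (by norm_num)

end ModKATO

open ModKATO in
theorem mKATO (h1 : StmSRCE) (h2 : StmTARG) (h3 : StmISOM) (h4 : StmCONT) : StmKATO := by
  intro Φ F D hK T hT
  by_contra hc
  obtain ⟨y, δ, hδ, hy, hup, hTy, hw⟩ := h1 Φ F D hK T hc
  obtain ⟨κ, hκ, hlow⟩ := h2 Φ F D hK (fun k => T (y k)) (‖T‖ * 2) δ hδ
    (fun n => (T.le_opNorm _).trans (mul_le_mul_of_nonneg_left (hy n) (norm_nonneg _))) hTy hw
  have hC := h4 Φ F D hK (LPhi Φ) T (fun k => y (κ k))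
  rcases hup with hup | hup
  · have hup' := upper_sub hup hκ
    rcases hlow with hlow | hlow
    · exact h3 (LPhi Φ) sq T (fun k => y (κ k)) growth_sq hup' hlow hT
    · exact hC.1 ⟨hup', hlow⟩
  · have hup' := upper_sub hup hκ
    rcases hlow with hlow | hlow
    · exact hC.2 ⟨hup', hlow⟩
    · exact h3 (LPhi Φ) F T (fun k => y (κ k)) hK.F_growth hup' hlow hT

theorem mFIN (h1 : StmKATO) (h2 : StmNDH) (h3 : StmEXKD) : StmFIN := by
  obtain ⟨Φ, F, D, h⟩ := h3
  exact ⟨Φ, h1 Φ F D h, h2 Φ F D h⟩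

end Pool.Agent.T6.H48.KP
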