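import Pool.Agent.T6.H48.KP.Defs

/-!
Project KP, module MODN (helper82): norm and modular.
-/

set_option autoImplicit false

namespace Pool.Agent.T6.H48.KP

open MeasureTheory Set Filter Topology
open scoped ENNReal

namespace ModMODN

/-- growth of the modular -/
theorem I_growth {Φ : OrliczFun} {K : ℝ} (hK1 : 1 ≤ K)
    (hK : ∀ h a : ℝ, 0 < h → 0 < a → a ≤ 1 → a ^ (5 / 2 : ℝ) * Φ.φ h ≤ K * Φ.φ (a * h))
    (f : ℝ → ℝ) {a : ℝ} (ha : 0 < a) (ha1 : a ≤ 1) :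
    Φ.I f ≤ ENNReal.ofReal (K * (a ^ (5 / 2 : ℝ))⁻¹) * Φ.I (fun x => a * f x) := by
  have hap : 0 < a ^ (5 / 2 : ℝ) := Real.rpow_pos_of_pos ha _
  have hc : 0 ≤ K * (a ^ (5 / 2 : ℝ))⁻¹ := by positivity
  unfold OrliczFun.I
  rw [← lintegral_const_mul' _ _ ENNReal.ofReal_ne_top]
  refine lintegral_mono fun x => ?_
  rw [← ENNReal.ofReal_mul hc]
  apply ENNReal.ofReal_le_ofReal
  rw [abs_mul, abs_of_pos ha]
  rcases (abs_nonneg (f x)).eq_or_lt with h0 | h0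
  · rw [← h0, mul_zero, Φ.zero', mul_zero]
  · have := hK |f x| a h0 ha ha1
    rw [mul_comm K, mul_assoc, inv_mul_eq_div, le_div_iff₀ hap, mul_comm]
    exact this

theorem norm_le_of_I {Φ : OrliczFun} {B K : ℝ} {f : LPhi Φ} (hB : 0 < B) (hK : 1 ≤ K)
    (h : Φ.I (fun x => B⁻¹ * f.fn x) ≤ ENNReal.ofReal K) : ‖f‖ ≤ B * K := by
  have hK0 : 0 < K := by linarith
  rw [LPhi.norm_le_iff f (by positivity)]
  have e : (fun x => (B * K)⁻¹ * f.fn x) = fun x => K⁻¹ * (B⁻¹ * f.fn x) := by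
    ext x
    rw [mul_inv]
    ring
  rw [e]
  refine (Φ.I_scale (inv_nonneg.2 hK0.le) (inv_le_one_of_one_le₀ hK)).trans ?_
  calc ENNReal.ofReal K⁻¹ * Φ.I (fun x => B⁻¹ * f.fn x) ≤ ENNReal.ofReal K⁻¹ * ENNReal.ofReal K := by
        gcongr
    _ = 1 := by
        rw [← ENNReal.ofReal_mul (inv_nonneg.2 hK0.le), inv_mul_cancel₀ hK0.ne', ENNReal.ofReal_one]

end ModMODN

open ModMODN in
theorem mMODN : StmMODN := by
  intro Φ F D hD
  refine ⟨fun δ hδ => ?_, fun B K f hB hK h => norm_le_of_I hB hK h⟩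
  obtain ⟨K, hK1, hK⟩ := hD.growth
  have hK0 : 0 < K := by linarith
  set s : ℝ := min (δ / 2) 1 with hs
  have hs0 : 0 < s := lt_min (by linarith) one_pos
  have hs1 : s ≤ 1 := min_le_right _ _
  have hsd : s < δ := lt_of_le_of_lt (min_le_left _ _) (by linarith)
  have hsp : 0 < s ^ (5 / 2 : ℝ) := Real.rpow_pos_of_pos hs0 _
  refine ⟨s ^ (5 / 2 : ℝ) / K, by positivity, fun f hf => ?_⟩
  by_contra hcon
  push Not at hcon
  have h1 := I_growth hK1 (fun h a h0 a0 a1 => (hK h a h0 a0 a1).2) (fun x => s⁻¹ * f.fn x) hs0 hs1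
  have e : (fun x => s * (s⁻¹ * f.fn x)) = f.fn := by
    ext x
    rw [← mul_assoc, mul_inv_cancel₀ hs0.ne', one_mul]
  rw [e] at h1
  have h2 : Φ.I (fun x => s⁻¹ * f.fn x) ≤ 1 := by
    refine h1.trans ?_
    calc ENNReal.ofReal (K * (s ^ (5 / 2 : ℝ))⁻¹) * Φ.I f.fn
        ≤ ENNReal.ofReal (K * (s ^ (5 / 2 : ℝ))⁻¹) * ENNReal.ofReal (s ^ (5 / 2 : ℝ) / K) := by
          gcongr
      _ = 1 := by
          rw [← ENNReal.ofReal_mul (by positivity)]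
          have : K * (s ^ (5 / 2 : ℝ))⁻¹ * (s ^ (5 / 2 : ℝ) / K) = 1 := by field_simp
          rw [this, ENNReal.ofReal_one]
  have h3 := (LPhi.norm_le_iff f hs0).2 h2
  linarith

end Pool.Agent.T6.H48.KP
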