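import Pool.Agent.T6.H48.KP.Defs

/-!
Project KP, module MOM4: fourth moments of weakly null bounded sequences.
-/

namespace Pool.Agent.T6.H48.KP

open MeasureTheory Set Filter Topology
open scoped ENNReal

namespace ModMOM4

/-- bounded measurable functions -/
def BM (f : ℝ → ℝ) : Prop := Measurable f ∧ ∃ C : ℝ, ∀ x, |f x| ≤ C

theorem BM.int {f : ℝ → ℝ} (h : BM f) : Integrable f mu := by
  obtain ⟨h1, C, hC⟩ := h
  exact Integrable.of_bound h1.aestronglyMeasurable C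
    (Eventually.of_forall fun x => by rw [Real.norm_eq_abs]; exact hC x)

theorem BM.mul {f g : ℝ → ℝ} (hf : BM f) (hg : BM g) : BM fun x => f x * g x := by
  obtain ⟨h1, C, hC⟩ := hf
  obtain ⟨h2, E, hE⟩ := hg
  refine ⟨h1.mul h2, C * E, fun x => ?_⟩
  rw [abs_mul]
  exact mul_le_mul (hC x) (hE x) (abs_nonneg _) ((abs_nonneg _).trans (hC x))

theorem BM.add {f g : ℝ → ℝ} (hf : BM f) (hg : BM g) : BM fun x => f x + g x := by
  obtain ⟨h1, C, hC⟩ := hf
  obtain ⟨h2, E, hE⟩ := hg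
  exact ⟨h1.add h2, C + E, fun x => (abs_add_le _ _).trans (add_le_add (hC x) (hE x))⟩

theorem BM.const (c : ℝ) : BM fun _ => c := ⟨measurable_const, |c|, fun _ => le_rfl⟩

theorem BM.sum {ι : Type*} {s : Finset ι} {f : ι → ℝ → ℝ} (hf : ∀ i, BM (f i)) :
    BM fun x => ∑ i ∈ s, f i x := by
  classical
  induction s using Finset.induction_on with
  | empty => simpa using BM.const 0
  | insert a s ha ih =>
    simp only [Finset.sum_insert ha]
    exact (hf a).add ih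

theorem BM.pow {f : ℝ → ℝ} (hf : BM f) (n : ℕ) : BM fun x => f x ^ n := by
  induction n with
  | zero => simpa using BM.const 1
  | succ n ih =>
    simp only [pow_succ]
    exact ih.mul hf

/-- extraction -/
theorem extract (g : ℕ → ℝ → ℝ) (B : ℝ) (hg : ∀ n, Measurable (g n)) (hB : ∀ n x, |g n x| ≤ B)
    (hw : ∀ h : ℝ → ℝ, Integrable h mu → Tendsto (fun n => ∫ x, g n x * h x ∂mu) atTop (𝓝 0)) :
    ∃ κ : ℕ → ℕ, StrictMono κ ∧ ∀ n,
      (∀ i < n, |∫ x, g (κ i) x * g (κ n) x ∂mu| ≤ (1 / 2) ^ n / ((n : ℝ) + 1) ^ 3) ∧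
      (∀ i < n, ∀ j < n, ∀ l < n, |∫ x, g (κ i) x * g (κ j) x * g (κ l) x * g (κ n) x ∂mu| ≤
        (1 / 2) ^ n / ((n : ℝ) + 1) ^ 3) := by
  have hBM : ∀ n, BM (g n) := fun n => ⟨hg n, B, hB n⟩
  set e : ℕ → ℝ := fun N => (1 / 2) ^ (N + 1) / ((N : ℝ) + 2) ^ 3 with he
  have hepos : ∀ N, 0 < e N := fun N => by simp only [he]; positivity
  have hanti : Antitone e := by
    refine antitone_nat_of_succ_le fun N => ?_
    simp only [he]
    have h1 : ((1:ℝ) / 2) ^ (N + 1 + 1) ≤ (1 / 2) ^ (N + 1) :=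
      pow_le_pow_of_le_one (by norm_num) (by norm_num) (by omega)
    have h2 : ((N : ℝ) + 2) ^ 3 ≤ (((N + 1 : ℕ) : ℝ) + 2) ^ 3 := by
      push_cast
      gcongr
      linarith
    gcongr
  have hP : ∀ N : ℕ, ∀ᶠ p in atTop, (∀ i ∈ Finset.range (N + 1),
      |∫ x, g i x * g p x ∂mu| ≤ e N) ∧ (∀ i ∈ Finset.range (N + 1), ∀ j ∈ Finset.range (N + 1),
      ∀ l ∈ Finset.range (N + 1), |∫ x, g i x * g j x * g l x * g p x ∂mu| ≤ e N) := by
    intro N
    have key : ∀ h : ℝ → ℝ, BM h → ∀ᶠ p in atTop, |∫ x, h x * g p x ∂mu| ≤ e N := by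
      intro h hh
      have h1 := (hw h hh.int).abs
      rw [abs_zero] at h1
      filter_upwards [h1.eventually_le_const (hepos N)] with p hp
      simpa only [mul_comm] using hp
    refine Filter.Eventually.and ?_ ?_
    · rw [Filter.eventually_all_finset]
      exact fun i _ => key _ (hBM i)
    · rw [Filter.eventually_all_finset]
      intro i _
      rw [Filter.eventually_all_finset]
      intro j _
      rw [Filter.eventually_all_finset]
      exact fun l _ => key _ (((hBM i).mul (hBM j)).mul (hBM l))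
  have hm : ∀ N : ℕ, ∃ p : ℕ, N < p ∧ (∀ i ∈ Finset.range (N + 1),
      |∫ x, g i x * g p x ∂mu| ≤ e N) ∧ (∀ i ∈ Finset.range (N + 1), ∀ j ∈ Finset.range (N + 1),
      ∀ l ∈ Finset.range (N + 1), |∫ x, g i x * g j x * g l x * g p x ∂mu| ≤ e N) := fun N =>
    ((eventually_gt_atTop N).and (hP N)).exists
  choose m hm1 hm2 hm3 using hm
  set κ : ℕ → ℕ := fun n => Nat.rec 0 (fun _ y => m y) n with hκ
  have hκs : ∀ n, κ (n + 1) = m (κ n) := fun n => rfl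
  have hmono : StrictMono κ := strictMono_nat_of_lt_succ fun n => by
    rw [hκs]; exact hm1 _
  refine ⟨κ, hmono, fun n => ?_⟩
  rcases n with _ | n
  · exact ⟨fun i hi => absurd hi (by omega), fun i hi => absurd hi (by omega)⟩
  have hmem : ∀ i < n + 1, κ i ∈ Finset.range (κ n + 1) := fun i hi => by
    have : κ i ≤ κ n := hmono.monotone (by omega)
    simp; omega
  have hle : e (κ n) ≤ (1 / 2) ^ (n + 1) / (((n + 1 : ℕ) : ℝ) + 1) ^ 3 := by
    refine (hanti (hmono.id_le n)).trans (le_of_eq ?_)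
    simp only [he, id_eq]
    push_cast
    ring
  rw [hκs]
  exact ⟨fun i hi => (hm2 _ _ (hmem i hi)).trans hle,
    fun i hi j hj l hl => (hm3 _ _ (hmem i hi) _ (hmem j hj) _ (hmem l hl)).trans hle⟩

variable {G : ℕ → ℝ → ℝ} {B : ℝ}

/-- partial sums -/
noncomputable def S (G : ℕ → ℝ → ℝ) (b : ℕ → ℝ) (n : ℕ) (x : ℝ) : ℝ :=
  ∑ k ∈ Finset.range n, b k * G k x

theorem S_BM (hG : ∀ n, BM (G n)) (b : ℕ → ℝ) (n : ℕ) : BM (S G b n) :=
  BM.sum fun i => (BM.const (b i)).mul (hG i)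

theorem S_succ (b : ℕ → ℝ) (n : ℕ) (x : ℝ) : S G b (n + 1) x = S G b n x + b n * G n x := by
  unfold S
  rw [Finset.sum_range_succ]

theorem n_le (n : ℕ) {R : ℝ} (hR : 0 ≤ R) (p : ℕ) (hp : p ≤ 3) :
    (n : ℝ) ^ p * (R * ((1 / 2) ^ n / ((n : ℝ) + 1) ^ 3)) ≤ R * (1 / 2) ^ n := by
  have h1 : (n : ℝ) ^ p ≤ ((n : ℝ) + 1) ^ 3 := by
    calc (n : ℝ) ^ p ≤ ((n : ℝ) + 1) ^ p := by gcongr; linarith
      _ ≤ ((n : ℝ) + 1) ^ 3 := pow_le_pow_right₀ (by linarith [(n.cast_nonneg : (0:ℝ) ≤ n)]) hp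
  have h2 : (0:ℝ) < ((n : ℝ) + 1) ^ 3 := by positivity
  calc (n : ℝ) ^ p * (R * ((1 / 2) ^ n / ((n : ℝ) + 1) ^ 3))
      ≤ ((n : ℝ) + 1) ^ 3 * (R * ((1 / 2) ^ n / ((n : ℝ) + 1) ^ 3)) := by gcongr
    _ = R * (1 / 2) ^ n := by field_simp

theorem lin_le (hG : ∀ n, BM (G n)) (b : ℕ → ℝ) {R : ℝ} (hR : 0 ≤ R) (hb : ∀ k, |b k| ≤ R) (n : ℕ)
    (h : ∀ i < n, |∫ x, G i x * G n x ∂mu| ≤ (1 / 2) ^ n / ((n : ℝ) + 1) ^ 3) :
    |∫ x, S G b n x * G n x ∂mu| ≤ R * (1 / 2) ^ n := by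
  have h1 : ∫ x, S G b n x * G n x ∂mu = ∑ i ∈ Finset.range n, b i * ∫ x, G i x * G n x ∂mu := by
    simp_rw [← integral_const_mul]
    rw [← integral_finsetSum _ fun i _ => ((BM.const (b i)).mul ((hG i).mul (hG n))).int]
    refine integral_congr_ae (Eventually.of_forall fun x => ?_)
    simp only [S, Finset.sum_mul, mul_assoc]
  rw [h1]
  refine (Finset.abs_sum_le_sum_abs _ _).trans ?_
  calc ∑ i ∈ Finset.range n, |b i * ∫ x, G i x * G n x ∂mu|
      ≤ ∑ i ∈ Finset.range n, R * ((1 / 2) ^ n / ((n : ℝ) + 1) ^ 3) := by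
        refine Finset.sum_le_sum fun i hi => ?_
        rw [abs_mul]
        exact mul_le_mul (hb i) (h i (Finset.mem_range.1 hi)) (abs_nonneg _) hR
    _ = (n : ℝ) ^ 1 * (R * ((1 / 2) ^ n / ((n : ℝ) + 1) ^ 3)) := by
        rw [Finset.sum_const, Finset.card_range, nsmul_eq_mul, pow_one]
    _ ≤ _ := n_le n hR 1 (by norm_num)

theorem cub_le (hG : ∀ n, BM (G n)) (b : ℕ → ℝ) {R : ℝ} (hR : 0 ≤ R) (hb : ∀ k, |b k| ≤ R) (n : ℕ)
    (h : ∀ i < n, ∀ j < n, ∀ l < n, |∫ x, G i x * G j x * G l x * G n x ∂mu| ≤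
      (1 / 2) ^ n / ((n : ℝ) + 1) ^ 3) :
    |∫ x, S G b n x ^ 3 * G n x ∂mu| ≤ R ^ 3 * (1 / 2) ^ n := by
  have h1 : ∫ x, S G b n x ^ 3 * G n x ∂mu = ∑ i ∈ Finset.range n, ∑ j ∈ Finset.range n,
      ∑ l ∈ Finset.range n, b i * b j * b l * ∫ x, G i x * G j x * G l x * G n x ∂mu := by
    have hBM : ∀ i j l, BM fun x => b i * b j * b l * (G i x * G j x * G l x * G n x) :=
      fun i j l => (BM.const _).mul ((((hG i).mul (hG j)).mul (hG l)).mul (hG n))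
    have h2 : ∀ x, S G b n x ^ 3 * G n x = ∑ i ∈ Finset.range n, ∑ j ∈ Finset.range n,
      ∑ l ∈ Finset.range n, b i * b j * b l * (G i x * G j x * G l x * G n x) := by
      intro x
      rw [pow_succ, pow_two]
      unfold S
      rw [Finset.sum_mul_sum, Finset.sum_mul, Finset.sum_mul]
      refine Finset.sum_congr rfl fun i _ => ?_
      rw [Finset.sum_mul, Finset.sum_mul]
      refine Finset.sum_congr rfl fun j _ => ?_
      rw [Finset.mul_sum, Finset.sum_mul]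
      refine Finset.sum_congr rfl fun l _ => ?_
      ring
    simp_rw [h2, ← integral_const_mul]
    rw [integral_finsetSum _ fun i _ => (BM.sum fun j => BM.sum fun l => hBM i j l).int]
    refine Finset.sum_congr rfl fun i _ => ?_
    rw [integral_finsetSum _ fun j _ => (BM.sum fun l => hBM i j l).int]
    refine Finset.sum_congr rfl fun j _ => ?_
    rw [integral_finsetSum _ fun l _ => (hBM i j l).int]
  rw [h1]
  have h3 : ∀ i ∈ Finset.range n, |∑ j ∈ Finset.range n,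
      ∑ l ∈ Finset.range n, b i * b j * b l * ∫ x, G i x * G j x * G l x * G n x ∂mu| ≤
      ∑ j ∈ Finset.range n, ∑ l ∈ Finset.range n, R ^ 3 * ((1 / 2) ^ n / ((n : ℝ) + 1) ^ 3) := by
    intro i hi
    refine (Finset.abs_sum_le_sum_abs _ _).trans (Finset.sum_le_sum fun j hj => ?_)
    refine (Finset.abs_sum_le_sum_abs _ _).trans (Finset.sum_le_sum fun l hl => ?_)
    rw [abs_mul, abs_mul, abs_mul]
    have h4 : |b i| * |b j| * |b l| ≤ R ^ 3 := by
      calc |b i| * |b j| * |b l| ≤ R * R * R := by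
            have := hb i
            have := hb j
            have := hb l
            gcongr
        _ = R ^ 3 := by ring
    exact mul_le_mul h4 (h i (Finset.mem_range.1 hi) j (Finset.mem_range.1 hj) l
      (Finset.mem_range.1 hl)) (abs_nonneg _) (by positivity)
  refine (Finset.abs_sum_le_sum_abs _ _).trans ((Finset.sum_le_sum h3).trans ?_)
  simp only [Finset.sum_const, Finset.card_range, nsmul_eq_mul]
  refine le_trans (le_of_eq ?_) (n_le n (R := R ^ 3) (by positivity) 3 le_rfl)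
  ring

theorem sq_le (hG : ∀ n, BM (G n)) (hB : ∀ n x, |G n x| ≤ B) (b : ℕ → ℝ) {R : ℝ} (hR : 0 ≤ R)
    (hb : ∀ k, |b k| ≤ R)
    (h : ∀ n, ∀ i < n, |∫ x, G i x * G n x ∂mu| ≤ (1 / 2) ^ n / ((n : ℝ) + 1) ^ 3) (n : ℕ) :
    ∫ x, S G b n x ^ 2 ∂mu ≤ 2 * R ^ 2 * ∑ k ∈ Finset.range n, (1 / 2 : ℝ) ^ k +
      B ^ 2 * ∑ k ∈ Finset.range n, b k ^ 2 := by
  induction n with
  | zero => simp [S]
  | succ n ih =>
    have hS := S_BM hG b n
    have h1 : ∫ x, S G b (n + 1) x ^ 2 ∂mu = ∫ x, S G b n x ^ 2 ∂mu +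
        2 * b n * ∫ x, S G b n x * G n x ∂mu + b n ^ 2 * ∫ x, G n x ^ 2 ∂mu := by
      rw [← integral_const_mul, ← integral_const_mul, ← integral_add (hS.pow 2).int
        ((BM.const _).mul (hS.mul (hG n))).int, ← integral_add
        ((hS.pow 2).add ((BM.const _).mul (hS.mul (hG n)))).int
        ((BM.const _).mul ((hG n).pow 2)).int]
      refine integral_congr_ae (Eventually.of_forall fun x => ?_)
      simp only [S_succ]
      ring
    have h2 : 2 * b n * ∫ x, S G b n x * G n x ∂mu ≤ 2 * R ^ 2 * (1 / 2) ^ n := by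
      have h3 := lin_le hG b hR hb n (h n)
      calc 2 * b n * ∫ x, S G b n x * G n x ∂mu ≤ |2 * b n * ∫ x, S G b n x * G n x ∂mu| :=
            le_abs_self _
        _ = 2 * (|b n| * |∫ x, S G b n x * G n x ∂mu|) := by
            rw [abs_mul, abs_mul, abs_two]; ring
        _ ≤ 2 * (R * (R * (1 / 2) ^ n)) := by
            have := hb n
            gcongr
        _ = 2 * R ^ 2 * (1 / 2) ^ n := by ring
    have h4 : ∫ x, G n x ^ 2 ∂mu ≤ B ^ 2 := by
      have h5 : ∫ x, G n x ^ 2 ∂mu ≤ ∫ _, B ^ 2 ∂mu := by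
        refine integral_mono ((hG n).pow 2).int (integrable_const _) fun x => ?_
        simp only
        rw [← sq_abs]
        have := hB n x
        gcongr
      refine h5.trans (le_of_eq ?_)
      rw [integral_const]
      simp [Measure.real, Measure.restrict_apply_univ, Real.volume_Icc]
    have h6 : b n ^ 2 * ∫ x, G n x ^ 2 ∂mu ≤ b n ^ 2 * B ^ 2 := by gcongr
    rw [h1, Finset.sum_range_succ, Finset.sum_range_succ]
    nlinarith [ih, h2, h6]

theorem four_le (hG : ∀ n, BM (G n)) (hB : ∀ n x, |G n x| ≤ B) (b : ℕ → ℝ) {R : ℝ} (hR : 0 ≤ R)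
    (hb : ∀ k, |b k| ≤ R) (hsum : ∀ n, ∑ k ∈ Finset.range n, b k ^ 2 ≤ R ^ 2)
    (h : ∀ n, ∀ i < n, |∫ x, G i x * G n x ∂mu| ≤ (1 / 2) ^ n / ((n : ℝ) + 1) ^ 3)
    (h' : ∀ n, ∀ i < n, ∀ j < n, ∀ l < n, |∫ x, G i x * G j x * G l x * G n x ∂mu| ≤
      (1 / 2) ^ n / ((n : ℝ) + 1) ^ 3) (n : ℕ) :
    ∫ x, S G b n x ^ 4 ∂mu ≤ 4 * R ^ 4 * ∑ k ∈ Finset.range n, (1 / 2 : ℝ) ^ k +
      (8 * B ^ 2 * (R ^ 2 * (4 + B ^ 2)) + 3 * B ^ 4 * R ^ 2) *
        ∑ k ∈ Finset.range n, b k ^ 2 := by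
  have hgeo : ∀ n : ℕ, ∑ k ∈ Finset.range n, (1 / 2 : ℝ) ^ k ≤ 2 := fun n => by
    rw [geom_sum_eq (by norm_num)]
    have : (0:ℝ) < (1 / 2) ^ n := by positivity
    rw [div_le_iff_of_neg (by norm_num)]
    linarith
  induction n with
  | zero => simp [S]
  | succ n ih =>
    have hS := S_BM hG b n
    have h2S : ∫ x, S G b n x ^ 2 ∂mu ≤ R ^ 2 * (4 + B ^ 2) := by
      have h1 := sq_le hG hB b hR hb h n
      have h2 := hgeo n
      have h3 := hsum n
      calc ∫ x, S G b n x ^ 2 ∂mu ≤ 2 * R ^ 2 * ∑ k ∈ Finset.range n, (1 / 2 : ℝ) ^ k +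
          B ^ 2 * ∑ k ∈ Finset.range n, b k ^ 2 := h1
        _ ≤ 2 * R ^ 2 * 2 + B ^ 2 * R ^ 2 := by gcongr
        _ = R ^ 2 * (4 + B ^ 2) := by ring
    -- pointwise estimate
    have hpt : ∀ x, S G b (n + 1) x ^ 4 ≤ S G b n x ^ 4 + 4 * b n * (S G b n x ^ 3 * G n x) +
        8 * B ^ 2 * b n ^ 2 * S G b n x ^ 2 + 3 * B ^ 4 * R ^ 2 * b n ^ 2 := by
      intro x
      rw [S_succ]
      set s := S G b n x
      set y := G n x
      set c := b n
      have hy : y ^ 2 ≤ B ^ 2 := by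
        rw [← sq_abs]
        have := hB n x
        have h0 : 0 ≤ |y| := abs_nonneg _
        exact pow_le_pow_left₀ h0 this 2
      have hc : c ^ 2 ≤ R ^ 2 := by
        rw [← sq_abs]
        exact pow_le_pow_left₀ (abs_nonneg _) (hb n) 2
      have e1 : (s + c * y) ^ 4 = s ^ 4 + 4 * c * (s ^ 3 * y) + 6 * c ^ 2 * s ^ 2 * y ^ 2 +
        4 * c ^ 3 * s * y ^ 3 + c ^ 4 * y ^ 4 := by ring
      have e2 : 4 * c ^ 3 * s * y ^ 3 ≤ 2 * c ^ 2 * y ^ 2 * s ^ 2 + 2 * c ^ 4 * y ^ 4 := by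
        have := sq_nonneg (c * y * s - c ^ 2 * y ^ 2)
        nlinarith [this]
      have e3 : 8 * c ^ 2 * s ^ 2 * y ^ 2 ≤ 8 * B ^ 2 * c ^ 2 * s ^ 2 := by
        have : 8 * c ^ 2 * s ^ 2 * y ^ 2 ≤ 8 * c ^ 2 * s ^ 2 * B ^ 2 := by gcongr
        linarith
      have e4 : 3 * c ^ 4 * y ^ 4 ≤ 3 * B ^ 4 * R ^ 2 * c ^ 2 := by
        have h5 : c ^ 2 * (c ^ 2) * ((y ^ 2) * (y ^ 2)) ≤ R ^ 2 * c ^ 2 * (B ^ 2 * B ^ 2) := by
          gcongr
        nlinarith [h5]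
      linarith
    have h1 : ∫ x, S G b (n + 1) x ^ 4 ∂mu ≤ ∫ x, S G b n x ^ 4 ∂mu +
        4 * b n * ∫ x, S G b n x ^ 3 * G n x ∂mu +
        8 * B ^ 2 * b n ^ 2 * ∫ x, S G b n x ^ 2 ∂mu + 3 * B ^ 4 * R ^ 2 * b n ^ 2 := by
      have i1 := (hS.pow 4)
      have i2 := (BM.const (4 * b n)).mul ((hS.pow 3).mul (hG n))
      have i3 := (BM.const (8 * B ^ 2 * b n ^ 2)).mul (hS.pow 2)
      have i4 := BM.const (3 * B ^ 4 * R ^ 2 * b n ^ 2)
      have h2 : ∫ x, S G b (n + 1) x ^ 4 ∂mu ≤ ∫ x, (S G b n x ^ 4 +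
        4 * b n * (S G b n x ^ 3 * G n x) + 8 * B ^ 2 * b n ^ 2 * S G b n x ^ 2 +
        3 * B ^ 4 * R ^ 2 * b n ^ 2) ∂mu :=
        integral_mono ((S_BM hG b (n + 1)).pow 4).int (((i1.add i2).add i3).add i4).int hpt
      refine h2.trans (le_of_eq ?_)
      rw [integral_add ((i1.add i2).add i3).int i4.int, integral_add (i1.add i2).int i3.int,
        integral_add i1.int i2.int, integral_const_mul, integral_const_mul, integral_const]
      simp [Measure.real, Measure.restrict_apply_univ, Real.volume_Icc]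
    have h2 : 4 * b n * ∫ x, S G b n x ^ 3 * G n x ∂mu ≤ 4 * R ^ 4 * (1 / 2) ^ n := by
      have h3 := cub_le hG b hR hb n (h' n)
      calc 4 * b n * ∫ x, S G b n x ^ 3 * G n x ∂mu
          ≤ |4 * b n * ∫ x, S G b n x ^ 3 * G n x ∂mu| := le_abs_self _
        _ = 4 * (|b n| * |∫ x, S G b n x ^ 3 * G n x ∂mu|) := by
            rw [abs_mul, abs_mul, abs_of_pos (by norm_num : (0:ℝ) < 4)]; ring
        _ ≤ 4 * (R * (R ^ 3 * (1 / 2) ^ n)) := by
            have := hb n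
            gcongr
        _ = 4 * R ^ 4 * (1 / 2) ^ n := by ring
    have h3 : 8 * B ^ 2 * b n ^ 2 * ∫ x, S G b n x ^ 2 ∂mu ≤
        8 * B ^ 2 * b n ^ 2 * (R ^ 2 * (4 + B ^ 2)) := by gcongr
    rw [Finset.sum_range_succ, Finset.sum_range_succ]
    nlinarith [ih, h1, h2, h3]

end ModMOM4

open ModMOM4 in
theorem mMOM4 : StmMOM4 := by
  intro g B hg hB hw
  obtain ⟨κ, hκ, hext⟩ := extract g B hg hB hw
  have hB0 : 0 ≤ B := (abs_nonneg _).trans (hB 0 0)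
  refine ⟨κ, hκ, 8 + 8 * B ^ 2 * (4 + B ^ 2) + 3 * B ^ 4, by positivity, fun s a => ?_⟩
  classical
  set b : ℕ → ℝ := fun k => if k ∈ s then a k else 0 with hb
  set A := ∑ k ∈ s, a k ^ 2 with hA
  have hA0 : 0 ≤ A := Finset.sum_nonneg fun i _ => sq_nonneg _
  set R := √A with hR
  have hR2 : R ^ 2 = A := Real.sq_sqrt hA0
  have hR0 : 0 ≤ R := Real.sqrt_nonneg _
  have hbR : ∀ k, |b k| ≤ R := by
    intro k
    simp only [hb]
    split_ifs with hk
    · rw [hR, ← Real.sqrt_sq_eq_abs]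
      exact Real.sqrt_le_sqrt (Finset.single_le_sum (f := fun k => a k ^ 2)
        (fun i _ => sq_nonneg _) hk)
    · simpa using hR0
  have hsum : ∀ n, ∑ k ∈ Finset.range n, b k ^ 2 ≤ R ^ 2 := by
    intro n
    rw [hR2, hA]
    calc ∑ k ∈ Finset.range n, b k ^ 2 = ∑ k ∈ (Finset.range n).filter (· ∈ s), a k ^ 2 := by
          rw [Finset.sum_filter]
          refine Finset.sum_congr rfl fun k _ => ?_
          simp only [hb]
          split_ifs <;> simp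
      _ ≤ ∑ k ∈ s, a k ^ 2 := Finset.sum_le_sum_of_subset_of_nonneg
          (fun k hk => (Finset.mem_filter.1 hk).2) fun i _ _ => sq_nonneg _
  have hGBM : ∀ n, BM (fun x => g (κ n) x) := fun n => ⟨hg _, B, hB _⟩
  have h4 := four_le (G := fun n => g (κ n)) hGBM (fun n x => hB (κ n) x) b hR0 hbR hsum
    (fun n => (hext n).1) (fun n => (hext n).2) (s.sup id + 1)
  have hS : ∀ x, S (fun n => g (κ n)) b (s.sup id + 1) x = ∑ k ∈ s, a k * g (κ k) x := by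
    intro x
    unfold S
    have hsub : s ⊆ Finset.range (s.sup id + 1) := fun k hk => by
      have : k ≤ s.sup id := Finset.le_sup (f := id) hk
      simp; omega
    rw [← Finset.sum_subset hsub]
    · refine Finset.sum_congr rfl fun k hk => ?_
      simp only [hb, if_pos hk]
    · intro k _ hk
      simp only [hb, if_neg hk, zero_mul]
  simp_rw [hS] at h4
  refine h4.trans ?_
  have hgeo : ∑ k ∈ Finset.range (s.sup id + 1), (1 / 2 : ℝ) ^ k ≤ 2 := by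
    rw [geom_sum_eq (by norm_num)]
    have : (0:ℝ) < (1 / 2) ^ (s.sup id + 1) := by positivity
    rw [div_le_iff_of_neg (by norm_num)]
    linarith
  have h5 := hsum (s.sup id + 1)
  calc 4 * R ^ 4 * ∑ k ∈ Finset.range (s.sup id + 1), (1 / 2 : ℝ) ^ k +
      (8 * B ^ 2 * (R ^ 2 * (4 + B ^ 2)) + 3 * B ^ 4 * R ^ 2) *
        ∑ k ∈ Finset.range (s.sup id + 1), b k ^ 2
      ≤ 4 * R ^ 4 * 2 + (8 * B ^ 2 * (R ^ 2 * (4 + B ^ 2)) + 3 * B ^ 4 * R ^ 2) * R ^ 2 := by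
        gcongr
    _ = (8 + 8 * B ^ 2 * (4 + B ^ 2) + 3 * B ^ 4) * (R ^ 2) ^ 2 := by ring
    _ = (8 + 8 * B ^ 2 * (4 + B ^ 2) + 3 * B ^ 4) * A ^ 2 := by rw [hR2]

end Pool.Agent.T6.H48.KP
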