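import Pool.Agent.T6.H48.KP.Defs

/-! Module NDH (helper24): the space is not 2-DH. -/

set_option autoImplicit false

namespace Pool.Agent.T6.H48.KP

open MeasureTheory Set Filter Topology
open scoped ENNReal

namespace ModNDH

/-- the `k`-th interval -/
noncomputable def AA (w : ℕ → ℝ) (k : ℕ) : Set ℝ := Ioc ((1 / 2 : ℝ) ^ (k + 1)) ((1 / 2 : ℝ) ^ (k + 1) + w k)

theorem AA_sub {w : ℕ → ℝ} (hw : ∀ k, 0 ≤ w k ∧ w k ≤ (1 / 2 : ℝ) ^ (k + 1)) (k : ℕ) :
    AA w k ⊆ Ioc ((1 / 2 : ℝ) ^ (k + 1)) ((1 / 2 : ℝ) ^ k) := by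
  intro x hx
  refine ⟨hx.1, hx.2.trans ?_⟩
  have h1 := (hw k).2
  have h2 : (1 / 2 : ℝ) ^ (k + 1) + (1 / 2 : ℝ) ^ (k + 1) = (1 / 2 : ℝ) ^ k := by
    rw [pow_succ]
    ring
  linarith

theorem AA_disj {w : ℕ → ℝ} (hw : ∀ k, 0 ≤ w k ∧ w k ≤ (1 / 2 : ℝ) ^ (k + 1)) {m n : ℕ}
    (hmn : m < n) {x : ℝ} (h1 : x ∈ AA w m) (h2 : x ∈ AA w n) : False := by
  have h3 := (AA_sub hw m h1).1
  have h4 := (AA_sub hw n h2).2
  have h5 : (1 / 2 : ℝ) ^ n ≤ (1 / 2 : ℝ) ^ (m + 1) :=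
    pow_le_pow_of_le_one (by norm_num) (by norm_num) hmn
  linarith

theorem mu_AA {w : ℕ → ℝ} (hw : ∀ k, 0 ≤ w k ∧ w k ≤ (1 / 2 : ℝ) ^ (k + 1)) (k : ℕ) :
    mu (AA w k) = ENNReal.ofReal (w k) := by
  have hsub : AA w k ⊆ Icc (0 : ℝ) 1 := by
    intro x hx
    have h1 := AA_sub hw k hx
    refine ⟨(lt_trans (by positivity) h1.1).le, h1.2.trans ?_⟩
    exact pow_le_one₀ (by norm_num) (by norm_num)
  rw [Measure.restrict_apply' measurableSet_Icc, inter_eq_self_of_subset_left hsub]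
  unfold AA
  rw [Real.volume_Ioc]
  congr 1
  ring

theorem I_ind (Φ : OrliczFun) {A : Set ℝ} (hA : MeasurableSet A) {w h a : ℝ}
    (hm : mu A = ENNReal.ofReal w) (hh : 0 ≤ h) (ha : 0 ≤ a) :
    Φ.I (fun x => a * A.indicator (fun _ => h) x) = ENNReal.ofReal (Φ.φ (a * h) * w) := by
  have h1 : (fun x => ENNReal.ofReal (Φ.φ |a * A.indicator (fun _ => h) x|)) =
      A.indicator (fun _ => ENNReal.ofReal (Φ.φ (a * h))) := by
    ext x
    by_cases hx : x ∈ A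
    · rw [indicator_of_mem hx, indicator_of_mem hx, abs_of_nonneg (mul_nonneg ha hh)]
    · rw [indicator_of_notMem hx, indicator_of_notMem hx, mul_zero, abs_zero, Φ.zero',
        ENNReal.ofReal_zero]
  unfold OrliczFun.I
  rw [h1, lintegral_indicator_const hA, hm,
    ← ENNReal.ofReal_mul (Φ.nonneg (mul_nonneg ha hh))]

end ModNDH

open ModNDH in
theorem mNDH (hd : StmDSUM) : StmNDH := by
  intro Φ F D hKD hDH
  obtain ⟨K, hK1, hfeat⟩ := hKD.feat 0
  choose H hH using fun k : ℕ => hfeat (k : ℝ)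
  have hex : ∀ k : ℕ, ∃ h : ℝ, 0 < h ∧ D h ≤ 0 ∧ (2 : ℝ) ^ (k + 1) ≤ Φ.φ h ∧ H k ≤ h := by
    intro k
    obtain ⟨T, hT, hT'⟩ := Φ.exists_large ((2 : ℝ) ^ (k + 1))
    obtain ⟨h, h1, h2, h3⟩ := hKD.feats (max (H k) T)
    exact ⟨h, h2, h3, hT' h ((le_max_right _ _).trans h1), (le_max_left _ _).trans h1⟩
  choose h hpos hD hbig hHh using hex
  set w : ℕ → ℝ := fun k => 1 / Φ.φ (h k) with hwdef
  have hφpos : ∀ k, 0 < Φ.φ (h k) := fun k => hKD.pos _ (hpos k)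
  have hw : ∀ k, 0 ≤ w k ∧ w k ≤ (1 / 2 : ℝ) ^ (k + 1) := by
    intro k
    refine ⟨(one_div_pos.2 (hφpos k)).le, ?_⟩
    have : (1 / 2 : ℝ) ^ (k + 1) = 1 / (2 : ℝ) ^ (k + 1) := by rw [one_div_pow]
    rw [this]
    exact one_div_le_one_div_of_le (by positivity) (hbig k)
  have hAm : ∀ k, MeasurableSet (AA w k) := fun k => measurableSet_Ioc
  have hI : ∀ (k : ℕ) (a : ℝ), 0 ≤ a → Φ.I (fun x => a * (AA w k).indicator (fun _ => h k) x) =
      ENNReal.ofReal (Φ.φ (a * h k) * w k) := fun k a ha =>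
    I_ind Φ (hAm k) (mu_AA hw k) (hpos k).le ha
  set u : ℕ → LPhi Φ := fun k => LPhi.ofFn Φ ((AA w k).indicator (fun _ => h k)) with hudef
  have hu : ∀ k, (u k).fn =ᵐ[mu] (AA w k).indicator (fun _ => h k) := by
    intro k
    refine LPhi.fn_ofFn (measurable_const.indicator (hAm k)).aestronglyMeasurable ⟨1, one_pos, ?_⟩
    rw [hI k _ (by norm_num)]
    exact ENNReal.ofReal_lt_top
  have hIu : ∀ (k : ℕ) (a : ℝ), 0 ≤ a → Φ.I (fun x => a * (u k).fn x) =
      ENNReal.ofReal (Φ.φ (a * h k) * w k) := by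
    intro k a ha
    rw [← hI k a ha]
    refine Φ.I_congr ?_
    filter_upwards [hu k] with x hx
    rw [hx]
  have hnorm : ∀ k, ‖u k‖ = 1 := by
    intro k
    apply le_antisymm
    · rw [LPhi.norm_le_iff _ one_pos, hIu k _ (by norm_num), inv_one, one_mul, hwdef]
      simp only
      rw [mul_one_div_cancel (hφpos k).ne', ENNReal.ofReal_one]
    · by_contra hcon
      rw [not_le] at hcon
      set s : ℝ := max ‖u k‖ (1 / 2) with hs
      have hs0 : 0 < s := lt_of_lt_of_le (by norm_num) (le_max_right _ _)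
      have hs1 : s < 1 := max_lt hcon (by norm_num)
      have h1 := (LPhi.norm_le_iff (u k) hs0).1 (le_max_left _ _)
      rw [hIu k _ (inv_nonneg.2 hs0.le), ← ENNReal.ofReal_one,
        ENNReal.ofReal_le_ofReal_iff zero_le_one] at h1
      have h2 : Φ.φ (s⁻¹ * h k) ≤ Φ.φ (h k) := by
        rw [hwdef] at h1
        simp only at h1
        rwa [mul_one_div, div_le_one (hφpos k)] at h1
      have hpos2 : 0 < Φ.φ (s⁻¹ * h k) := hKD.pos _ (mul_pos (inv_pos.2 hs0) (hpos k))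
      have h3 := Φ.scale_le (x := s⁻¹ * h k) (a := s)
        (mul_pos (inv_pos.2 hs0) (hpos k)).le hs0.le hs1.le
      rw [← mul_assoc, mul_inv_cancel₀ hs0.ne', one_mul] at h3
      have h4 : s * Φ.φ (s⁻¹ * h k) < 1 * Φ.φ (s⁻¹ * h k) := mul_lt_mul_of_pos_right hs1 hpos2
      linarith
  have hdisj : DisjSeq u := by
    intro m n hmn
    unfold Disj
    filter_upwards [hu m, hu n] with x hm hn
    by_cases h1 : x ∈ AA w m
    · right
      rw [hn, indicator_of_notMem]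
      intro h2
      rcases lt_or_gt_of_ne hmn with h3 | h3
      · exact AA_disj hw h3 h1 h2
      · exact AA_disj hw h3 h2 h1
    · left
      rw [hm, indicator_of_notMem h1]
  obtain ⟨κ, hκ, K0, hK0, hequiv⟩ := hDH u hnorm hdisj
  set R : ℝ := max K0 K with hR
  have hR1 : 1 ≤ R := hK1.trans (le_max_right _ _)
  have hR0 : 0 < R := lt_of_lt_of_le one_pos hR1
  obtain ⟨N, hN, hosc⟩ := hKD.osc_up R hR1
  have hNr : (1 : ℝ) ≤ N := by exact_mod_cast hN
  have hsq : (1 : ℝ) ≤ √(N : ℝ) := by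
    rw [← Real.sqrt_one]
    exact Real.sqrt_le_sqrt hNr
  have hsq0 : 0 < √(N : ℝ) := lt_of_lt_of_le one_pos hsq
  set a : ℝ := 1 / (R * √(N : ℝ)) with hadef
  have ha0 : 0 < a := by positivity
  have ha1 : a ≤ 1 := by
    rw [hadef, div_le_one (by positivity)]
    nlinarith
  obtain ⟨m0, hm0⟩ := exists_nat_ge (-Real.log a)
  have hexp : ∀ k : ℕ, m0 ≤ k → Real.exp (-(k : ℝ)) ≤ a := by
    intro k hk
    have hk' : (m0 : ℝ) ≤ k := by exact_mod_cast hk
    calc Real.exp (-(k : ℝ)) ≤ Real.exp (Real.log a) := Real.exp_le_exp.2 (by linarith)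
      _ = a := Real.exp_log ha0
  set S : Finset ℕ := Finset.Ico m0 (m0 + N) with hS
  have hScard : S.card = N := by
    rw [hS, Nat.card_Ico]
    omega
  have hdisj' : DisjSeq fun k => u (κ k) := fun m n hmn =>
    hdisj _ _ fun h => hmn (hκ.injective h)
  have h1 := (hequiv S (fun _ => 1 / √(N : ℝ))).2
  have h2 : √(∑ k ∈ S, (1 / √(N : ℝ)) ^ 2) = 1 := by
    rw [Finset.sum_const, hScard, nsmul_eq_mul, div_pow, one_pow, Real.sq_sqrt (by linarith),
      mul_one_div_cancel (by linarith), Real.sqrt_one]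
  rw [h2, mul_one] at h1
  have h3 := (LPhi.norm_le_iff (∑ k ∈ S, (1 / √(N : ℝ)) • u (κ k)) hR0).1
    (h1.trans (le_max_left _ _))
  have h4 := hd Φ (fun k => u (κ k)) hdisj' S (fun _ => 1 / √(N : ℝ)) R⁻¹
  rw [h4] at h3
  have h5 : ∀ k ∈ S, ENNReal.ofReal (F a / K) ≤
      Φ.I (fun x => R⁻¹ * (1 / √(N : ℝ) * (u (κ k)).fn x)) := by
    intro k hk
    have hmk : m0 ≤ κ k := (Finset.mem_Ico.1 hk).1.trans (hκ.id_le k)
    have e1 : (fun x => R⁻¹ * (1 / √(N : ℝ) * (u (κ k)).fn x)) =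
        fun x => a * (u (κ k)).fn x := by
      ext x
      rw [hadef, ← mul_assoc]
      congr 1
      field_simp
    rw [e1, hIu _ a ha0.le]
    apply ENNReal.ofReal_le_ofReal
    have h6 := (hH (κ k) (h (κ k)) a (hpos _) (hHh _) (hD _) (hexp _ hmk) ha1).2
    rw [hwdef]
    simp only
    rw [mul_one_div, div_le_div_iff₀ (by linarith) (hφpos _)]
    linarith
  have h6 := (Finset.sum_le_sum h5).trans h3
  rw [Finset.sum_const, hScard, nsmul_eq_mul, ← ENNReal.ofReal_natCast,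
    ← ENNReal.ofReal_mul (by positivity), ← ENNReal.ofReal_one,
    ENNReal.ofReal_le_ofReal_iff zero_le_one, mul_div_assoc', div_le_one (by linarith)] at h6
  have h7 : K ≤ R := le_max_right _ _
  linarith

end Pool.Agent.T6.H48.KP
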