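import Pool.Agent.T6.H48.KP.Defs

/-! Module PERT of project KP. -/

namespace Pool.Agent.T6.H48.KP

open MeasureTheory Set Filter Topology
open scoped ENNReal

namespace ModPERT

variable {E : Type} [NormedAddCommGroup E] [NormedSpace ℝ E]

lemma shift {Ξ : ℝ → ℝ} {w : ℕ → E} {K : ℝ}
    (h : ∀ (s : Finset ℕ) (a : ℕ → ℝ), ‖∑ k ∈ s, a k • w k‖ ≤ 1 → ∑ k ∈ s, Ξ |a k| ≤ K) (j₀ : ℕ)
    (s : Finset ℕ) (a : ℕ → ℝ) (hs : ‖∑ k ∈ s, a k • w (k + j₀)‖ ≤ 1) :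
    ∑ k ∈ s, Ξ |a k| ≤ K := by
  have h1 := h (s.map (addRightEmbedding j₀)) (fun j => a (j - j₀))
  rw [Finset.sum_map, Finset.sum_map] at h1
  simp only [addRightEmbedding_apply, Nat.add_sub_cancel] at h1
  exact h1 hs

lemma coef {Ξ : ℝ → ℝ} (hΞ : GrowthFn Ξ) {w : ℕ → E} {K : ℝ}
    (h : ∀ (s : Finset ℕ) (a : ℕ → ℝ), ‖∑ k ∈ s, a k • w k‖ ≤ 1 → ∑ k ∈ s, Ξ |a k| ≤ K)
    (hK : 0 < K) (s : Finset ℕ) (a : ℕ → ℝ) (j : ℕ) (hj : j ∈ s) :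
    |a j| ≤ (1 + K) * ‖∑ k ∈ s, a k • w k‖ := by
  have base : ∀ b : ℕ → ℝ, ‖∑ k ∈ s, b k • w k‖ ≤ 1 → |b j| ≤ 1 + K := by
    intro b hb
    have h1 := h s b hb
    have h2 : Ξ |b j| ≤ ∑ k ∈ s, Ξ |b k| :=
      Finset.single_le_sum (f := fun k => Ξ |b k|) (fun k _ => hΞ.nonneg _) hj
    rcases le_or_gt 1 |b j| with h3 | h3
    · rw [hΞ.big _ h3] at h2
      nlinarith
    · linarith
  refine le_of_forall_pos_le_add fun e he => ?_
  set r : ℝ := ‖∑ k ∈ s, a k • w k‖ with hr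
  have hr0 : 0 ≤ r := norm_nonneg _
  set e' : ℝ := e / (1 + K) with he'
  have he'0 : 0 < e' := by positivity
  have hre : 0 < r + e' := by linarith
  have h1 := base (fun k => (r + e')⁻¹ * a k) (by
    have : ∑ k ∈ s, ((r + e')⁻¹ * a k) • w k = (r + e')⁻¹ • ∑ k ∈ s, a k • w k := by
      rw [Finset.smul_sum]
      exact Finset.sum_congr rfl fun k _ => by rw [smul_smul]
    rw [this, norm_smul, Real.norm_eq_abs, abs_of_pos (inv_pos.2 hre), inv_mul_le_iff₀ hre, ← hr]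
    linarith)
  simp only [abs_mul, abs_of_pos (inv_pos.2 hre)] at h1
  rw [inv_mul_le_iff₀ hre] at h1
  have h2 : (r + e') * (1 + K) = (1 + K) * r + e := by
    rw [he']; field_simp
  linarith

end ModPERT

theorem mPERT : StmPERT := by
  intro E _ _ Ξ z w hΞ hw hzw
  obtain ⟨K, hK, hL⟩ := hw
  -- choose `j₀`
  obtain ⟨j₀, hj₀⟩ : ∃ j₀ : ℕ, (1 / 4 : ℝ) ^ j₀ < 1 / (4 * (1 + K)) :=
    exists_pow_lt_of_lt_one (by positivity) (by norm_num)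
  refine ⟨j₀, (2 : ℝ) ^ (5 / 2 : ℝ) * K, by positivity, fun s a hs => ?_⟩
  have hLs := fun s a => ModPERT.shift hL j₀ s a
  set r : ℝ := ‖∑ k ∈ s, a k • w (k + j₀)‖ with hr
  have hr0 : 0 ≤ r := norm_nonneg _
  have h1 : r ≤ 2 := by
    have h2 : r ≤ ‖∑ k ∈ s, a k • z (k + j₀)‖ + ∑ k ∈ s, ‖a k • (w (k + j₀) - z (k + j₀))‖ := by
      have : ∑ k ∈ s, a k • w (k + j₀) =
          ∑ k ∈ s, a k • z (k + j₀) + ∑ k ∈ s, a k • (w (k + j₀) - z (k + j₀)) := by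
        rw [← Finset.sum_add_distrib]
        exact Finset.sum_congr rfl fun k _ => by rw [← smul_add]; congr 1; abel
      rw [hr, this]
      exact (norm_add_le _ _).trans (add_le_add le_rfl (norm_sum_le _ _))
    have h3 : ∑ k ∈ s, ‖a k • (w (k + j₀) - z (k + j₀))‖ ≤
        ∑ k ∈ s, (1 + K) * r * ((1 / 4) ^ j₀ * (1 / 4) ^ k) := by
      refine Finset.sum_le_sum fun k hk => ?_
      rw [norm_smul, Real.norm_eq_abs]
      have h4 := ModPERT.coef (w := fun k => w (k + j₀)) hΞ hLs hK s a k hk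
      have h5 : ‖w (k + j₀) - z (k + j₀)‖ ≤ (1 / 4) ^ j₀ * (1 / 4) ^ k := by
        rw [norm_sub_rev]
        refine (hzw _).trans (le_of_eq ?_)
        rw [← pow_add, add_comm]
      exact mul_le_mul h4 h5 (norm_nonneg _) (by positivity)
    have h6 : ∑ k ∈ s, (1 / 4 : ℝ) ^ k ≤ 4 / 3 := by
      have h7 : Summable fun k : ℕ => (1 / 4 : ℝ) ^ k :=
        summable_geometric_of_lt_one (by norm_num) (by norm_num)
      have h8 := h7.sum_le_tsum s (fun k _ => by positivity)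
      rw [tsum_geometric_of_lt_one (by norm_num) (by norm_num)] at h8
      norm_num at h8 ⊢
      exact h8
    have h9 : ∑ k ∈ s, (1 + K) * r * ((1 / 4 : ℝ) ^ j₀ * (1 / 4) ^ k) ≤ r / 2 := by
      have : ∑ k ∈ s, (1 + K) * r * ((1 / 4 : ℝ) ^ j₀ * (1 / 4) ^ k)
          = (1 + K) * r * (1 / 4 : ℝ) ^ j₀ * ∑ k ∈ s, (1 / 4 : ℝ) ^ k := by
        rw [Finset.mul_sum]
        exact Finset.sum_congr rfl fun k _ => by ring
      rw [this]
      have h10 : (1 + K) * (1 / 4 : ℝ) ^ j₀ ≤ 1 / 4 := by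
        rw [lt_div_iff₀ (by positivity)] at hj₀
        linarith
      have h11 : (1 + K) * r * (1 / 4 : ℝ) ^ j₀ ≤ r * (1 / 4) := by
        have := mul_le_mul_of_nonneg_left h10 hr0
        linarith
      calc (1 + K) * r * (1 / 4 : ℝ) ^ j₀ * ∑ k ∈ s, (1 / 4 : ℝ) ^ k
          ≤ r * (1 / 4) * (4 / 3) := by
            apply mul_le_mul h11 h6 (Finset.sum_nonneg fun k _ => by positivity) (by positivity)
        _ ≤ r / 2 := by linarith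
    linarith
  have h2 : ∑ k ∈ s, Ξ |1 / 2 * a k| ≤ K := by
    apply hLs s (fun k => 1 / 2 * a k)
    have : ∑ k ∈ s, (1 / 2 * a k) • w (k + j₀) = (1 / 2 : ℝ) • ∑ k ∈ s, a k • w (k + j₀) := by
      rw [Finset.smul_sum]
      exact Finset.sum_congr rfl fun k _ => by rw [smul_smul]
    rw [this, norm_smul, Real.norm_eq_abs, abs_of_pos (by norm_num : (0 : ℝ) < 1 / 2), ← hr]
    linarith
  have h3 : ∀ k ∈ s, Ξ |a k| ≤ (2 : ℝ) ^ (5 / 2 : ℝ) * Ξ |1 / 2 * a k| := by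
    intro k _
    have h4 := (hΞ.growth (1 / 2) |a k| (by norm_num) (by norm_num) (abs_nonneg _)).2
    rw [abs_mul, abs_of_pos (by norm_num : (0 : ℝ) < 1 / 2)]
    have h5 : (2 : ℝ) ^ (5 / 2 : ℝ) * (1 / 2 : ℝ) ^ (5 / 2 : ℝ) = 1 := by
      rw [← Real.mul_rpow (by norm_num) (by norm_num)]
      norm_num
    calc Ξ |a k| = (2 : ℝ) ^ (5 / 2 : ℝ) * ((1 / 2 : ℝ) ^ (5 / 2 : ℝ) * Ξ |a k|) := by
          rw [← mul_assoc, h5, one_mul]
      _ ≤ _ := mul_le_mul_of_nonneg_left h4 (by positivity)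
  calc ∑ k ∈ s, Ξ |a k| ≤ ∑ k ∈ s, (2 : ℝ) ^ (5 / 2 : ℝ) * Ξ |1 / 2 * a k| :=
        Finset.sum_le_sum h3
    _ = (2 : ℝ) ^ (5 / 2 : ℝ) * ∑ k ∈ s, Ξ |1 / 2 * a k| := by rw [Finset.mul_sum]
    _ ≤ (2 : ℝ) ^ (5 / 2 : ℝ) * K := mul_le_mul_of_nonneg_left h2 (by positivity)

end Pool.Agent.T6.H48.KP
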