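import Pool.Agent.T6.H48.KP.Defs

/-! Module PHIB of project KP. -/

namespace Pool.Agent.T6.H48.KP

open MeasureTheory Set Filter Topology
open scoped ENNReal

namespace ModPHIB

lemma log_lip (y y' : ℝ) (hy : 0 ≤ y) (hy' : 0 ≤ y') :
    |Real.log (1 + y) - Real.log (1 + y')| ≤ |y - y'| := by
  have key : ∀ a b : ℝ, 0 ≤ a → a ≤ b → |Real.log (1 + a) - Real.log (1 + b)| ≤ |a - b| := by
    intro a b ha hab
    have hb : 0 ≤ b := ha.trans hab
    have h1 : Real.log (1 + a) ≤ Real.log (1 + b) :=
      Real.log_le_log (by linarith) (by linarith)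
    rw [abs_of_nonpos (by linarith), abs_of_nonpos (by linarith)]
    have h2 : Real.log ((1 + b) / (1 + a)) ≤ (1 + b) / (1 + a) - 1 :=
      Real.log_le_sub_one_of_pos (by positivity)
    rw [Real.log_div (by positivity) (by positivity)] at h2
    have h3 : (1 + b) / (1 + a) - 1 ≤ b - a := by
      have h4 : (1 + b) / (1 + a) - 1 = (b - a) / (1 + a) := by field_simp; ring
      rw [h4]
      exact div_le_self (by linarith) (by linarith)
    linarith
  rcases le_total y y' with h | h
  · exact key y y' hy h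
  · rw [abs_sub_comm, abs_sub_comm y y']
    exact key y' y hy' h

section
variable (hv : StmVV) (hd : StmDDIS)
include hv hd

lemma ww_lip (x x' : ℝ) : |ww x - ww x'| ≤ 1 / 2 * |x - x'| := by
  have h1 := hv.2.1 (dd x) (dd x') (hd.2.1 x) (hd.2.1 x')
  have h2 := log_lip (dd x) (dd x') (hd.2.1 x) (hd.2.1 x')
  have h3 := hd.1 x x'
  unfold ww
  linarith

lemma ww_cont : Continuous ww := by
  refine Metric.continuous_iff.2 fun b ε hε => ⟨ε, hε, fun a ha => ?_⟩
  rw [Real.dist_eq] at ha ⊢
  have := ww_lip hv hd a b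
  have := abs_nonneg (a - b)
  linarith

lemma ww_mono {x y : ℝ} (hxy : x ≤ y) : ww x - (y - x) / 2 ≤ ww y ∧ ww y ≤ ww x + (y - x) / 2 := by
  have h := ww_lip hv hd x y
  rw [abs_of_nonpos (by linarith : x - y ≤ 0)] at h
  have h' := abs_le.1 h
  constructor <;> linarith [h'.1, h'.2]

omit hv hd in
lemma psi0_pos {s : ℝ} (hs : 0 < s) : psi0 s = Real.exp (Real.log s + ww (Real.log s)) := by
  unfold psi0
  rw [if_neg (not_le.2 hs), Real.exp_add, Real.exp_log hs]

omit hv hd in
lemma psi0_nonpos {s : ℝ} (hs : s ≤ 0) : psi0 s = 0 := by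
  unfold psi0
  rw [if_pos hs]

omit hv hd in
lemma psi0_nonneg (s : ℝ) : 0 ≤ psi0 s := by
  rcases le_or_gt s 0 with h | h
  · rw [psi0_nonpos h]
  · rw [psi0_pos h]; positivity

lemma psi0_mono : Monotone psi0 := by
  intro s t hst
  rcases le_or_gt s 0 with h | h
  · rw [psi0_nonpos h]; exact psi0_nonneg t
  · have ht : 0 < t := h.trans_le hst
    rw [psi0_pos h, psi0_pos ht]
    apply Real.exp_le_exp.2
    have h1 := Real.log_le_log h hst
    have h2 := (ww_mono hv hd h1).1
    linarith

/-- lower and upper bound of the derivative -/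
lemma psi0_bounds {s t : ℝ} (hs : 0 ≤ s) (hst : s ≤ t) (ht : 0 < t) :
    Real.exp (ww (Real.log t)) * t ^ (-(1 / 2) : ℝ) * s ^ (3 / 2 : ℝ) ≤ psi0 s ∧
    psi0 s ≤ Real.exp (ww (Real.log t)) * t ^ (1 / 2 : ℝ) * s ^ (1 / 2 : ℝ) := by
  rcases hs.eq_or_lt with h | h
  · rw [← h, psi0_nonpos le_rfl, Real.zero_rpow (by norm_num), Real.zero_rpow (by norm_num)]
    simp
  · have h1 := Real.log_le_log h hst
    obtain ⟨h2, h3⟩ := ww_mono hv hd h1
    rw [psi0_pos h, Real.rpow_def_of_pos ht, Real.rpow_def_of_pos h, Real.rpow_def_of_pos ht,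
      Real.rpow_def_of_pos h, ← Real.exp_add, ← Real.exp_add, ← Real.exp_add, ← Real.exp_add]
    constructor
    · apply Real.exp_le_exp.2; linarith
    · apply Real.exp_le_exp.2; linarith

lemma psi0_cont : Continuous psi0 := by
  rw [continuous_iff_continuousAt]
  intro s
  rcases lt_trichotomy s 0 with h | h | h
  · have : psi0 =ᶠ[𝓝 s] fun _ => 0 := by
      filter_upwards [gt_mem_nhds h] with x hx
      exact psi0_nonpos hx.le
    exact (continuousAt_const (y := (0 : ℝ))).congr this.symm
  · subst h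
    rw [ContinuousAt, psi0_nonpos le_rfl]
    have hup : Tendsto (fun s : ℝ => Real.exp (ww (Real.log 1)) * (1 : ℝ) ^ (1 / 2 : ℝ) *
        (max s 0) ^ (1 / 2 : ℝ)) (𝓝 0) (𝓝 0) := by
      have hc : Continuous fun s : ℝ => Real.exp (ww (Real.log 1)) * (1 : ℝ) ^ (1 / 2 : ℝ) *
          (max s 0) ^ (1 / 2 : ℝ) := by
        refine continuous_const.mul ?_
        exact (continuous_id.max continuous_const).rpow_const fun x => Or.inr (by norm_num)
      have := hc.tendsto 0
      simpa [Real.zero_rpow] using this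
    refine tendsto_of_tendsto_of_tendsto_of_le_of_le' tendsto_const_nhds hup
      (Eventually.of_forall fun s => psi0_nonneg s) ?_
    filter_upwards [gt_mem_nhds (zero_lt_one (α := ℝ))] with x hx
    rcases le_total x 0 with hx0 | hx0
    · rw [psi0_nonpos hx0]
      positivity
    · rw [max_eq_left hx0]
      exact (psi0_bounds hv hd hx0 hx.le one_pos).2
  · have : psi0 =ᶠ[𝓝 s] fun x => Real.exp (Real.log x + ww (Real.log x)) := by
      filter_upwards [lt_mem_nhds h] with x hx
      exact psi0_pos hx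
    refine ContinuousAt.congr ?_ this.symm
    have hl := Real.continuousAt_log h.ne'
    exact (hl.add ((ww_cont hv hd).continuousAt.comp hl)).rexp

lemma phi0_deriv (t : ℝ) : HasDerivAt phi0 (psi0 t) t :=
  ((psi0_cont hv hd).integral_hasStrictDerivAt 0 t).hasDerivAt

end

end ModPHIB

theorem mPHIB (hv : StmVV) (hd : StmDDIS) : StmPHIB := by
  have hder := ModPHIB.phi0_deriv hv hd
  have hcont := ModPHIB.psi0_cont hv hd
  have hdiff : Differentiable ℝ phi0 := fun t => (hder t).differentiableAt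
  have hd' : deriv phi0 = psi0 := funext fun t => (hder t).deriv
  refine ⟨fun t ht => ?_, ?_, ?_, hdiff.continuous.continuousOn, ?_⟩
  · constructor
    · have h1 : ∫ s in (0:ℝ)..t, Real.exp (ww (Real.log t)) * t ^ (-(1 / 2) : ℝ) * s ^ (3 / 2 : ℝ)
          ≤ phi0 t := by
        unfold phi0
        refine intervalIntegral.integral_mono_on ht.le ?_ (hcont.intervalIntegrable _ _)
          fun s hs => (ModPHIB.psi0_bounds hv hd hs.1 hs.2 ht).1
        exact (intervalIntegral.intervalIntegrable_rpow' (by norm_num)).const_mul _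
      rw [intervalIntegral.integral_const_mul, integral_rpow (Or.inl (by norm_num)),
        Real.zero_rpow (by norm_num)] at h1
      have h2 : t ^ (-(1 / 2) : ℝ) * t ^ (3 / 2 + 1 : ℝ) = t ^ 2 := by
        rw [← Real.rpow_add ht]
        norm_num
      have h3 : Real.exp (ww (Real.log t)) * t ^ (-(1 / 2) : ℝ) *
          ((t ^ (3 / 2 + 1 : ℝ) - 0) / (3 / 2 + 1)) =
          Real.exp (ww (Real.log t)) * (t ^ (-(1 / 2) : ℝ) * t ^ (3 / 2 + 1 : ℝ)) * (2 / 5) := by
        ring
      rw [h3, h2] at h1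
      linarith
    · have h1 : phi0 t ≤ ∫ s in (0:ℝ)..t, Real.exp (ww (Real.log t)) * t ^ (1 / 2 : ℝ) *
          s ^ (1 / 2 : ℝ) := by
        unfold phi0
        refine intervalIntegral.integral_mono_on ht.le (hcont.intervalIntegrable _ _) ?_
          fun s hs => (ModPHIB.psi0_bounds hv hd hs.1 hs.2 ht).2
        exact (intervalIntegral.intervalIntegrable_rpow' (by norm_num)).const_mul _
      rw [intervalIntegral.integral_const_mul, integral_rpow (Or.inl (by norm_num)),
        Real.zero_rpow (by norm_num)] at h1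
      have h2 : t ^ (1 / 2 : ℝ) * t ^ (1 / 2 + 1 : ℝ) = t ^ 2 := by
        rw [← Real.rpow_add ht]
        norm_num
      have h3 : Real.exp (ww (Real.log t)) * t ^ (1 / 2 : ℝ) *
          ((t ^ (1 / 2 + 1 : ℝ) - 0) / (1 / 2 + 1)) =
          Real.exp (ww (Real.log t)) * (t ^ (1 / 2 : ℝ) * t ^ (1 / 2 + 1 : ℝ)) * (2 / 3) := by
        ring
      rw [h3, h2] at h1
      linarith
  · have h1 : ConvexOn ℝ univ phi0 := by
      apply Monotone.convexOn_univ_of_deriv hdiff
      rw [hd']
      exact ModPHIB.psi0_mono hv hd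
    exact h1.subset (subset_univ _) (convex_Ici 0)
  · have h1 : Monotone phi0 := by
      apply monotone_of_deriv_nonneg hdiff
      intro x
      rw [hd']
      exact ModPHIB.psi0_nonneg x
    exact h1.monotoneOn _
  · unfold phi0
    exact intervalIntegral.integral_same

end Pool.Agent.T6.H48.KP
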