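import Pool.Agent.T6.H48.KP.Defs

/-!
Project KP (helper48), MP_8301f5_an: module SEPA (helper80).
-/

namespace Pool.Agent.T6.H48.KP

open MeasureTheory Set Filter Topology
open scoped ENNReal

theorem mSEPA : StmSEPA := by
  intro E _ _ _ T hT
  have hnt : ¬ TotallyBounded (T '' Metric.closedBall (0 : E) 1) := by
    intro htb
    apply hT
    refine (isCompactOperator_iff_isCompact_closure_image_closedBall T.toLinearMap one_pos).2 ?_
    exact isCompact_iff_totallyBounded_isComplete.2 ⟨htb.closure, isClosed_closure.isComplete⟩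
  rw [Metric.totallyBounded_iff] at hnt
  push Not at hnt
  obtain ⟨δ, hδ, h⟩ := hnt
  have key := exists_seq_of_forall_finset_exists (α := E) (fun x => ‖x‖ ≤ 1)
    (fun x y => δ ≤ ‖T x - T y‖) (by
      intro s hs
      have h1 := h (T '' (s : Set E)) (s.finite_toSet.image T)
      obtain ⟨z, hz, hz2⟩ := not_subset.1 h1
      obtain ⟨y, hy, rfl⟩ := hz
      refine ⟨y, by simpa using hy, fun x hx => ?_⟩
      by_contra hcon
      push Not at hcon
      apply hz2
      simp only [mem_iUnion]
      refine ⟨T x, ⟨x, hx, rfl⟩, ?_⟩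
      rw [Metric.mem_ball, dist_eq_norm, norm_sub_rev]
      exact hcon)
  obtain ⟨f, hf1, hf2⟩ := key
  refine ⟨δ, hδ, f, hf1, fun m n hmn => ?_⟩
  rcases lt_or_gt_of_ne hmn with h | h
  · exact hf2 m n h
  · rw [norm_sub_rev]
    exact hf2 n m h

end Pool.Agent.T6.H48.KP
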