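import Pool.Agent.T6.H48.KP.Defs

/-!
Project KP (helper48), MP_8301f5_an: module SPLI (helper41).
-/

namespace Pool.Agent.T6.H48.KP

open MeasureTheory Set Filter Topology
open scoped ENNReal

namespace ModSPLI

variable {Φ : OrliczFun}

theorem cut_add_compl (f : LPhi Φ) {A : Set ℝ} (hA : MeasurableSet A) :
    f.cut A + f.cut Aᶜ = f := by
  apply LPhi.ext_ae
  filter_upwards [LPhi.fn_add (f.cut A) (f.cut Aᶜ), f.fn_cut hA, f.fn_cut hA.compl] with x h1 h2 h3
  rw [h1, h2, h3]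
  by_cases hx : x ∈ A
  · rw [indicator_of_mem hx, indicator_of_notMem (by simpa using hx), add_zero]
  · rw [indicator_of_notMem hx, indicator_of_mem (by simpa using hx), zero_add]

end ModSPLI

open ModSPLI in
theorem mSPLI (_hc : StmCOMPL) (ht : StmTOTB) : StmSPLI := by
  intro Φ F D hK T δ f hδ hf hT
  have hm : ∀ (M : ℝ) (n : ℕ), MeasurableSet {x | |(f n).fn x| ≤ M} := fun M n =>
    measurableSet_le (continuous_abs.measurable.comp (f n).fn_meas) measurable_const
  obtain ⟨ht1, ht2⟩ := ht (LPhi Φ)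
  by_cases h : ∃ M : ℕ, ¬ TotallyBounded (range fun n => T ((f n).cut {x | |(f n).fn x| ≤ (M : ℝ)}))
  · obtain ⟨M, hM⟩ := h
    obtain ⟨δ', hδ', κ, hκ, hk⟩ := ht1 _ hM
    left
    refine ⟨M, δ', hδ', fun n => (f (κ n)).cut {x | |(f (κ n)).fn x| ≤ (M : ℝ)},
      fun n => (LPhi.norm_cut_le _ (hm _ _)).trans (hf _), fun n => ?_, hk⟩
    filter_upwards [(f (κ n)).fn_cut (hm M (κ n))] with x hx
    rw [hx]
    by_cases h : x ∈ {x | |(f (κ n)).fn x| ≤ (M : ℝ)}
    · rw [indicator_of_mem h]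
      exact h
    · rw [indicator_of_notMem h, abs_zero]
      exact Nat.cast_nonneg M
  · push Not at h
    obtain ⟨κ, hκ, hk⟩ := ht2 (fun M n => T ((f n).cut {x | |(f n).fn x| ≤ (M : ℝ)})) h
    right
    have key : ∀ M : ℕ, ∃ n : ℕ, δ / 4 ≤ ‖T ((f n).cut {x | |(f n).fn x| ≤ (M : ℝ)}ᶜ)‖ := by
      intro M
      by_contra hcon
      push Not at hcon
      obtain ⟨N, hN⟩ := Metric.cauchySeq_iff.1 (hk M) (δ / 2) (by positivity)
      have h1 := hN N le_rfl (N + 1) (Nat.le_succ N)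
      rw [dist_eq_norm] at h1
      have hne : κ N ≠ κ (N + 1) := fun h => (Nat.succ_ne_self N) (hκ.injective h).symm
      have h2 := hT (κ N) (κ (N + 1)) hne
      have h3 : ∀ n, T (f n) = T ((f n).cut {x | |(f n).fn x| ≤ (M : ℝ)}) +
          T ((f n).cut {x | |(f n).fn x| ≤ (M : ℝ)}ᶜ) := fun n => by
        rw [← map_add, cut_add_compl (f n) (hm M n)]
      rw [h3 (κ N), h3 (κ (N + 1))] at h2
      have h4 := hcon (κ N)
      have h5 := hcon (κ (N + 1))
      set a := T ((f (κ N)).cut {x | |(f (κ N)).fn x| ≤ (M : ℝ)})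
      set b := T ((f (κ N)).cut {x | |(f (κ N)).fn x| ≤ (M : ℝ)}ᶜ)
      set c := T ((f (κ (N + 1))).cut {x | |(f (κ (N + 1))).fn x| ≤ (M : ℝ)})
      set d := T ((f (κ (N + 1))).cut {x | |(f (κ (N + 1))).fn x| ≤ (M : ℝ)}ᶜ)
      have h6 : a + b - (c + d) = (a - c) + (b - d) := by abel
      rw [h6] at h2
      have h7 := h2.trans ((norm_add_le _ _).trans (add_le_add_right (norm_sub_le b d) _))
      linarith
    choose ν hν using key
    refine ⟨δ / 4, by positivity, fun M => (f (ν M)).cut {x | |(f (ν M)).fn x| ≤ (M : ℝ)}ᶜ,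
      fun M => (LPhi.norm_cut_le _ (hm _ _).compl).trans (hf _), fun M => ?_, hν⟩
    filter_upwards [(f (ν M)).fn_cut (hm M (ν M)).compl] with x hx
    rw [hx]
    by_cases h : x ∈ {x | |(f (ν M)).fn x| ≤ (M : ℝ)}ᶜ
    · right
      rw [indicator_of_mem h]
      simpa using h
    · left
      rw [indicator_of_notMem h]

end Pool.Agent.T6.H48.KP
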