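import Pool.Agent.T6.H48.KP.Defs

namespace Pool.Agent.T6.H48.KP

open MeasureTheory Set Filter Topology
open scoped ENNReal

namespace ModSRCE

variable {Φ : OrliczFun}

theorem high_cut {u : ℕ → LPhi Φ} (hu : High u) {κ : ℕ → ℕ} (hκ : StrictMono κ)
    {A : ℕ → Set ℝ} (hA : ∀ j, MeasurableSet (A j)) : High fun j => (u (κ j)).cut (A j) := by
  intro k
  filter_upwards [hu (κ k), (u (κ k)).fn_cut (hA k)] with x hx hx'
  rw [hx']
  by_cases hxA : x ∈ A k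
  · rw [indicator_of_mem hxA]
    rcases hx with h | h
    · exact Or.inl h
    · refine Or.inr (lt_of_le_of_lt ?_ h)
      exact_mod_cast hκ.id_le k
  · rw [indicator_of_notMem hxA]
    exact Or.inl rfl

theorem disj_cut (u : ℕ → LPhi Φ) {κ : ℕ → ℕ}
    {A : ℕ → Set ℝ} (hA : ∀ j, MeasurableSet (A j)) (hd : ∀ i j, i ≠ j → Disjoint (A i) (A j)) :
    DisjSeq fun j => (u (κ j)).cut (A j) := by
  intro m n hmn
  filter_upwards [(u (κ m)).fn_cut (hA m), (u (κ n)).fn_cut (hA n)] with x hx hx'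
  by_cases hxA : x ∈ A m
  · right
    rw [hx', indicator_of_notMem]
    exact fun h => (Set.disjoint_left.1 (hd m n hmn)) hxA h
  · left
    rw [hx, indicator_of_notMem hxA]

theorem disj_sub {u : ℕ → LPhi Φ} (hu : DisjSeq u) {κ : ℕ → ℕ} (hκ : StrictMono κ) :
    DisjSeq fun j => u (κ j) := fun m n hmn => hu _ _ (fun h => hmn (hκ.injective h))

end ModSRCE

open ModSRCE in
theorem mSRCE (hc : StmCOMPL) (h1 : StmSEPA) (h2 : StmSPLI) (h3 : StmBDDS) (h4 : StmDISJ)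
    (h5 : StmCASE) (h6 : StmSRCF) (h7 : StmSRCS) (h8 : StmWNUL) : StmSRCE := by
  intro Φ F D hK T hT
  have := hc Φ
  obtain ⟨δ, hδ, f, hf, hsep⟩ := h1 (LPhi Φ) T hT
  rcases h2 Φ F D hK T δ f hδ hf hsep with ⟨M, δ', hδ', g, hg, hgM, hgs⟩ |
    ⟨δ', hδ', u, hu, hhigh, hTu⟩
  · obtain ⟨y, hy, hup, hTy, hw⟩ := h3 Φ F D hK T M δ' g hδ' hg hgM hgs
    exact ⟨y, δ', hδ', hy, Or.inl hup, hTy, hw⟩
  · have hT0 : 0 ≤ ‖T‖ := norm_nonneg _
    have hεpos : 0 < δ' / (2 * (‖T‖ + 1)) := by positivity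
    obtain ⟨κ, hκ, A, hA, hdisj, hε⟩ := h4 Φ F D hK u 1 (fun _ => δ' / (2 * (‖T‖ + 1))) hu hhigh
      (fun _ => hεpos)
    have hTv : ∀ j, δ' / 2 ≤ ‖T ((u (κ j)).cut (A j))‖ := by
      intro j
      have e1 : T (u (κ j)) = T (u (κ j) - (u (κ j)).cut (A j)) + T ((u (κ j)).cut (A j)) := by
        rw [← map_add, sub_add_cancel]
      have e2 : ‖T (u (κ j) - (u (κ j)).cut (A j))‖ ≤ δ' / 2 := by
        refine (T.le_opNorm _).trans ?_
        calc ‖T‖ * ‖u (κ j) - (u (κ j)).cut (A j)‖ ≤ ‖T‖ * (δ' / (2 * (‖T‖ + 1))) := by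
              gcongr
              exact hε j
          _ ≤ (‖T‖ + 1) * (δ' / (2 * (‖T‖ + 1))) := by
              gcongr
              linarith
          _ = δ' / 2 := by field_simp
      have e3 := hTu (κ j)
      rw [e1] at e3
      have e4 := e3.trans (norm_add_le _ _)
      linarith
    have hv1 : ∀ j, ‖(u (κ j)).cut (A j)‖ ≤ 1 := fun j =>
      ((u (κ j)).norm_cut_le (hA j)).trans (hu _)
    obtain ⟨κ', hκ', A', hA', hH', hD', ⟨δ'', hδ'', hTw⟩, hcase⟩ := h5 Φ F D hK T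
      (fun j => (u (κ j)).cut (A j)) (δ' / 2) (by positivity) hTv (high_cut hhigh hκ hA)
      (disj_cut u hA hdisj)
    have hw1 : ∀ j, ‖((u (κ (κ' j))).cut (A (κ' j))).cut (A' j)‖ ≤ 1 := fun j =>
      (LPhi.norm_cut_le _ (hA' j)).trans (hv1 _)
    rcases hcase with ⟨M, hM⟩ | hflat
    · obtain ⟨κ'', hκ'', hup⟩ := h6 Φ F D hK _ 1 M hw1 hH' hD' hM
      exact ⟨_, δ'', hδ'', fun n => (hw1 (κ'' n)).trans (by norm_num), Or.inr hup,
        fun n => hTw (κ'' n), h8 Φ F D hK T _ 1 (fun n => hw1 (κ'' n)) (disj_sub hD' hκ'')⟩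
    · obtain ⟨κ'', hκ'', hup⟩ := h7 Φ F D hK _ 1 hw1 hD' hflat
      exact ⟨_, δ'', hδ'', fun n => (hw1 (κ'' n)).trans (by norm_num), Or.inl hup,
        fun n => hTw (κ'' n), h8 Φ F D hK T _ 1 (fun n => hw1 (κ'' n)) (disj_sub hD' hκ'')⟩

end Pool.Agent.T6.H48.KP
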