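import Pool.Agent.T6.H48.KP.Defs

/-!
Project KP (helper48), MP_8301f5_an: module SRCF (helper41).
-/

namespace Pool.Agent.T6.H48.KP

open MeasureTheory Set Filter Topology
open scoped ENNReal

namespace ModSRCF

variable {Φ : OrliczFun}

theorem F_abs_le_one {F : ℝ → ℝ} (hF : GrowthFn F) {s : Finset ℕ} {a : ℕ → ℝ}
    (h : ∑ k ∈ s, F |a k| ≤ 1) {k : ℕ} (hk : k ∈ s) : |a k| ≤ 1 := by
  by_contra hcon
  push Not at hcon
  have h1 : F |a k| ≤ ∑ k ∈ s, F |a k| :=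
    Finset.single_le_sum (f := fun k => F |a k|) (fun i _ => hF.nonneg _) hk
  have h2 := hF.big _ hcon.le
  nlinarith

theorem exp_le_half_pow (j : ℕ) : Real.exp (-(3 / 2 * (j : ℝ))) ≤ (1 / 2) ^ j := by
  have h1 : Real.exp (-(3 / 2 * (j : ℝ))) = Real.exp (-(3 / 2)) ^ j := by
    rw [← Real.exp_nat_mul]
    ring_nf
  rw [h1]
  apply pow_le_pow_left₀ (Real.exp_pos _).le
  rw [Real.exp_neg, ← one_div]
  apply one_div_le_one_div_of_le (by norm_num)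
  have := Real.add_one_le_exp (3 / 2 : ℝ)
  linarith

/-- the pointwise estimate -/
theorem point {F D : ℝ → ℝ} {K1 K2 M H B A : ℝ} (hK1 : 1 ≤ K1) (hK2 : 1 ≤ K2) (hB : 1 ≤ B)
    (hF : GrowthFn F)
    (hf : ∀ h a : ℝ, 0 < h → H ≤ h → D h ≤ M → Real.exp (-A) ≤ a → a ≤ 1 →
      Φ.φ (a * h) ≤ K1 * F a * Φ.φ h ∧ F a * Φ.φ h ≤ K1 * Φ.φ (a * h))
    (hg : ∀ h a : ℝ, 0 < h → 0 < a → a ≤ 1 →
      Φ.φ (a * h) ≤ K2 * a ^ (3 / 2 : ℝ) * Φ.φ h ∧ a ^ (5 / 2 : ℝ) * Φ.φ h ≤ K2 * Φ.φ (a * h))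
    {y a : ℝ} (ha : |a| ≤ 1) (hy : y = 0 ∨ (H ≤ |y| ∧ D |y| ≤ M)) :
    Φ.φ |B⁻¹ * (a * y)| ≤ (K1 * K2 * B ^ (5 / 2 : ℝ) * F |a| + K2 * Real.exp (-(3 / 2 * A))) *
      Φ.φ |B⁻¹ * y| := by
  have hB0 : 0 < B := by linarith
  have hF0 := hF.nonneg |a|
  have hφ0 : 0 ≤ Φ.φ |B⁻¹ * y| := Φ.nonneg (abs_nonneg _)
  have hC0 : 0 ≤ K1 * K2 * B ^ (5 / 2 : ℝ) * F |a| := by positivity
  have hE0 : 0 ≤ K2 * Real.exp (-(3 / 2 * A)) := by positivity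
  by_cases ha0 : a = 0
  · rw [ha0]
    simp only [zero_mul, mul_zero, abs_zero, Φ.zero']
    rw [hF.zero, mul_zero, zero_add]
    positivity
  have hapos : 0 < |a| := abs_pos.2 ha0
  by_cases hy0 : y = 0
  · rw [hy0]
    simp only [mul_zero, abs_zero, Φ.zero']
    exact le_rfl
  have hypos : 0 < |y| := abs_pos.2 hy0
  rcases hy with hy | ⟨hyH, hyM⟩
  · exact absurd hy hy0
  have e1 : |B⁻¹ * (a * y)| = |a| * (B⁻¹ * |y|) := by
    rw [abs_mul, abs_mul, abs_of_pos (inv_pos.2 hB0)]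
    ring
  have e2 : |B⁻¹ * y| = B⁻¹ * |y| := by
    rw [abs_mul, abs_of_pos (inv_pos.2 hB0)]
  rw [e1, e2]
  rw [e2] at hφ0
  rcases le_total (Real.exp (-A)) |a| with hA | hA
  · have h1 : Φ.φ (|a| * (B⁻¹ * |y|)) ≤ Φ.φ (|a| * |y|) := by
      apply Φ.mono (by positivity)
      have : B⁻¹ ≤ 1 := inv_le_one_of_one_le₀ hB
      have h2 : B⁻¹ * |y| ≤ 1 * |y| := mul_le_mul_of_nonneg_right this hypos.le
      rw [one_mul] at h2
      exact mul_le_mul_of_nonneg_left h2 hapos.le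
    have h2 := (hf |y| |a| hypos hyH hyM hA ha).1
    have h3 := (hg |y| B⁻¹ hypos (inv_pos.2 hB0) (inv_le_one_of_one_le₀ hB)).2
    have h4 : Φ.φ |y| ≤ K2 * B ^ (5 / 2 : ℝ) * Φ.φ (B⁻¹ * |y|) := by
      have hBp : 0 < B ^ (5 / 2 : ℝ) := Real.rpow_pos_of_pos hB0 _
      rw [Real.inv_rpow hB0.le, inv_mul_le_iff₀ hBp] at h3
      calc Φ.φ |y| ≤ B ^ (5 / 2 : ℝ) * (K2 * Φ.φ (B⁻¹ * |y|)) := h3
        _ = K2 * B ^ (5 / 2 : ℝ) * Φ.φ (B⁻¹ * |y|) := by ring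
    calc Φ.φ (|a| * (B⁻¹ * |y|)) ≤ K1 * F |a| * Φ.φ |y| := h1.trans h2
      _ ≤ K1 * F |a| * (K2 * B ^ (5 / 2 : ℝ) * Φ.φ (B⁻¹ * |y|)) := by gcongr
      _ = K1 * K2 * B ^ (5 / 2 : ℝ) * F |a| * Φ.φ (B⁻¹ * |y|) := by ring
      _ ≤ (K1 * K2 * B ^ (5 / 2 : ℝ) * F |a| + K2 * Real.exp (-(3 / 2 * A))) *
          Φ.φ (B⁻¹ * |y|) := by
          gcongr
          linarith
  · have h1 := (hg (B⁻¹ * |y|) |a| (by positivity) hapos ha).1
    have h2 : |a| ^ (3 / 2 : ℝ) ≤ Real.exp (-(3 / 2 * A)) := by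
      calc |a| ^ (3 / 2 : ℝ) ≤ Real.exp (-A) ^ (3 / 2 : ℝ) :=
            Real.rpow_le_rpow hapos.le hA (by norm_num)
        _ = Real.exp (-(3 / 2 * A)) := by
            rw [← Real.exp_mul]
            ring_nf
    calc Φ.φ (|a| * (B⁻¹ * |y|)) ≤ K2 * |a| ^ (3 / 2 : ℝ) * Φ.φ (B⁻¹ * |y|) := h1
      _ ≤ K2 * Real.exp (-(3 / 2 * A)) * Φ.φ (B⁻¹ * |y|) := by gcongr
      _ ≤ (K1 * K2 * B ^ (5 / 2 : ℝ) * F |a| + K2 * Real.exp (-(3 / 2 * A))) *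
          Φ.φ (B⁻¹ * |y|) := by
          gcongr
          linarith

end ModSRCF

open ModSRCF in
theorem mSRCF (hm : StmMODN) (hd : StmDSUM) : StmSRCF := by
  intro Φ F D hK u B M hu hH hD hFt
  set B' : ℝ := max B 1 with hB'
  have hB1 : 1 ≤ B' := le_max_right _ _
  have hB0 : 0 < B' := by linarith
  obtain ⟨K1, hK1, hfeat⟩ := hK.feat M
  obtain ⟨K2, hK2, hgrow⟩ := hK.growth
  choose Hh hHh using hfeat
  have hex : ∀ j : ℕ, ∀ᶠ k : ℕ in atTop, Hh j ≤ (k : ℝ) := fun j =>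
    (tendsto_natCast_atTop_atTop (R := ℝ)).eventually_ge_atTop (Hh j)
  obtain ⟨κ, hκ, hk⟩ := Filter.extraction_forall_of_eventually
    (P := fun (n k : ℕ) => Hh n ≤ (k : ℝ)) hex
  refine ⟨κ, hκ, ?_⟩
  set C : ℝ := K1 * K2 * B' ^ (5 / 2 : ℝ) with hC
  have hC0 : 0 ≤ C := by positivity
  have hmod : ∀ j : ℕ, ∀ a : ℝ, |a| ≤ 1 →
      Φ.I (fun x => B'⁻¹ * (a * (u (κ j)).fn x)) ≤
        ENNReal.ofReal (C * F |a| + K2 * (1 / 2) ^ j) := by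
    intro j a ha
    have h1 : Φ.I (fun x => B'⁻¹ * (u (κ j)).fn x) ≤ 1 :=
      (LPhi.norm_le_iff (u (κ j)) hB0).1 ((hu (κ j)).trans (le_max_left _ _))
    have hpt : ∀ᵐ x ∂mu, Φ.φ |B'⁻¹ * (a * (u (κ j)).fn x)| ≤
        (C * F |a| + K2 * (1 / 2) ^ j) * Φ.φ |B'⁻¹ * (u (κ j)).fn x| := by
      filter_upwards [hH (κ j), hFt (κ j)] with x h2 h3
      have h4 : (u (κ j)).fn x = 0 ∨ (Hh j ≤ |(u (κ j)).fn x| ∧ D |(u (κ j)).fn x| ≤ M) := by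
        rcases h2 with h2 | h2
        · exact Or.inl h2
        rcases h3 with h3 | h3
        · exact Or.inl h3
        · exact Or.inr ⟨(hk j).trans h2.le, h3⟩
      refine (point hK1 hK2 hB1 hK.F_growth (hHh j) hgrow ha h4).trans ?_
      have h5 := exp_le_half_pow j
      have h6 : 0 ≤ Φ.φ |B'⁻¹ * (u (κ j)).fn x| := Φ.nonneg (abs_nonneg _)
      gcongr
    have hnn : 0 ≤ C * F |a| + K2 * (1 / 2) ^ j := by
      have := hK.F_growth.nonneg |a|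
      positivity
    calc Φ.I (fun x => B'⁻¹ * (a * (u (κ j)).fn x))
        ≤ ∫⁻ x, ENNReal.ofReal (C * F |a| + K2 * (1 / 2) ^ j) *
            ENNReal.ofReal (Φ.φ |B'⁻¹ * (u (κ j)).fn x|) ∂mu := by
          unfold OrliczFun.I
          refine lintegral_mono_ae (hpt.mono fun x hx => ?_)
          rw [← ENNReal.ofReal_mul hnn]
          exact ENNReal.ofReal_le_ofReal hx
      _ = ENNReal.ofReal (C * F |a| + K2 * (1 / 2) ^ j) *
            Φ.I (fun x => B'⁻¹ * (u (κ j)).fn x) := by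
          unfold OrliczFun.I
          rw [lintegral_const_mul' _ _ ENNReal.ofReal_ne_top]
      _ ≤ ENNReal.ofReal (C * F |a| + K2 * (1 / 2) ^ j) * 1 := by gcongr
      _ = _ := mul_one _
  have hdκ : DisjSeq fun j => u (κ j) := fun m n hmn => hD _ _ fun h => hmn (hκ.injective h)
  refine ⟨B' * (C + 2 * K2), by positivity, fun s a hs => ?_⟩
  have hmn := (hm Φ F D hK).2 B' (C + 2 * K2) (∑ k ∈ s, a k • u (κ k)) hB0 (by linarith)
  apply hmn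
  rw [hd Φ (fun j => u (κ j)) hdκ s a B'⁻¹]
  calc ∑ k ∈ s, Φ.I (fun x => B'⁻¹ * (a k * (u (κ k)).fn x))
      ≤ ∑ k ∈ s, ENNReal.ofReal (C * F |a k| + K2 * (1 / 2) ^ k) :=
        Finset.sum_le_sum fun k hk => hmod k (a k) (F_abs_le_one hK.F_growth hs hk)
    _ = ENNReal.ofReal (∑ k ∈ s, (C * F |a k| + K2 * (1 / 2) ^ k)) := by
        rw [ENNReal.ofReal_sum_of_nonneg]
        intro k _
        have := hK.F_growth.nonneg |a k|
        positivity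
    _ ≤ ENNReal.ofReal (C + 2 * K2) := by
        apply ENNReal.ofReal_le_ofReal
        rw [Finset.sum_add_distrib, ← Finset.mul_sum, ← Finset.mul_sum]
        have h1 : ∑ k ∈ s, (1 / 2 : ℝ) ^ k ≤ 2 := by
          have h2 := summable_geometric_two.sum_le_tsum s (fun k _ => by positivity)
          rw [tsum_geometric_two] at h2
          exact h2
        have h3 : C * ∑ k ∈ s, F |a k| ≤ C * 1 := mul_le_mul_of_nonneg_left hs hC0
        have h4 : K2 * ∑ k ∈ s, (1 / 2 : ℝ) ^ k ≤ K2 * 2 :=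
          mul_le_mul_of_nonneg_left h1 (by linarith)
        linarith

end Pool.Agent.T6.H48.KP
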