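import Pool.Agent.T6.H48.KP.UL

/-! Project KP (helper48): module SRCS, the theorem mSRCS is in UL.lean (helper80). -/
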