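import Mathlib

/-!
Project KP (helper48), MP_8301f5_an: Orlicz spaces `L_φ[0,1]`.
-/

namespace Pool.Agent.T6.H48.KP

open MeasureTheory Set Filter Topology
open scoped ENNReal

/-- Lebesgue measure on `[0,1]` -/
noncomputable abbrev mu : Measure ℝ := volume.restrict (Icc (0:ℝ) 1)

/-- Orlicz functions: convex, nondecreasing, continuous on `[0,∞)`, `φ 0 = 0`, not identically `0` -/
structure OrliczFun where
  φ : ℝ → ℝ
  convex' : ConvexOn ℝ (Ici 0) φ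
  mono' : MonotoneOn φ (Ici 0)
  cont' : ContinuousOn φ (Ici 0)
  zero' : φ 0 = 0
  ne' : ∃ t : ℝ, 0 < t ∧ φ t ≠ 0

namespace OrliczFun

variable (Φ : OrliczFun)

theorem nonneg {t : ℝ} (ht : 0 ≤ t) : 0 ≤ Φ.φ t := by
  have := Φ.mono' (mem_Ici.2 le_rfl) (mem_Ici.2 ht) ht
  rwa [Φ.zero'] at this

theorem mono {s t : ℝ} (hs : 0 ≤ s) (hst : s ≤ t) : Φ.φ s ≤ Φ.φ t :=
  Φ.mono' (mem_Ici.2 hs) (mem_Ici.2 (hs.trans hst)) hst

theorem conv {x y a b : ℝ} (hx : 0 ≤ x) (hy : 0 ≤ y) (ha : 0 ≤ a) (hb : 0 ≤ b) (hab : a + b = 1) :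
    Φ.φ (a * x + b * y) ≤ a * Φ.φ x + b * Φ.φ y := by
  have := Φ.convex'.2 (mem_Ici.2 hx) (mem_Ici.2 hy) ha hb hab
  simpa [smul_eq_mul] using this

theorem scale_le {x a : ℝ} (hx : 0 ≤ x) (ha : 0 ≤ a) (ha1 : a ≤ 1) :
    Φ.φ (a * x) ≤ a * Φ.φ x := by
  have := Φ.conv hx le_rfl ha (sub_nonneg.2 ha1) (by ring)
  rw [mul_zero, add_zero, Φ.zero', mul_zero, add_zero] at this
  exact this

theorem continuous_abs' : Continuous fun t : ℝ => Φ.φ |t| :=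
  Φ.cont'.comp_continuous continuous_abs fun t => mem_Ici.2 (abs_nonneg t)

theorem exists_large (K : ℝ) : ∃ T : ℝ, 0 < T ∧ ∀ t, T ≤ t → K ≤ Φ.φ t := by
  obtain ⟨t₀, ht₀, hne⟩ := Φ.ne'
  have hc : 0 < Φ.φ t₀ := lt_of_le_of_ne (Φ.nonneg ht₀.le) (Ne.symm hne)
  refine ⟨max t₀ (t₀ * (|K| / Φ.φ t₀)), lt_of_lt_of_le ht₀ (le_max_left _ _), fun t ht => ?_⟩
  have h1 : t₀ ≤ t := (le_max_left _ _).trans ht
  have h2 : t₀ * (|K| / Φ.φ t₀) ≤ t := (le_max_right _ _).trans ht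
  have htpos : 0 < t := ht₀.trans_le h1
  have h3 := Φ.scale_le htpos.le (a := t₀ / t) (by positivity) ((div_le_one htpos).2 h1)
  rw [div_mul_cancel₀ _ htpos.ne'] at h3
  have h4 : |K| * t₀ ≤ t * Φ.φ t₀ := by
    have := mul_le_mul_of_nonneg_right h2 hc.le
    rwa [mul_assoc, div_mul_cancel₀ _ hc.ne', mul_comm t₀] at this
  have h5 : t * Φ.φ t₀ ≤ t₀ * Φ.φ t := by
    have := mul_le_mul_of_nonneg_left h3 htpos.le
    rwa [← mul_assoc, mul_div_cancel₀ _ htpos.ne'] at this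
  have h6 : |K| * t₀ ≤ Φ.φ t * t₀ := by linarith
  exact (le_abs_self K).trans (le_of_mul_le_mul_right h6 ht₀)

/-- the modular `∫ φ(|f|)` -/
noncomputable def I (f : ℝ → ℝ) : ℝ≥0∞ := ∫⁻ x, ENNReal.ofReal (Φ.φ |f x|) ∂mu

theorem I_mono {f g : ℝ → ℝ} (h : ∀ᵐ x ∂mu, |f x| ≤ |g x|) : Φ.I f ≤ Φ.I g := by
  refine lintegral_mono_ae (h.mono fun x hx => ENNReal.ofReal_le_ofReal ?_)
  exact Φ.mono (abs_nonneg _) hx

theorem I_congr {f g : ℝ → ℝ} (h : f =ᵐ[mu] g) : Φ.I f = Φ.I g :=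
  lintegral_congr_ae (h.mono fun x hx => by simp only [hx])

theorem aemeas {f : ℝ → ℝ} (hf : AEMeasurable f mu) :
    AEMeasurable (fun x => ENNReal.ofReal (Φ.φ |f x|)) mu :=
  (Φ.continuous_abs'.measurable.comp_aemeasurable hf).ennreal_ofReal

theorem I_conv {f g : ℝ → ℝ} (hf : AEMeasurable f mu) {a b : ℝ} (ha : 0 ≤ a) (hb : 0 ≤ b)
    (hab : a + b = 1) :
    Φ.I (fun x => a * f x + b * g x) ≤ ENNReal.ofReal a * Φ.I f + ENNReal.ofReal b * Φ.I g := by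
  unfold I
  rw [← lintegral_const_mul' _ _ ENNReal.ofReal_ne_top,
    ← lintegral_const_mul' _ _ ENNReal.ofReal_ne_top,
    ← lintegral_add_left' ((Φ.aemeas hf).const_mul _)]
  refine lintegral_mono fun x => ?_
  rw [← ENNReal.ofReal_mul ha, ← ENNReal.ofReal_mul hb,
    ← ENNReal.ofReal_add (mul_nonneg ha (Φ.nonneg (abs_nonneg _)))
      (mul_nonneg hb (Φ.nonneg (abs_nonneg _)))]
  apply ENNReal.ofReal_le_ofReal
  have h1 : |a * f x + b * g x| ≤ a * |f x| + b * |g x| := by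
    refine (abs_add_le _ _).trans (le_of_eq ?_)
    rw [abs_mul, abs_mul, abs_of_nonneg ha, abs_of_nonneg hb]
  exact (Φ.mono (abs_nonneg _) h1).trans
    (Φ.conv (abs_nonneg _) (abs_nonneg _) ha hb hab)

theorem I_zero : Φ.I (fun _ => 0) = 0 := by
  unfold I
  simp [Φ.zero']

theorem I_scale {f : ℝ → ℝ} {a : ℝ} (ha : 0 ≤ a) (ha1 : a ≤ 1) :
    Φ.I (fun x => a * f x) ≤ ENNReal.ofReal a * Φ.I f := by
  unfold I
  rw [← lintegral_const_mul' _ _ ENNReal.ofReal_ne_top]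
  refine lintegral_mono fun x => ?_
  rw [← ENNReal.ofReal_mul ha]
  apply ENNReal.ofReal_le_ofReal
  rw [abs_mul, abs_of_nonneg ha]
  exact Φ.scale_le (abs_nonneg _) ha ha1

/-- `L_φ[0,1]` as a subspace of the space of classes of measurable functions -/
noncomputable def sub : Submodule ℝ (ℝ →ₘ[mu] ℝ) where
  carrier := {f | ∃ s : ℝ, 0 < s ∧ Φ.I (fun x => s⁻¹ * f x) < ∞}
  zero_mem' := by
    refine ⟨1, one_pos, ?_⟩
    have : (fun x => (1:ℝ)⁻¹ * (0 : ℝ →ₘ[mu] ℝ) x) =ᵐ[mu] fun _ => 0 := by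
      filter_upwards [AEEqFun.coeFn_zero (α := ℝ) (β := ℝ) (μ := mu)] with x hx
      rw [hx]; simp
    rw [Φ.I_congr this, Φ.I_zero]
    simp
  add_mem' := by
    rintro f g ⟨s, hs, hf⟩ ⟨t, ht, hg⟩
    refine ⟨s + t, by positivity, ?_⟩
    have h1 : (fun x => (s + t)⁻¹ * (f + g : ℝ →ₘ[mu] ℝ) x) =ᵐ[mu]
        fun x => (s / (s + t)) * (s⁻¹ * f x) + (t / (s + t)) * (t⁻¹ * g x) := by
      filter_upwards [AEEqFun.coeFn_add f g] with x hx
      rw [hx, Pi.add_apply]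
      field_simp
    rw [Φ.I_congr h1]
    refine lt_of_le_of_lt (Φ.I_conv (f.aestronglyMeasurable.aemeasurable.const_mul _)
      (by positivity) (by positivity) (by field_simp)) ?_
    exact ENNReal.add_lt_top.2 ⟨ENNReal.mul_lt_top ENNReal.ofReal_lt_top hf,
      ENNReal.mul_lt_top ENNReal.ofReal_lt_top hg⟩
  smul_mem' := by
    rintro c f ⟨s, hs, hf⟩
    by_cases hc : c = 0
    · refine ⟨1, one_pos, ?_⟩
      have : (fun x => (1:ℝ)⁻¹ * (c • f : ℝ →ₘ[mu] ℝ) x) =ᵐ[mu] fun _ => 0 := by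
        filter_upwards [AEEqFun.coeFn_smul c f] with x hx
        rw [hx, hc]; simp
      rw [Φ.I_congr this, Φ.I_zero]
      simp
    · have hc' : 0 < |c| := abs_pos.2 hc
      refine ⟨|c| * s, by positivity, ?_⟩
      refine lt_of_le_of_lt (Φ.I_mono ?_) hf
      filter_upwards [AEEqFun.coeFn_smul c f] with x hx
      rw [hx, Pi.smul_apply, smul_eq_mul]
      refine le_of_eq ?_
      rw [abs_mul, abs_mul, abs_inv, abs_mul, abs_abs, abs_mul, abs_inv]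
      field_simp

/-- the set of `s > 0` with `∫ φ(|f|/s) ≤ 1` -/
def lset (f : ℝ → ℝ) : Set ℝ := {s : ℝ | 0 < s ∧ Φ.I (fun x => s⁻¹ * f x) ≤ 1}

/-- the Luxemburg norm -/
noncomputable def lux (f : ℝ → ℝ) : ℝ := sInf (Φ.lset f)

theorem lset_congr {f g : ℝ → ℝ} (h : f =ᵐ[mu] g) : Φ.lset f = Φ.lset g := by
  ext s
  unfold lset
  have : (fun x => s⁻¹ * f x) =ᵐ[mu] fun x => s⁻¹ * g x := h.mono fun x hx => by simp only [hx]
  simp only [mem_ofPred_eq, Φ.I_congr this]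

theorem lux_congr {f g : ℝ → ℝ} (h : f =ᵐ[mu] g) : Φ.lux f = Φ.lux g := by
  unfold lux
  rw [Φ.lset_congr h]

theorem lset_bdd (f : ℝ → ℝ) : BddBelow (Φ.lset f) := ⟨0, fun _ hs => hs.1.le⟩

theorem lux_nonneg (f : ℝ → ℝ) : 0 ≤ Φ.lux f := Real.sInf_nonneg fun _ hs => hs.1.le

theorem lset_up {f : ℝ → ℝ} {s t : ℝ} (hs : s ∈ Φ.lset f) (hst : s ≤ t) : t ∈ Φ.lset f := by
  refine ⟨hs.1.trans_le hst, (Φ.I_mono (Eventually.of_forall fun x => ?_)).trans hs.2⟩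
  have h0 := hs.1
  rw [abs_mul, abs_mul]
  refine mul_le_mul_of_nonneg_right ?_ (abs_nonneg _)
  rw [abs_of_pos (inv_pos.2 (h0.trans_le hst)), abs_of_pos (inv_pos.2 h0)]
  exact inv_anti₀ h0 hst

theorem lset_nonempty {f : ℝ → ℝ} (h : ∃ s : ℝ, 0 < s ∧ Φ.I (fun x => s⁻¹ * f x) < ∞) :
    (Φ.lset f).Nonempty := by
  obtain ⟨s, hs, hf⟩ := h
  set K : ℝ := max 1 (Φ.I (fun x => s⁻¹ * f x)).toReal with hK
  have hK1 : 1 ≤ K := le_max_left _ _
  have hKpos : 0 < K := by linarith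
  refine ⟨s * K, by positivity, ?_⟩
  have h1 : (fun x => (s * K)⁻¹ * f x) = fun x => K⁻¹ * (s⁻¹ * f x) := by
    ext x
    rw [mul_inv]
    ring
  rw [h1]
  refine (Φ.I_scale (inv_nonneg.2 hKpos.le) (inv_le_one_of_one_le₀ hK1)).trans ?_
  have h2 : Φ.I (fun x => s⁻¹ * f x) ≤ ENNReal.ofReal K := by
    rw [← ENNReal.ofReal_toReal hf.ne]
    exact ENNReal.ofReal_le_ofReal (le_max_right _ _)
  calc ENNReal.ofReal K⁻¹ * Φ.I (fun x => s⁻¹ * f x) ≤ ENNReal.ofReal K⁻¹ * ENNReal.ofReal K := by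
        gcongr
    _ = 1 := by
        rw [← ENNReal.ofReal_mul (inv_nonneg.2 hKpos.le), inv_mul_cancel₀ hKpos.ne',
          ENNReal.ofReal_one]

theorem lux_le {f : ℝ → ℝ} {s : ℝ} (hs : 0 < s) (h : Φ.I (fun x => s⁻¹ * f x) ≤ 1) :
    Φ.lux f ≤ s := csInf_le (Φ.lset_bdd f) ⟨hs, h⟩

theorem I_le_of_lux_lt {f : ℝ → ℝ} (h : (Φ.lset f).Nonempty) {s : ℝ} (hs : Φ.lux f < s) :
    Φ.I (fun x => s⁻¹ * f x) ≤ 1 := by
  obtain ⟨t, ht, hts⟩ := exists_lt_of_csInf_lt h hs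
  exact (Φ.lset_up ht hts.le).2

/-- the modular of `f / ‖f‖` is at most one -/
theorem I_le_of_lux_le {f : ℝ → ℝ} (hfm : AEMeasurable f mu) (h : (Φ.lset f).Nonempty) {s : ℝ}
    (hs0 : 0 < s) (hs : Φ.lux f ≤ s) : Φ.I (fun x => s⁻¹ * f x) ≤ 1 := by
  -- Fatou along `s_n = s + 1/(n+1)`
  have hlim : ∀ x, Tendsto (fun n : ℕ => ENNReal.ofReal (Φ.φ |(s + 1 / ((n : ℝ) + 1))⁻¹ * f x|))
      atTop (𝓝 (ENNReal.ofReal (Φ.φ |s⁻¹ * f x|))) := by
    intro x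
    refine (ENNReal.continuous_ofReal.tendsto _).comp ?_
    have h1 : Tendsto (fun n : ℕ => (s + 1 / ((n : ℝ) + 1))⁻¹ * f x) atTop (𝓝 (s⁻¹ * f x)) := by
      have h2 : Tendsto (fun n : ℕ => s + 1 / ((n : ℝ) + 1)) atTop (𝓝 (s + 0)) :=
        tendsto_const_nhds.add tendsto_one_div_add_atTop_nhds_zero_nat
      rw [add_zero] at h2
      exact (h2.inv₀ hs0.ne').mul_const _
    exact (Φ.continuous_abs'.tendsto _).comp h1
  unfold I
  calc ∫⁻ x, ENNReal.ofReal (Φ.φ |s⁻¹ * f x|) ∂mu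
      = ∫⁻ x, liminf (fun n : ℕ => ENNReal.ofReal (Φ.φ |(s + 1 / ((n : ℝ) + 1))⁻¹ * f x|))
          atTop ∂mu := by
        refine lintegral_congr fun x => ?_
        rw [(hlim x).liminf_eq]
    _ ≤ liminf (fun n : ℕ => ∫⁻ x, ENNReal.ofReal (Φ.φ |(s + 1 / ((n : ℝ) + 1))⁻¹ * f x|) ∂mu)
          atTop := lintegral_liminf_le' fun n => Φ.aemeas (hfm.const_mul _)
    _ ≤ liminf (fun _ : ℕ => (1 : ℝ≥0∞)) atTop := by
        refine liminf_le_liminf (Eventually.of_forall fun n => ?_)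
        refine Φ.I_le_of_lux_lt h (hs.trans_lt ?_)
        have : 0 < 1 / ((n : ℝ) + 1) := by positivity
        linarith
    _ = 1 := by simp

theorem lux_le_iff {f : ℝ → ℝ} (hfm : AEMeasurable f mu) (h : (Φ.lset f).Nonempty) {s : ℝ}
    (hs0 : 0 < s) : Φ.lux f ≤ s ↔ Φ.I (fun x => s⁻¹ * f x) ≤ 1 :=
  ⟨Φ.I_le_of_lux_le hfm h hs0, Φ.lux_le hs0⟩

end OrliczFun

/-- the Orlicz space `L_φ[0,1]` -/
def LPhi (Φ : OrliczFun) : Type := ↥(Φ.sub)

namespace LPhi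

variable {Φ : OrliczFun}

noncomputable instance : AddCommGroup (LPhi Φ) := inferInstanceAs (AddCommGroup ↥(Φ.sub))
noncomputable instance : Module ℝ (LPhi Φ) := inferInstanceAs (Module ℝ ↥(Φ.sub))

/-- the class of functions -/
def toAE (f : LPhi Φ) : ℝ →ₘ[mu] ℝ := f.1

/-- constructor -/
def ofAE (f : ℝ →ₘ[mu] ℝ) (h : f ∈ Φ.sub) : LPhi Φ := ⟨f, h⟩

/-- a measurable representative -/
noncomputable def fn (f : LPhi Φ) : ℝ → ℝ := f.toAE

theorem fn_meas (f : LPhi Φ) : Measurable f.fn := f.toAE.measurable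

theorem fn_add (f g : LPhi Φ) : (f + g).fn =ᵐ[mu] fun x => f.fn x + g.fn x :=
  AEEqFun.coeFn_add f.toAE g.toAE

theorem fn_smul (c : ℝ) (f : LPhi Φ) : (c • f).fn =ᵐ[mu] fun x => c * f.fn x :=
  AEEqFun.coeFn_smul c f.toAE

theorem fn_zero : (0 : LPhi Φ).fn =ᵐ[mu] fun _ => 0 := AEEqFun.coeFn_zero

theorem ext_ae {f g : LPhi Φ} (h : f.fn =ᵐ[mu] g.fn) : f = g := Subtype.ext (AEEqFun.ext h)

theorem lset_ne (f : LPhi Φ) : (Φ.lset f.fn).Nonempty := Φ.lset_nonempty f.2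

noncomputable instance : Norm (LPhi Φ) := ⟨fun f => Φ.lux f.fn⟩

theorem norm_def (f : LPhi Φ) : ‖f‖ = Φ.lux f.fn := rfl

theorem norm_le_iff (f : LPhi Φ) {s : ℝ} (hs : 0 < s) :
    ‖f‖ ≤ s ↔ Φ.I (fun x => s⁻¹ * f.fn x) ≤ 1 :=
  Φ.lux_le_iff f.fn_meas.aemeasurable f.lset_ne hs

theorem norm_zero' : ‖(0 : LPhi Φ)‖ = 0 := by
  refine le_antisymm ?_ (Φ.lux_nonneg _)
  refine le_of_forall_pos_le_add fun s hs => ?_
  rw [zero_add, norm_le_iff _ hs]
  have : (fun x => s⁻¹ * (0 : LPhi Φ).fn x) =ᵐ[mu] fun _ => 0 :=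
    fn_zero.mono fun x hx => by
      have hx' : (0 : LPhi Φ).fn x = 0 := hx
      simp only [hx', mul_zero]
  rw [Φ.I_congr this, Φ.I_zero]
  exact zero_le

theorem eq_zero_of_norm {f : LPhi Φ} (h : ‖f‖ = 0) : f = 0 := by
  have hI : ∀ s : ℝ, 0 < s → Φ.I (fun x => s⁻¹ * f.fn x) ≤ 1 := fun s hs =>
    (norm_le_iff f hs).1 (by rw [h]; exact hs.le)
  have key : ∀ c : ℝ, 0 < c → mu {x | c ≤ |f.fn x|} = 0 := by
    intro c hc
    by_contra hne
    have hfin : mu {x | c ≤ |f.fn x|} ≠ ∞ := measure_ne_top _ _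
    have hpos : 0 < (mu {x | c ≤ |f.fn x|}).toReal := ENNReal.toReal_pos hne hfin
    obtain ⟨T, hT, hT'⟩ := Φ.exists_large (2 / (mu {x | c ≤ |f.fn x|}).toReal)
    have hs : 0 < c / T := by positivity
    have h1 := hI (c / T) hs
    have h2 : ENNReal.ofReal (2 / (mu {x | c ≤ |f.fn x|}).toReal) * mu {x | c ≤ |f.fn x|} ≤
        Φ.I (fun x => (c / T)⁻¹ * f.fn x) := by
      unfold OrliczFun.I
      have hms : MeasurableSet {x | c ≤ |f.fn x|} :=
        measurableSet_le measurable_const (continuous_abs.measurable.comp f.fn_meas)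
      rw [← lintegral_indicator_const hms]
      refine lintegral_mono fun x => ?_
      by_cases hx : x ∈ {x | c ≤ |f.fn x|}
      · rw [indicator_of_mem hx]
        apply ENNReal.ofReal_le_ofReal
        apply hT'
        rw [abs_mul, abs_of_pos (inv_pos.2 hs), inv_div, div_mul_eq_mul_div, le_div_iff₀ hc]
        exact mul_le_mul_of_nonneg_left hx hT.le
      · rw [indicator_of_notMem hx]
        exact zero_le
    have h3 : ENNReal.ofReal (2 / (mu {x | c ≤ |f.fn x|}).toReal) * mu {x | c ≤ |f.fn x|} = 2 := by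
      nth_rewrite 2 [← ENNReal.ofReal_toReal hfin]
      rw [← ENNReal.ofReal_mul (by positivity), div_mul_cancel₀ _ hpos.ne']
      simp
    rw [h3] at h2
    have := h2.trans h1
    norm_num at this
  apply ext_ae
  have h1 : ∀ᵐ x ∂mu, f.fn x = 0 := by
    have h2 : mu (⋃ n : ℕ, {x | 1 / ((n : ℝ) + 1) ≤ |f.fn x|}) = 0 :=
      measure_iUnion_null fun n => key _ (by positivity)
    rw [ae_iff]
    refine measure_mono_null (fun x hx => ?_) h2
    rw [mem_ofPred_eq] at hx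
    obtain ⟨n, hn⟩ := exists_nat_one_div_lt (abs_pos.2 hx)
    exact mem_iUnion.2 ⟨n, hn.le⟩
  filter_upwards [h1, fn_zero (Φ := Φ)] with x hx hx'
  rw [hx, hx']

theorem norm_add_le' (f g : LPhi Φ) : ‖f + g‖ ≤ ‖f‖ + ‖g‖ := by
  refine le_of_forall_pos_le_add fun e he => ?_
  set s := ‖f‖ + e / 2 with hs
  set t := ‖g‖ + e / 2 with ht
  have hf0 : 0 ≤ ‖f‖ := Φ.lux_nonneg _
  have hg0 : 0 ≤ ‖g‖ := Φ.lux_nonneg _
  have hs0 : 0 < s := by positivity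
  have ht0 : 0 < t := by positivity
  have h1 : ‖f‖ + ‖g‖ + e = s + t := by rw [hs, ht]; ring
  rw [h1, norm_le_iff _ (by positivity)]
  have hfI := (norm_le_iff f hs0).1 (by linarith)
  have hgI := (norm_le_iff g ht0).1 (by linarith)
  have h2 : (fun x => (s + t)⁻¹ * (f + g).fn x) =ᵐ[mu]
      fun x => (s / (s + t)) * (s⁻¹ * f.fn x) + (t / (s + t)) * (t⁻¹ * g.fn x) := by
    filter_upwards [fn_add f g] with x hx
    rw [hx]
    field_simp
  rw [Φ.I_congr h2]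
  refine (Φ.I_conv (f.fn_meas.aemeasurable.const_mul _) (by positivity) (by positivity)
    (by field_simp)).trans ?_
  calc ENNReal.ofReal (s / (s + t)) * Φ.I (fun x => s⁻¹ * f.fn x) +
        ENNReal.ofReal (t / (s + t)) * Φ.I (fun x => t⁻¹ * g.fn x)
      ≤ ENNReal.ofReal (s / (s + t)) * 1 + ENNReal.ofReal (t / (s + t)) * 1 := by gcongr
    _ = 1 := by
        rw [mul_one, mul_one, ← ENNReal.ofReal_add (by positivity) (by positivity)]
        have : s / (s + t) + t / (s + t) = 1 := by field_simp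
        rw [this, ENNReal.ofReal_one]

theorem norm_smul_le' (c : ℝ) (f : LPhi Φ) : ‖c • f‖ ≤ |c| * ‖f‖ := by
  by_cases hc : c = 0
  · rw [hc, zero_smul, norm_zero', abs_zero, zero_mul]
  have hc' : 0 < |c| := abs_pos.2 hc
  refine le_of_forall_pos_le_add fun e he => ?_
  have hf0 : 0 ≤ ‖f‖ := Φ.lux_nonneg _
  set s := ‖f‖ + e / |c| with hs
  have hs0 : 0 < s := by positivity
  have h1 : |c| * ‖f‖ + e = |c| * s := by
    rw [hs, mul_add, mul_div_cancel₀ _ hc'.ne']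
  rw [h1, norm_le_iff _ (by positivity)]
  have hfI := (norm_le_iff f hs0).1 (by
    have : 0 < e / |c| := by positivity
    linarith)
  refine (Φ.I_mono ?_).trans hfI
  filter_upwards [fn_smul c f] with x hx
  rw [hx]
  refine le_of_eq ?_
  rw [abs_mul, abs_mul, abs_inv, abs_mul, abs_abs, abs_mul, abs_inv]
  field_simp

theorem norm_smul' (c : ℝ) (f : LPhi Φ) : ‖c • f‖ = |c| * ‖f‖ := by
  refine le_antisymm (norm_smul_le' c f) ?_
  by_cases hc : c = 0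
  · rw [hc, zero_smul, norm_zero', abs_zero, zero_mul]
  have hc' : 0 < |c| := abs_pos.2 hc
  have h1 := norm_smul_le' c⁻¹ (c • f)
  rw [smul_smul, inv_mul_cancel₀ hc, one_smul, abs_inv] at h1
  rw [inv_mul_eq_div, le_div_iff₀ hc'] at h1
  linarith

theorem core : NormedSpace.Core ℝ (LPhi Φ) where
  norm_nonneg f := Φ.lux_nonneg _
  norm_smul c f := by rw [Real.norm_eq_abs]; exact norm_smul' c f
  norm_triangle f g := norm_add_le' f g
  norm_eq_zero_iff f := ⟨eq_zero_of_norm, fun h => by rw [h]; exact norm_zero'⟩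

noncomputable instance : NormedAddCommGroup (LPhi Φ) := NormedAddCommGroup.ofCore core
noncomputable instance : NormedSpace ℝ (LPhi Φ) := NormedSpace.ofCore core

end LPhi

end Pool.Agent.T6.H48.KP
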