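import Pool.Agent.T6.H48.KP.Defs

/-!
Project KP (helper48), module TGTD: target small in `L^1`.
-/

namespace Pool.Agent.T6.H48.KP

open MeasureTheory Set Filter Topology
open scoped ENNReal

namespace ModTGTD

variable {Φ : OrliczFun}

theorem meas_le (z : LPhi Φ) (c : ℝ) : MeasurableSet {x | |z.fn x| ≤ c} :=
  measurableSet_le (continuous_abs.measurable.comp z.fn_meas) measurable_const

theorem meas_gt (z : LPhi Φ) (c : ℝ) : MeasurableSet {x | c < |z.fn x|} :=
  measurableSet_lt measurable_const (continuous_abs.measurable.comp z.fn_meas)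

theorem fn_sub (f g : LPhi Φ) : (f - g).fn =ᵐ[mu] fun x => f.fn x - g.fn x :=
  AEEqFun.coeFn_sub f.toAE g.toAE

/-- the low part is small -/
theorem low (z : LPhi Φ) (hz : Integrable z.fn mu) (c η : ℝ) (hc : 0 < c) (hη : 0 < η)
    (h : Φ.φ (c / η) / c * ∫ x, |z.fn x| ∂mu ≤ 1) : ‖z.cut {x | |z.fn x| ≤ c}‖ ≤ η := by
  rw [LPhi.norm_le_iff _ hη]
  have h1 : Φ.I (fun x => η⁻¹ * (z.cut {x | |z.fn x| ≤ c}).fn x) ≤
      ∫⁻ x, ENNReal.ofReal (Φ.φ (c / η) / c * |z.fn x|) ∂mu := by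
    unfold OrliczFun.I
    refine lintegral_mono_ae ?_
    filter_upwards [z.fn_cut (meas_le z c)] with x hx
    apply ENNReal.ofReal_le_ofReal
    rw [hx]
    by_cases h : x ∈ {x | |z.fn x| ≤ c}
    · rw [indicator_of_mem h, abs_mul, abs_of_pos (inv_pos.2 hη)]
      have h2 := Φ.scale_le (x := c / η) (a := |z.fn x| / c) (by positivity) (by positivity)
        ((div_le_one hc).2 h)
      have e : |z.fn x| / c * (c / η) = η⁻¹ * |z.fn x| := by field_simp
      rw [e] at h2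
      refine h2.trans (le_of_eq ?_)
      ring
    · rw [indicator_of_notMem h, mul_zero, abs_zero, Φ.zero']
      exact mul_nonneg (div_nonneg (Φ.nonneg (by positivity)) hc.le) (abs_nonneg _)
  refine h1.trans ?_
  rw [← ofReal_integral_eq_lintegral_ofReal (hz.abs.const_mul _) (Eventually.of_forall fun x =>
    mul_nonneg (div_nonneg (Φ.nonneg (by positivity)) hc.le) (abs_nonneg _)), integral_const_mul]
  exact (ENNReal.ofReal_le_ofReal h).trans (by simp)

theorem sub_high (z : LPhi Φ) (c : ℝ) :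
    ‖z - z.cut {x | c < |z.fn x|}‖ ≤ ‖z.cut {x | |z.fn x| ≤ c}‖ := by
  refine LPhi.norm_mono ?_
  filter_upwards [fn_sub z (z.cut {x | c < |z.fn x|}), z.fn_cut (meas_gt z c),
    z.fn_cut (meas_le z c)] with x h1 h2 h3
  rw [h1, h2, h3]
  by_cases h : |z.fn x| ≤ c
  · have a1 : x ∉ {x | c < |z.fn x|} := fun h' => absurd h' (not_lt.2 h)
    have a2 : x ∈ {x | |z.fn x| ≤ c} := h
    rw [indicator_of_notMem a1, indicator_of_mem a2, sub_zero]
  · have a1 : x ∈ {x | c < |z.fn x|} := not_le.1 h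
    have a2 : x ∉ {x | |z.fn x| ≤ c} := h
    rw [indicator_of_mem a1, indicator_of_notMem a2, sub_self]

end ModTGTD

open ModTGTD

theorem mTGTD (hh : StmHOLD) (hd : StmDISJ) : StmTGTD := by
  intro Φ F D hK z B ε hB hz hε hε0
  obtain ⟨K, -, hK1, -⟩ := hh Φ F D hK
  have hint : ∀ k, Integrable (z k).fn mu := fun k => (hK1 (z k)).2.1
  have ev : ∀ j : ℕ, ∀ᶠ k in atTop,
      ‖z k - (z k).cut {x | ((j : ℝ) + 1) < |(z k).fn x|}‖ ≤ ε j / 2 := by
    intro j
    have hc : (0 : ℝ) < (j : ℝ) + 1 := by positivity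
    have hη : 0 < ε j / 2 := half_pos (hε0 j)
    have h1 : Tendsto (fun k => Φ.φ (((j : ℝ) + 1) / (ε j / 2)) / ((j : ℝ) + 1) *
        ∫ x, |(z k).fn x| ∂mu) atTop
        (𝓝 (Φ.φ (((j : ℝ) + 1) / (ε j / 2)) / ((j : ℝ) + 1) * 0)) := hz.const_mul _
    rw [mul_zero] at h1
    filter_upwards [h1.eventually (ge_mem_nhds zero_lt_one)] with k hk
    exact (sub_high _ _).trans (low (z k) (hint k) _ _ hc hη hk)
  obtain ⟨κ, hκ, hκ'⟩ := extraction_forall_of_eventually ev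
  have hz' : High (fun j => (z (κ j)).cut {x | ((j : ℝ) + 1) < |(z (κ j)).fn x|}) := by
    intro j
    filter_upwards [(z (κ j)).fn_cut (meas_gt (z (κ j)) ((j : ℝ) + 1))] with x hx
    simp only [hx]
    by_cases h : x ∈ {x | ((j : ℝ) + 1) < |(z (κ j)).fn x|}
    · right
      rw [indicator_of_mem h]
      have : ((j : ℝ) + 1) < |(z (κ j)).fn x| := h
      linarith
    · left
      rw [indicator_of_notMem h]
  obtain ⟨κ', hκ1, A, hA, hAd, hA'⟩ := hd Φ F D hK
    (fun j => (z (κ j)).cut {x | ((j : ℝ) + 1) < |(z (κ j)).fn x|}) B (fun j => ε j / 2)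
    (fun n => (LPhi.norm_cut_le _ (meas_gt _ _)).trans (hB _)) hz' (fun n => half_pos (hε0 n))
  refine ⟨κ ∘ κ', hκ.comp hκ1, fun j => ((z (κ (κ' j))).cut
    {x | ((κ' j : ℕ) : ℝ) + 1 < |(z (κ (κ' j))).fn x|}).cut (A j), ?_, ?_, ?_⟩
  · intro j
    filter_upwards [LPhi.fn_cut ((z (κ (κ' j))).cut
      {x | ((κ' j : ℕ) : ℝ) + 1 < |(z (κ (κ' j))).fn x|}) (hA j), hz' (κ' j)] with x hx hx2
    simp only [hx]
    by_cases h : x ∈ A j
    · rw [indicator_of_mem h]
      rcases hx2 with h2 | h2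
      · exact Or.inl h2
      · right
        have : (j : ℝ) ≤ ((κ' j : ℕ) : ℝ) := by exact_mod_cast hκ1.id_le j
        exact this.trans_lt h2
    · left
      rw [indicator_of_notMem h]
  · intro m n hmn
    filter_upwards [LPhi.fn_cut ((z (κ (κ' m))).cut
      {x | ((κ' m : ℕ) : ℝ) + 1 < |(z (κ (κ' m))).fn x|}) (hA m),
      LPhi.fn_cut ((z (κ (κ' n))).cut
      {x | ((κ' n : ℕ) : ℝ) + 1 < |(z (κ (κ' n))).fn x|}) (hA n)] with x h1 h2
    simp only [h1, h2]
    by_cases h : x ∈ A m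
    · right
      exact indicator_of_notMem (fun h' => (Set.disjoint_left.1 (hAd m n hmn)) h h') _
    · left
      exact indicator_of_notMem h _
  · intro j
    have h1 := hκ' (κ' j)
    have h2 := hA' j
    have h3 : ε (κ' j) ≤ ε j := hε (hκ1.id_le j)
    simp only [Function.comp_apply] at *
    calc _ ≤ ‖z (κ (κ' j)) - (z (κ (κ' j))).cut
          {x | ((κ' j : ℕ) : ℝ) + 1 < |(z (κ (κ' j))).fn x|}‖ +
          ‖(z (κ (κ' j))).cut {x | ((κ' j : ℕ) : ℝ) + 1 < |(z (κ (κ' j))).fn x|} -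
            ((z (κ (κ' j))).cut
              {x | ((κ' j : ℕ) : ℝ) + 1 < |(z (κ (κ' j))).fn x|}).cut (A j)‖ :=
          norm_sub_le_norm_sub_add_norm_sub _ _ _
      _ ≤ ε (κ' j) / 2 + ε j / 2 := add_le_add h1 h2
      _ ≤ ε j := by linarith

end Pool.Agent.T6.H48.KP
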