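import Pool.Agent.T6.H48.KP.Defs

/-!
Project KP (helper48), module TGTL: target not small in `L^1`.
-/

namespace Pool.Agent.T6.H48.KP

open MeasureTheory Set Filter Topology
open scoped ENNReal

namespace ModTGTL

variable {Φ : OrliczFun}

/-- selection of two subsequences -/
theorem select (e : ℕ → ℕ → ℝ) (η : ℝ) (hη : 0 < η)
    (h2 : ∀ n, Tendsto (fun m => e m n) atTop (𝓝 0)) (h3 : ∀ m, CauchySeq (e m)) :
    ∃ p p' : ℕ → ℕ, StrictMono p ∧ (∀ k, k ≤ p' k) ∧ (∀ k, |e (p k) (p' k)| ≤ η / 4) ∧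
      ∀ j k, j < k → |e (p j) (p k) - e (p j) (p' k)| ≤ η / 16 * (1 / 4) ^ k ∧
        |e (p k) (p j) - e (p k) (p' j)| ≤ η / 16 * (1 / 4) ^ k := by
  -- a state is `(k, p', p)`
  obtain ⟨f, hf1, hf2⟩ := exists_seq_of_forall_finset_exists (α := ℕ × ℕ × ℕ)
    (fun y => y.1 ≤ y.2.1 ∧ y.1 ≤ y.2.2 ∧ |e y.2.2 y.2.1| ≤ η / 4)
    (fun x y => x.1 < y.1 ∧ x.2.2 < y.2.2 ∧
      |e x.2.2 y.2.2 - e x.2.2 y.2.1| ≤ η / 16 * (1 / 4) ^ y.1 ∧
      |e y.2.2 x.2.2 - e y.2.2 x.2.1| ≤ η / 16 * (1 / 4) ^ y.1) (by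
    intro s _
    set l : ℕ := s.sup (fun x => x.1) + 1 with hl
    have hl' : ∀ x ∈ s, x.1 < l := fun x hx =>
      Nat.lt_succ_of_le (Finset.le_sup (f := fun x : ℕ × ℕ × ℕ => x.1) hx)
    set b : ℝ := η / 16 * (1 / 4) ^ l with hb
    have hb0 : 0 < b := by positivity
    -- Cauchy
    have hN : ∀ x ∈ s, ∃ N, ∀ q ≥ N, ∀ q' ≥ N, |e x.2.2 q - e x.2.2 q'| ≤ b := by
      intro x _
      obtain ⟨N, hN⟩ := Metric.cauchySeq_iff.1 (h3 x.2.2) b hb0
      exact ⟨N, fun q hq q' hq' => by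
        have := hN q hq q' hq'
        rw [Real.dist_eq] at this
        exact this.le⟩
    choose! N hN using hN
    set q' : ℕ := max l (s.sup N) with hq'
    have hq'N : ∀ x ∈ s, N x ≤ q' := fun x hx => (Finset.le_sup hx).trans (le_max_right _ _)
    have ev1 : ∀ᶠ q in atTop, |e q q'| ≤ η / 4 := by
      have := (h2 q').abs
      rw [abs_zero] at this
      exact this.eventually (ge_mem_nhds (by positivity))
    have ev2 : ∀ᶠ q in atTop, ∀ x ∈ s, |e q x.2.2 - e q x.2.1| ≤ b := by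
      rw [Filter.eventually_all_finset]
      intro x _
      have := ((h2 x.2.2).sub (h2 x.2.1)).abs
      rw [sub_zero, abs_zero] at this
      exact this.eventually (ge_mem_nhds hb0)
    have ev3 : ∀ᶠ q in atTop, ∀ x ∈ s, x.2.2 < q := by
      rw [Filter.eventually_all_finset]
      intro x _
      exact eventually_gt_atTop _
    obtain ⟨q, hq1, hq2, hq3, hq4⟩ := (ev1.and (ev2.and (ev3.and (eventually_ge_atTop q')))).exists
    refine ⟨(l, q', q), ⟨le_max_left _ _, (le_max_left _ _).trans hq4, hq1⟩, fun x hx =>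
      ⟨hl' x hx, hq3 x hx, ?_, hq2 x hx⟩⟩
    exact hN x hx q ((hq'N x hx).trans hq4) q' (hq'N x hx))
  have hmono : StrictMono fun n => (f n).1 :=
    strictMono_nat_of_lt_succ fun n => (hf2 n (n + 1) (Nat.lt_succ_self n)).1
  have hpow : ∀ k, η / 16 * (1 / 4 : ℝ) ^ (f k).1 ≤ η / 16 * (1 / 4) ^ k := by
    intro k
    refine mul_le_mul_of_nonneg_left ?_ (by positivity)
    exact pow_le_pow_of_le_one (by norm_num) (by norm_num) (hmono.id_le k)
  refine ⟨fun n => (f n).2.2, fun n => (f n).2.1, ?_, ?_, ?_, ?_⟩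
  · exact strictMono_nat_of_lt_succ fun n => (hf2 n (n + 1) (Nat.lt_succ_self n)).2.1
  · exact fun k => (hmono.id_le k).trans (hf1 k).1
  · exact fun k => (hf1 k).2.2
  · intro j k hjk
    obtain ⟨-, -, a1, a2⟩ := hf2 j k hjk
    exact ⟨a1.trans (hpow k), a2.trans (hpow k)⟩

theorem geo (s : Finset ℕ) : ∑ k ∈ s, ((1 / 2 : ℝ) ^ k) ^ 2 ≤ 2 := by
  have h1 : ∀ k : ℕ, ((1 / 2 : ℝ) ^ k) ^ 2 ≤ (1 / 2 : ℝ) ^ k := by
    intro k
    have a : (0 : ℝ) ≤ (1 / 2 : ℝ) ^ k := by positivity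
    have b : (1 / 2 : ℝ) ^ k ≤ 1 := pow_le_one₀ (by norm_num) (by norm_num)
    nlinarith
  calc ∑ k ∈ s, ((1 / 2 : ℝ) ^ k) ^ 2 ≤ ∑ k ∈ s, (1 / 2 : ℝ) ^ k :=
        Finset.sum_le_sum fun k _ => h1 k
    _ ≤ ∑' k : ℕ, (1 / 2 : ℝ) ^ k :=
        (summable_geometric_of_lt_one (by norm_num) (by norm_num)).sum_le_tsum _
          fun _ _ => by positivity
    _ = 2 := tsum_geometric_two

/-- the quadratic form -/
theorem quad (s : Finset ℕ) (a : ℕ → ℝ) (E : ℕ → ℕ → ℝ) (η : ℝ) (hη : 0 < η)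
    (hd : ∀ k, 3 / 8 * η ≤ E k k)
    (ho : ∀ j k, j ≠ k → |E j k| ≤ η / 32 * ((1 / 2) ^ j * (1 / 2) ^ k)) :
    η / 4 * ∑ k ∈ s, a k ^ 2 ≤ ∑ j ∈ s, ∑ k ∈ s, a j * a k * E j k := by
  have h1 : ∀ j k, (if j = k then 3 / 8 * η * a k ^ 2 else 0) -
      η / 32 * ((|a j| * (1 / 2) ^ j) * (|a k| * (1 / 2) ^ k)) ≤ a j * a k * E j k := by
    intro j k
    by_cases h : j = k
    · subst h
      rw [if_pos rfl]
      have a1 : 3 / 8 * η * a j ^ 2 ≤ a j * a j * E j j := by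
        have := mul_le_mul_of_nonneg_left (hd j) (sq_nonneg (a j))
        linarith
      have a2 : 0 ≤ η / 32 * ((|a j| * (1 / 2) ^ j) * (|a j| * (1 / 2) ^ j)) := by positivity
      linarith
    · rw [if_neg h, zero_sub]
      have a1 : |a j * a k * E j k| ≤
          η / 32 * ((|a j| * (1 / 2) ^ j) * (|a k| * (1 / 2) ^ k)) := by
        rw [abs_mul, abs_mul]
        calc |a j| * |a k| * |E j k| ≤
            |a j| * |a k| * (η / 32 * ((1 / 2) ^ j * (1 / 2) ^ k)) :=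
              mul_le_mul_of_nonneg_left (ho j k h) (by positivity)
          _ = _ := by ring
      exact (abs_le.1 a1).1
  have h2 : ∑ j ∈ s, ∑ k ∈ s, (if j = k then 3 / 8 * η * a k ^ 2 else 0) =
      3 / 8 * η * ∑ k ∈ s, a k ^ 2 := by
    rw [Finset.mul_sum]
    refine Finset.sum_congr rfl fun j hj => ?_
    rw [Finset.sum_ite_eq, if_pos hj]
  have h3 : ∑ j ∈ s, ∑ k ∈ s, η / 32 * ((|a j| * (1 / 2) ^ j) * (|a k| * (1 / 2) ^ k)) =
      η / 32 * (∑ k ∈ s, |a k| * (1 / 2) ^ k) ^ 2 := by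
    rw [pow_two, Finset.sum_mul_sum, Finset.mul_sum]
    exact Finset.sum_congr rfl fun j _ => (Finset.mul_sum _ _ _).symm
  have h4 : (∑ k ∈ s, |a k| * (1 / 2) ^ k) ^ 2 ≤ (∑ k ∈ s, a k ^ 2) * 2 := by
    refine (Finset.sum_mul_sq_le_sq_mul_sq s (fun k => |a k|) (fun k => (1 / 2 : ℝ) ^ k)).trans ?_
    have e : ∑ k ∈ s, |a k| ^ 2 = ∑ k ∈ s, a k ^ 2 :=
      Finset.sum_congr rfl fun k _ => sq_abs _
    rw [e]
    exact mul_le_mul_of_nonneg_left (geo s) (Finset.sum_nonneg fun k _ => sq_nonneg _)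
  have h5 : ∑ j ∈ s, ∑ k ∈ s, ((if j = k then 3 / 8 * η * a k ^ 2 else 0) -
      η / 32 * ((|a j| * (1 / 2) ^ j) * (|a k| * (1 / 2) ^ k))) ≤
      ∑ j ∈ s, ∑ k ∈ s, a j * a k * E j k :=
    Finset.sum_le_sum fun j _ => Finset.sum_le_sum fun k _ => h1 j k
  simp only [Finset.sum_sub_distrib] at h5
  rw [h2, h3] at h5
  have h6 : η / 32 * (∑ k ∈ s, |a k| * (1 / 2) ^ k) ^ 2 ≤ η / 32 * ((∑ k ∈ s, a k ^ 2) * 2) :=
    mul_le_mul_of_nonneg_left h4 (by positivity)
  have h7 : 0 ≤ η * ∑ k ∈ s, a k ^ 2 :=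
    mul_nonneg hη.le (Finset.sum_nonneg fun k _ => sq_nonneg _)
  linarith

/-- a sign -/
noncomputable def sg (t : ℝ) : ℝ := if 0 ≤ t then 1 else -1

theorem sg_meas : Measurable sg :=
  Measurable.ite measurableSet_Ici measurable_const measurable_const

theorem sg_abs (t : ℝ) : |sg t| ≤ 1 := by
  unfold sg
  split_ifs <;> simp

theorem mul_sg (t : ℝ) : t * sg t = |t| := by
  unfold sg
  split_ifs with h
  · rw [mul_one, abs_of_nonneg h]
  · rw [abs_of_neg (not_le.1 h)]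
    ring

instance : IsProbabilityMeasure mu := ⟨by simp⟩

theorem fn_sum (s : Finset ℕ) (a : ℕ → ℝ) (z : ℕ → LPhi Φ) :
    (∑ k ∈ s, a k • z k : LPhi Φ).fn =ᵐ[mu] fun x => ∑ k ∈ s, a k * (z k).fn x := by
  induction s using Finset.induction_on with
  | empty =>
    simp only [Finset.sum_empty]
    exact LPhi.fn_zero
  | insert i s hi ih =>
    rw [Finset.sum_insert hi]
    filter_upwards [LPhi.fn_add (a i • z i) (∑ k ∈ s, a k • z k), LPhi.fn_smul (a i) (z i), ih]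
      with x h1 h2 h3
    rw [h1, h2, h3, Finset.sum_insert hi]

theorem final (K K4 η S y : ℝ) (hK : 0 < K) (hK4 : 0 < K4) (hη : 0 < η) (hS : 0 ≤ S)
    (hy : 0 ≤ y) (h1 : η / 4 * S ≤ K * y) (h2 : y ^ 4 ≤ K4 * S ^ 2) :
    S ≤ K ^ 2 * (K4 + 1) * (4 / η) ^ 2 := by
  have h3 : S ≤ (4 / η) * K * y := by
    have := mul_le_mul_of_nonneg_left h1 (by positivity : 0 ≤ 4 / η)
    have e : 4 / η * (η / 4 * S) = S := by field_simp
    rw [e] at this
    linarith
  set c : ℝ := (4 / η) * K with hc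
  have hc0 : 0 < c := by positivity
  have h4 : S ^ 4 ≤ c ^ 4 * (K4 * S ^ 2) := by
    calc S ^ 4 ≤ (c * y) ^ 4 := pow_le_pow_left₀ hS h3 4
      _ = c ^ 4 * y ^ 4 := by ring
      _ ≤ c ^ 4 * (K4 * S ^ 2) := mul_le_mul_of_nonneg_left h2 (by positivity)
  have e : K ^ 2 * (K4 + 1) * (4 / η) ^ 2 = c ^ 2 * (K4 + 1) := by rw [hc]; ring
  rw [e]
  rcases hS.eq_or_lt with h0 | h0
  · rw [← h0]
    positivity
  · have h5 : S ^ 2 ≤ c ^ 4 * K4 := by
      have : S ^ 2 * S ^ 2 ≤ (c ^ 4 * K4) * S ^ 2 := by nlinarith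
      exact le_of_mul_le_mul_right this (by positivity)
    have h6 : S ^ 2 ≤ (c ^ 2 * (K4 + 1)) ^ 2 := by
      refine h5.trans ?_
      have : c ^ 4 * K4 ≤ c ^ 4 * (K4 + 1) ^ 2 :=
        mul_le_mul_of_nonneg_left (by nlinarith) (by positivity)
      nlinarith
    exact (pow_le_pow_iff_left₀ hS (by positivity) (by norm_num : (2 : ℕ) ≠ 0)).1 h6

end ModTGTL

open ModTGTL

theorem mTGTL (hH : StmHOLD) (hb : StmEXTB) (h4 : StmMOM4) : StmTGTL := by
  intro Φ F D hKD z B η hB hW hη hL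
  obtain ⟨K, hK, hK1, hK2⟩ := hH Φ F D hKD
  have hmeas : ∀ n, Measurable fun x => sg ((z n).fn x) := fun n => sg_meas.comp (z n).fn_meas
  obtain ⟨lam, hlam, hcau⟩ := hb (fun n x => sg ((z n).fn x)) 1 hmeas fun n x => sg_abs _
  have hmem : ∀ n, MemLp (fun x => sg ((z n).fn x)) 3 mu := fun n =>
    MemLp.of_bound (hmeas n).aestronglyMeasurable 1 (Eventually.of_forall fun x => sg_abs _)
  obtain ⟨p, p', hp, hp', hp1, hp2⟩ := select
    (fun m n => ∫ x, (z (lam m)).fn x * sg ((z (lam n)).fn x) ∂mu) η hη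
    (fun n => (hW _ (hmem (lam n))).comp hlam.tendsto_atTop)
    (fun m => by
      have := hcau (z (lam m)).fn (hK1 (z (lam m))).2.1
      simpa only [mul_comm] using this)
  -- the functions `G`
  set G : ℕ → ℝ → ℝ := fun k x => (sg ((z (lam (p k))).fn x) - sg ((z (lam (p' k))).fn x)) / 2
    with hG
  have hGm : ∀ k, Measurable (G k) := fun k => ((hmeas _).sub (hmeas _)).div_const _
  have hGb : ∀ k x, |G k x| ≤ 1 := by
    intro k x
    rw [hG]
    simp only []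
    rw [abs_div, abs_two, div_le_one two_pos]
    refine (abs_sub _ _).trans ?_
    have h1 := sg_abs ((z (lam (p k))).fn x)
    have h2 := sg_abs ((z (lam (p' k))).fn x)
    linarith
  have hGw : ∀ h : ℝ → ℝ, Integrable h mu →
      Tendsto (fun n => ∫ x, G n x * h x ∂mu) atTop (𝓝 0) := by
    intro h hh
    obtain ⟨c, hc⟩ := cauchySeq_tendsto_of_complete (hcau h hh)
    have h1 := hc.comp hp.tendsto_atTop
    have h2 := hc.comp (tendsto_atTop_mono hp' tendsto_id)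
    have h3 := (h1.sub h2).div_const 2
    rw [sub_self, zero_div] at h3
    refine h3.congr fun n => ?_
    simp only [Function.comp_apply]
    rw [← integral_sub, ← integral_div]
    · refine integral_congr_ae (Eventually.of_forall fun x => ?_)
      simp only [hG]
      ring
    · exact hh.bdd_mul (hmeas _).aestronglyMeasurable (Eventually.of_forall fun x => sg_abs _)
    · exact hh.bdd_mul (hmeas _).aestronglyMeasurable (Eventually.of_forall fun x => sg_abs _)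
  obtain ⟨κ, hκ, K4, hK4, hmom⟩ := h4 G 1 hGm hGb hGw
  refine ⟨fun k => lam (p (κ k)), hlam.comp (hp.comp hκ), K ^ 2 * (K4 + 1) * (4 / η) ^ 2,
    by positivity, fun s a hs => ?_⟩
  -- the matrix
  have hGmem : ∀ k, MemLp (G k) 3 mu := fun k =>
    MemLp.of_bound (hGm k).aestronglyMeasurable 1 (Eventually.of_forall (hGb k))
  have hint : ∀ j k, Integrable (fun x => (z j).fn x * G k x) mu := fun j k =>
    (hK2 (z j) (G k) (hGmem k)).1
  have hsgint : ∀ j k, Integrable (fun x => (z j).fn x * sg ((z k).fn x)) mu := fun j k =>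
    (hK2 (z j) _ (hmem k)).1
  have hE : ∀ j k, ∫ x, (z (lam (p j))).fn x * G k x ∂mu =
      ((∫ x, (z (lam (p j))).fn x * sg ((z (lam (p k))).fn x) ∂mu) -
        ∫ x, (z (lam (p j))).fn x * sg ((z (lam (p' k))).fn x) ∂mu) / 2 := by
    intro j k
    rw [← integral_sub (hsgint _ _) (hsgint _ _), ← integral_div]
    refine integral_congr_ae (Eventually.of_forall fun x => ?_)
    simp only [hG]
    ring
  have hq := quad s a (fun j k => ∫ x, (z (lam (p (κ j)))).fn x * G (κ k) x ∂mu) η hη (by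
    intro k
    rw [hE]
    have h1 : η ≤ ∫ x, (z (lam (p (κ k)))).fn x * sg ((z (lam (p (κ k)))).fn x) ∂mu := by
      simp only [mul_sg]
      exact hL _
    have h2 := (abs_le.1 (hp1 (κ k))).2
    linarith) (by
    intro j k hjk
    rw [hE, abs_div, abs_two]
    have hpw : ∀ i l : ℕ, i < l → η / 16 * (1 / 4 : ℝ) ^ (κ l) ≤
        η / 16 * ((1 / 2) ^ i * (1 / 2) ^ l) := by
      intro i l hil
      refine mul_le_mul_of_nonneg_left ?_ (by positivity)
      have e1 : (1 / 4 : ℝ) ^ (κ l) ≤ (1 / 4) ^ l :=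
        pow_le_pow_of_le_one (by norm_num) (by norm_num) (hκ.id_le l)
      have e2 : (1 / 4 : ℝ) ^ l = (1 / 2) ^ l * (1 / 2) ^ l := by
        rw [← mul_pow]
        norm_num
      have e3 : (1 / 2 : ℝ) ^ l ≤ (1 / 2) ^ i :=
        pow_le_pow_of_le_one (by norm_num) (by norm_num) hil.le
      rw [e2] at e1
      exact e1.trans (mul_le_mul_of_nonneg_right e3 (by positivity))
    rcases lt_or_gt_of_ne hjk with h | h
    · have h1 := (hp2 (κ j) (κ k) (hκ h)).1
      have h2 := hpw j k h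
      linarith
    · have h1 := (hp2 (κ k) (κ j) (hκ h)).2
      have h2 := hpw k j h
      have e : (1 / 2 : ℝ) ^ k * (1 / 2) ^ j = (1 / 2) ^ j * (1 / 2) ^ k := mul_comm _ _
      rw [e] at h2
      linarith)
  -- the sum
  set f : LPhi Φ := ∑ k ∈ s, a k • z (lam (p (κ k))) with hf
  set Gs : ℝ → ℝ := fun x => ∑ k ∈ s, a k * G (κ k) x with hGs
  have hGsm : Measurable Gs := Finset.measurable_sum _ fun k _ => (hGm _).const_mul _
  have hGsb : ∀ x, |Gs x| ≤ ∑ k ∈ s, |a k| := by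
    intro x
    refine (Finset.abs_sum_le_sum_abs _ _).trans (Finset.sum_le_sum fun k _ => ?_)
    rw [abs_mul]
    exact mul_le_of_le_one_right (abs_nonneg _) (hGb _ _)
  have hGsmem : ∀ q : ℝ≥0∞, MemLp Gs q mu := fun q =>
    MemLp.of_bound hGsm.aestronglyMeasurable _ (Eventually.of_forall hGsb)
  have hsum : ∫ x, f.fn x * Gs x ∂mu =
      ∑ j ∈ s, ∑ k ∈ s, a j * a k * ∫ x, (z (lam (p (κ j)))).fn x * G (κ k) x ∂mu := by
    have e1 : ∫ x, f.fn x * Gs x ∂mu =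
        ∫ x, ∑ j ∈ s, ∑ k ∈ s, a j * a k * ((z (lam (p (κ j)))).fn x * G (κ k) x) ∂mu := by
      refine integral_congr_ae ?_
      filter_upwards [fn_sum s a fun k => z (lam (p (κ k)))] with x hx
      rw [hf, hx, hGs]
      simp only []
      rw [Finset.sum_mul_sum]
      refine Finset.sum_congr rfl fun j _ => Finset.sum_congr rfl fun k _ => ?_
      ring
    rw [e1, integral_finsetSum _ fun j _ => integrable_finsetSum _ fun k _ =>
      (hint _ _).const_mul _]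
    refine Finset.sum_congr rfl fun j _ => ?_
    rw [integral_finsetSum _ fun k _ => (hint _ _).const_mul _]
    refine Finset.sum_congr rfl fun k _ => ?_
    rw [integral_const_mul]
  have hup := (hK2 f Gs (hGsmem 3)).2
  have h34 : (eLpNorm Gs 3 mu).toReal ≤ (∫ x, |Gs x| ^ (4 : ℝ) ∂mu) ^ (4 : ℝ)⁻¹ := by
    have e1 : eLpNorm Gs 3 mu ≤ eLpNorm Gs 4 mu :=
      eLpNorm_le_eLpNorm_of_exponent_le (by norm_num) hGsm.aestronglyMeasurable
    have e2 := (hGsmem 4).eLpNorm_eq_integral_rpow_norm (by norm_num) (by norm_num)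
    have e3 : (4 : ℝ≥0∞).toReal = 4 := by norm_num
    rw [e3] at e2
    rw [e2] at e1
    have e4 := ENNReal.toReal_mono ENNReal.ofReal_ne_top e1
    rw [ENNReal.toReal_ofReal (Real.rpow_nonneg (integral_nonneg fun x =>
      Real.rpow_nonneg (norm_nonneg _) _) _)] at e4
    simpa only [Real.norm_eq_abs] using e4
  set y : ℝ := (∫ x, |Gs x| ^ (4 : ℝ) ∂mu) ^ (4 : ℝ)⁻¹ with hy
  have hy0 : 0 ≤ y := Real.rpow_nonneg (integral_nonneg fun x =>
      Real.rpow_nonneg (abs_nonneg _) _) _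
  have hy4 : y ^ 4 = ∫ x, Gs x ^ 4 ∂mu := by
    have e1 : y ^ 4 = ∫ x, |Gs x| ^ (4 : ℝ) ∂mu := by
      rw [hy, ← Real.rpow_natCast, ← Real.rpow_mul (integral_nonneg fun x =>
        Real.rpow_nonneg (abs_nonneg _) _)]
      norm_num
    rw [e1]
    refine integral_congr_ae (Eventually.of_forall fun x => ?_)
    simp only []
    have : (4 : ℝ) = ((4 : ℕ) : ℝ) := by norm_num
    rw [this, Real.rpow_natCast, ← abs_pow, abs_of_nonneg (by positivity)]
  have hS0 : 0 ≤ ∑ k ∈ s, a k ^ 2 := Finset.sum_nonneg fun k _ => sq_nonneg _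
  have hfin := final K K4 η (∑ k ∈ s, a k ^ 2) y hK hK4 hη hS0 hy0 (by
    refine hq.trans ?_
    rw [← hsum]
    refine (le_abs_self _).trans (hup.trans ?_)
    have h1 : K * ‖f‖ * (eLpNorm Gs 3 mu).toReal ≤ K * 1 * y :=
      mul_le_mul (mul_le_mul_of_nonneg_left hs hK.le) h34 ENNReal.toReal_nonneg (by positivity)
    linarith) (by rw [hy4]; exact hmom s a)
  have e : ∑ k ∈ s, sq |a k| = ∑ k ∈ s, a k ^ 2 :=
    Finset.sum_congr rfl fun k _ => by unfold sq; rw [sq_abs]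
  rw [e]
  exact hfin

end Pool.Agent.T6.H48.KP
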