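import Pool.Agent.T6.H48.KP.Defs

/-! Module TOTB of project KP. -/

namespace Pool.Agent.T6.H48.KP

open MeasureTheory Set Filter Topology
open scoped ENNReal

theorem mTOTB : StmTOTB := by
  intro E _
  constructor
  · intro y hy
    rw [Metric.totallyBounded_iff] at hy
    push Not at hy
    obtain ⟨δ, hδ, hy⟩ := hy
    have step : ∀ n : ℕ, ∃ m, n < m ∧ ∀ i ≤ n, δ ≤ ‖y i - y m‖ := by
      intro n
      have h1 := hy (y '' (Set.Iic n)) ((Set.finite_Iic n).image y)
      rw [Set.not_subset] at h1
      obtain ⟨_, ⟨m, rfl⟩, hm⟩ := h1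
      have h2 : ∀ i ≤ n, δ ≤ ‖y i - y m‖ := by
        intro i hi
        by_contra hcon
        push Not at hcon
        apply hm
        rw [Set.mem_iUnion₂]
        refine ⟨y i, ⟨i, hi, rfl⟩, ?_⟩
        rw [Metric.mem_ball, dist_eq_norm, norm_sub_rev]
        exact hcon
      refine ⟨m, ?_, h2⟩
      by_contra hcon
      push Not at hcon
      have := h2 m hcon
      rw [sub_self, norm_zero] at this
      linarith
    choose g hg1 hg2 using step
    let κ : ℕ → ℕ := fun n => Nat.rec 0 (fun _ k => g k) n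
    have hκ : ∀ n, κ (n + 1) = g (κ n) := fun n => rfl
    have hmono : StrictMono κ := strictMono_nat_of_lt_succ fun n => by
      rw [hκ]; exact hg1 _
    refine ⟨δ, hδ, κ, hmono, ?_⟩
    have key : ∀ m n, m < n → δ ≤ ‖y (κ m) - y (κ n)‖ := by
      intro m n hmn
      obtain ⟨n, rfl⟩ : ∃ n', n = n' + 1 := ⟨n - 1, by omega⟩
      rw [hκ]
      exact hg2 _ _ (hmono.monotone (by omega))
    intro m n hmn
    rcases lt_or_gt_of_ne hmn with h | h
    · exact key m n h
    · rw [norm_sub_rev]; exact key n m h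
  · intro y hy
    let K : ℕ → Set (UniformSpace.Completion E) := fun M =>
      closure ((fun x : E => (x : UniformSpace.Completion E)) '' range (y M))
    have hK : ∀ M, IsCompact (K M) := fun M =>
      TotallyBounded.isCompact_of_isClosed
        (((hy M).image (UniformSpace.Completion.uniformContinuous_coe E)).closure) isClosed_closure
    have hP : IsCompact (Set.pi univ K) := isCompact_univ_pi hK
    have hmem : ∀ n, (fun M => (y M n : UniformSpace.Completion E)) ∈ Set.pi univ K := by
      intro n M _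
      exact subset_closure ⟨y M n, ⟨n, rfl⟩, rfl⟩
    obtain ⟨a, _, κ, hκ, hlim⟩ := hP.tendsto_subseq hmem
    refine ⟨κ, hκ, fun M => ?_⟩
    have h1 : Tendsto (fun n => (y M (κ n) : UniformSpace.Completion E)) atTop (𝓝 (a M)) :=
      (tendsto_pi_nhds.1 hlim) M
    have h2 := h1.cauchySeq
    rw [Metric.cauchySeq_iff] at h2 ⊢
    intro ε hε
    obtain ⟨N, hN⟩ := h2 ε hε
    refine ⟨N, fun m hm n hn => ?_⟩
    have := hN m hm n hn
    rwa [UniformSpace.Completion.dist_eq] at this

end Pool.Agent.T6.H48.KP
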