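import Pool.Agent.T6.H48.KP.Defs

namespace Pool.Agent.T6.H48.KP

open MeasureTheory Set Filter Topology
open scoped ENNReal

namespace ModUP32

/-- upper growth of the modular -/
theorem I_upper {Φ : OrliczFun} {K : ℝ} (hK1 : 1 ≤ K)
    (hK : ∀ h a : ℝ, 0 < h → 0 < a → a ≤ 1 → Φ.φ (a * h) ≤ K * a ^ (3 / 2 : ℝ) * Φ.φ h)
    (f : ℝ → ℝ) {a : ℝ} (ha : 0 < a) (ha1 : a ≤ 1) :
    Φ.I (fun x => a * f x) ≤ ENNReal.ofReal (K * a ^ (3 / 2 : ℝ)) * Φ.I f := by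
  have hap : 0 < a ^ (3 / 2 : ℝ) := Real.rpow_pos_of_pos ha _
  have hc : 0 ≤ K * a ^ (3 / 2 : ℝ) := by positivity
  unfold OrliczFun.I
  rw [← lintegral_const_mul' _ _ ENNReal.ofReal_ne_top]
  refine lintegral_mono fun x => ?_
  rw [← ENNReal.ofReal_mul hc]
  apply ENNReal.ofReal_le_ofReal
  rw [abs_mul, abs_of_pos ha]
  rcases eq_or_lt_of_le (abs_nonneg (f x)) with h | h
  · rw [← h, mul_zero, Φ.zero', mul_zero]
  · exact hK _ a h ha ha1

end ModUP32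

open ModUP32 in
theorem mUP32 (hd : StmDSUM) : StmUP32 := by
  intro Φ F D hK u B hB hu
  obtain ⟨K, hK1, hg⟩ := hK.growth
  have hKpos : 0 < K := by linarith
  set B' : ℝ := max B 1 with hB'
  have hB'1 : 1 ≤ B' := le_max_right _ _
  have hB'0 : 0 < B' := by linarith
  refine ⟨B' * K ^ (2 / 3 : ℝ), by positivity, fun s a ha => ?_⟩
  rcases Finset.eq_empty_or_nonempty s with hs | hs
  · rw [hs, Finset.sum_empty, norm_zero]
    positivity
  have hcard : (1 : ℝ) ≤ s.card := by exact_mod_cast Finset.card_pos.2 hs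
  have hcpos : (0 : ℝ) < s.card := by linarith
  have hKc : 0 < K * s.card := by positivity
  have hKc1 : 1 ≤ K * s.card := by nlinarith
  set q : ℝ := (K * s.card) ^ (2 / 3 : ℝ) with hq
  have hq0 : 0 < q := Real.rpow_pos_of_pos hKc _
  have hq1 : 1 ≤ q := Real.one_le_rpow hKc1 (by norm_num)
  have hqe : B' * K ^ (2 / 3 : ℝ) * (s.card : ℝ) ^ (2 / 3 : ℝ) = B' * q := by
    rw [hq, Real.mul_rpow hKpos.le hcpos.le]
    ring
  rw [hqe, LPhi.norm_le_iff _ (by positivity), hd Φ u hu]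
  have hone : ∀ k ∈ s, Φ.I (fun x => (B' * q)⁻¹ * (a k * (u k).fn x)) ≤
      ENNReal.ofReal ((s.card : ℝ)⁻¹) := by
    intro k _
    have e1 : Φ.I (fun x => (B' * q)⁻¹ * (a k * (u k).fn x)) ≤
        Φ.I (fun x => q⁻¹ * (B'⁻¹ * (u k).fn x)) := by
      refine Φ.I_mono (Eventually.of_forall fun x => ?_)
      have : q⁻¹ * (B'⁻¹ * (u k).fn x) = (B' * q)⁻¹ * (u k).fn x := by
        rw [mul_inv]; ring
      rw [this, abs_mul, abs_mul, abs_mul]
      refine mul_le_mul_of_nonneg_left ?_ (abs_nonneg _)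
      exact mul_le_of_le_one_left (abs_nonneg _) (ha k)
    refine e1.trans ((I_upper hK1 (fun h a h1 h2 h3 => (hg h a h1 h2 h3).1)
      (fun x => B'⁻¹ * (u k).fn x) (inv_pos.2 hq0) (inv_le_one_of_one_le₀ hq1)).trans ?_)
    have e2 : Φ.I (fun x => B'⁻¹ * (u k).fn x) ≤ 1 :=
      (LPhi.norm_le_iff (u k) hB'0).1 ((hB k).trans (le_max_left _ _))
    have e3 : K * q⁻¹ ^ (3 / 2 : ℝ) = (s.card : ℝ)⁻¹ := by
      rw [hq, Real.inv_rpow (Real.rpow_nonneg hKc.le _), ← Real.rpow_mul hKc.le]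
      norm_num
      field_simp
    rw [e3]
    calc ENNReal.ofReal ((s.card : ℝ)⁻¹) * Φ.I (fun x => B'⁻¹ * (u k).fn x)
        ≤ ENNReal.ofReal ((s.card : ℝ)⁻¹) * 1 := by gcongr
      _ = _ := mul_one _
  refine (Finset.sum_le_sum hone).trans ?_
  rw [Finset.sum_const, nsmul_eq_mul]
  have e4 : (s.card : ℝ≥0∞) = ENNReal.ofReal (s.card : ℝ) := by simp
  rw [e4, ← ENNReal.ofReal_mul hcpos.le, mul_inv_cancel₀ hcpos.ne', ENNReal.ofReal_one]

end Pool.Agent.T6.H48.KP
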