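import Pool.Agent.T6.H48.KP.Defs

/-!
Project KP (helper48), module VV (helper12): the oscillating function.
-/

namespace Pool.Agent.T6.H48.KP

open MeasureTheory Set Filter Topology

namespace ModVV

theorem hd1 (r : ℝ) : HasDerivAt (fun r : ℝ => r ^ 2 - r * Real.sin r)
    (2 * r - (Real.sin r + r * Real.cos r)) r := by
  have h := (hasDerivAt_pow 2 r).sub ((hasDerivAt_id r).mul (Real.hasDerivAt_sin r))
  refine h.congr_deriv ?_
  simp

theorem hd2 (r : ℝ) : HasDerivAt (fun r : ℝ => r ^ 2 + r * Real.sin r)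
    (2 * r + (Real.sin r + r * Real.cos r)) r := by
  have h := (hasDerivAt_pow 2 r).add ((hasDerivAt_id r).mul (Real.hasDerivAt_sin r))
  refine h.congr_deriv ?_
  simp

theorem bd {r : ℝ} (hr : 0 ≤ r) : |Real.sin r + r * Real.cos r| ≤ 2 * r := by
  refine (abs_add_le _ _).trans ?_
  have h1 : |Real.sin r| ≤ r := by
    have := Real.abs_sin_le_abs (x := r)
    rwa [abs_of_nonneg hr] at this
  have h2 : |r * Real.cos r| ≤ r := by
    rw [abs_mul, abs_of_nonneg hr]
    exact mul_le_of_le_one_right hr (Real.abs_cos_le_one r)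
  linarith

theorem mono1 : MonotoneOn (fun r : ℝ => r ^ 2 - r * Real.sin r) (Ici 0) := by
  refine monotoneOn_of_deriv_nonneg (convex_Ici 0)
    (fun r _ => (hd1 r).continuousAt.continuousWithinAt)
    (fun r _ => (hd1 r).differentiableAt.differentiableWithinAt) fun r hr => ?_
  rw [interior_Ici] at hr
  rw [(hd1 r).deriv]
  have := (abs_le.mp (bd (le_of_lt hr))).2
  linarith

theorem mono2 : MonotoneOn (fun r : ℝ => r ^ 2 + r * Real.sin r) (Ici 0) := by
  refine monotoneOn_of_deriv_nonneg (convex_Ici 0)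
    (fun r _ => (hd2 r).continuousAt.continuousWithinAt)
    (fun r _ => (hd2 r).differentiableAt.differentiableWithinAt) fun r hr => ?_
  rw [interior_Ici] at hr
  rw [(hd2 r).deriv]
  have := (abs_le.mp (bd (le_of_lt hr))).1
  linarith

theorem lip0 {u v : ℝ} (hu : 0 ≤ u) (huv : u ≤ v) :
    |√u * Real.sin √u - √v * Real.sin √v| ≤ v - u := by
  have h1 := mono1 (Real.sqrt_nonneg u) (Real.sqrt_nonneg v) (Real.sqrt_le_sqrt huv)
  have h2 := mono2 (Real.sqrt_nonneg u) (Real.sqrt_nonneg v) (Real.sqrt_le_sqrt huv)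
  simp only [Real.sq_sqrt hu, Real.sq_sqrt (hu.trans huv)] at h1 h2
  rw [abs_le]
  constructor <;> linarith

theorem lip {u v : ℝ} (hu : 0 ≤ u) (hv : 0 ≤ v) :
    |√u * Real.sin √u - √v * Real.sin √v| ≤ |u - v| := by
  rcases le_total u v with h | h
  · rw [abs_sub_comm u v, abs_of_nonneg (sub_nonneg.mpr h)]
    exact lip0 hu h
  · rw [abs_sub_comm, abs_of_nonneg (sub_nonneg.mpr h)]
    exact lip0 hv h

theorem val {r : ℝ} (hr : 0 ≤ r) : vv (Real.exp (r ^ 2) - 1) = 1 / 2 * (r * Real.sin r) := by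
  unfold vv
  have e : (1 : ℝ) + (Real.exp (r ^ 2) - 1) = Real.exp (r ^ 2) := by ring
  rw [e, Real.log_exp, Real.sqrt_sq hr]

theorem big {r Y : ℝ} (h1 : 1 ≤ r) (hY : Y ≤ r) : Y ≤ Real.exp (r ^ 2) - 1 := by
  have := Real.add_one_le_exp (r ^ 2)
  nlinarith

end ModVV

open ModVV in
theorem mVV : StmVV := by
  refine ⟨?_, fun y y' hy hy' => ?_, fun K Y => ?_, fun K Y => ?_⟩
  · simp [vv]
  · unfold vv
    rw [← mul_sub, abs_mul, abs_of_pos (by norm_num : (0 : ℝ) < 1 / 2)]
    refine mul_le_mul_of_nonneg_left ?_ (by norm_num)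
    exact lip (Real.log_nonneg (by linarith)) (Real.log_nonneg (by linarith))
  · obtain ⟨n, hn⟩ := exists_nat_ge (max (2 * K) (max Y 1))
    have hn1 : 2 * K ≤ n := (le_max_left _ _).trans hn
    have hn2 : Y ≤ n := (le_max_left _ _).trans ((le_max_right _ _).trans hn)
    have hn3 : (1 : ℝ) ≤ n := (le_max_right _ _).trans ((le_max_right _ _).trans hn)
    have hpi := Real.pi_gt_three
    set r : ℝ := Real.pi / 2 + n * (2 * Real.pi) with hr
    have hnr : (n : ℝ) ≤ r := by
      rw [hr]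
      nlinarith
    have hsin : Real.sin r = 1 := by
      rw [hr, Real.sin_add_nat_mul_two_pi, Real.sin_pi_div_two]
    refine ⟨Real.exp (r ^ 2) - 1, big (by linarith) (by linarith),
      big (Y := 0) (by linarith) (by linarith), ?_⟩
    rw [val (by linarith), hsin]
    linarith
  · obtain ⟨n, hn⟩ := exists_nat_ge (max (2 * K) (max Y 1))
    have hn1 : 2 * K ≤ n := (le_max_left _ _).trans hn
    have hn2 : Y ≤ n := (le_max_left _ _).trans ((le_max_right _ _).trans hn)
    have hn3 : (1 : ℝ) ≤ n := (le_max_right _ _).trans ((le_max_right _ _).trans hn)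
    have hpi := Real.pi_gt_three
    set r : ℝ := -(Real.pi / 2) + n * (2 * Real.pi) with hr
    have hnr : (n : ℝ) ≤ r := by
      rw [hr]
      nlinarith
    have hsin : Real.sin r = -1 := by
      rw [hr, Real.sin_add_nat_mul_two_pi, Real.sin_neg, Real.sin_pi_div_two]
    refine ⟨Real.exp (r ^ 2) - 1, big (by linarith) (by linarith),
      big (Y := 0) (by linarith) (by linarith), ?_⟩
    rw [val (by linarith), hsin]
    linarith

end Pool.Agent.T6.H48.KP
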