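import Pool.Agent.T6.H48.KP.Defs

namespace Pool.Agent.T6.H48.KP

open MeasureTheory Set Filter Topology
open scoped ENNReal

namespace ModWNUL

variable {Φ : OrliczFun}

theorem fn_sum (s : Finset ℕ) (a : ℕ → ℝ) (u : ℕ → LPhi Φ) :
    (∑ k ∈ s, a k • u k : LPhi Φ).fn =ᵐ[mu] fun x => ∑ k ∈ s, a k * (u k).fn x := by
  classical
  induction s using Finset.induction_on with
  | empty =>
    simp only [Finset.sum_empty]
    exact LPhi.fn_zero
  | insert k s hk ih =>
    rw [Finset.sum_insert hk]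
    filter_upwards [ih, LPhi.fn_add (a k • u k) (∑ k ∈ s, a k • u k), LPhi.fn_smul (a k) (u k)]
      with x h1 h2 h3
    rw [h2, h3, h1, Finset.sum_insert hk]

end ModWNUL

open ModWNUL in
theorem mWNUL (hH : StmHOLD) (h32 : StmUP32) : StmWNUL := by
  intro Φ F D hK T u B hB hu h hh
  obtain ⟨K, hK0, -, hK2⟩ := hH Φ F D hK
  obtain ⟨K', hK'0, hK'⟩ := h32 Φ F D hK u B hB hu
  by_contra hlim
  rw [Metric.tendsto_atTop] at hlim
  push Not at hlim
  obtain ⟨η, hη, hf⟩ := hlim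
  have hfreq : ∃ᶠ n in atTop, η ≤ |∫ x, (T (u n)).fn x * h x ∂mu| := by
    rw [frequently_atTop]
    intro N
    obtain ⟨n, hn, hn'⟩ := hf N
    refine ⟨n, hn, ?_⟩
    rwa [Real.dist_eq, sub_zero] at hn'
  obtain ⟨κ, hκ, hκ'⟩ := extraction_of_frequently_atTop hfreq
  -- the signs
  set c : ℕ → ℝ := fun n => SignType.sign (∫ x, (T (u n)).fn x * h x ∂mu) with hc
  have hc1 : ∀ n, |c n| ≤ 1 := by
    intro n
    simp only [hc]
    rcases lt_trichotomy (∫ x, (T (u n)).fn x * h x ∂mu) 0 with h | h | h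
    · rw [sign_neg h]; simp
    · rw [h]; simp
    · rw [sign_pos h]; simp
  have hc2 : ∀ n, c n * (∫ x, (T (u n)).fn x * h x ∂mu) = |∫ x, (T (u n)).fn x * h x ∂mu| := by
    intro n
    simp only [hc]
    rw [mul_comm]
    exact self_mul_sign _
  set H : ℝ := (eLpNorm h 3 mu).toReal with hHdef
  have hH0 : 0 ≤ H := ENNReal.toReal_nonneg
  have hmain : ∀ N : ℕ, η * N ≤ K * (‖T‖ * K') * H * (N : ℝ) ^ (2 / 3 : ℝ) := by
    intro N
    set s : Finset ℕ := (Finset.range N).map ⟨κ, hκ.injective⟩ with hs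
    have hcard : s.card = N := by rw [hs, Finset.card_map, Finset.card_range]
    have e1 : η * N ≤ ∑ k ∈ s, c k * ∫ x, (T (u k)).fn x * h x ∂mu := by
      rw [hs, Finset.sum_map]
      simp only [Function.Embedding.coeFn_mk]
      calc η * N = ∑ _i ∈ Finset.range N, η := by
            rw [Finset.sum_const, Finset.card_range, nsmul_eq_mul, mul_comm]
        _ ≤ _ := Finset.sum_le_sum fun i _ => by rw [hc2]; exact hκ' i
    have e2 : ∑ k ∈ s, c k * ∫ x, (T (u k)).fn x * h x ∂mu =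
        ∫ x, (T (∑ k ∈ s, c k • u k)).fn x * h x ∂mu := by
      have e3 : T (∑ k ∈ s, c k • u k) = ∑ k ∈ s, c k • T (u k) := by
        rw [map_sum]
        exact Finset.sum_congr rfl fun k _ => by rw [map_smul]
      rw [e3]
      have e4 : (fun x => (∑ k ∈ s, c k • T (u k) : LPhi Φ).fn x * h x) =ᵐ[mu]
          fun x => ∑ k ∈ s, c k * ((T (u k)).fn x * h x) := by
        filter_upwards [fn_sum s c (fun k => T (u k))] with x hx
        rw [hx, Finset.sum_mul]
        exact Finset.sum_congr rfl fun k _ => by ring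
      rw [integral_congr_ae e4, integral_finsetSum _ fun k _ => ((hK2 (T (u k)) h hh).1).const_mul _]
      exact Finset.sum_congr rfl fun k _ => (integral_const_mul _ _).symm
    have e5 := (hK2 (T (∑ k ∈ s, c k • u k)) h hh).2
    have e6 : ‖T (∑ k ∈ s, c k • u k)‖ ≤ ‖T‖ * (K' * (N : ℝ) ^ (2 / 3 : ℝ)) := by
      refine (T.le_opNorm _).trans (mul_le_mul_of_nonneg_left ?_ (norm_nonneg _))
      have := hK' s c hc1
      rwa [hcard] at this
    rw [e2] at e1
    calc η * N ≤ ∫ x, (T (∑ k ∈ s, c k • u k)).fn x * h x ∂mu := e1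
      _ ≤ |∫ x, (T (∑ k ∈ s, c k • u k)).fn x * h x ∂mu| := le_abs_self _
      _ ≤ K * ‖T (∑ k ∈ s, c k • u k)‖ * H := e5
      _ ≤ K * (‖T‖ * (K' * (N : ℝ) ^ (2 / 3 : ℝ))) * H := by gcongr
      _ = _ := by ring
  -- contradiction for large `N`
  set C : ℝ := K * (‖T‖ * K') * H with hC
  have hC0 : 0 ≤ C := by positivity
  obtain ⟨m, hm⟩ := exists_nat_gt (C / η)
  have hm1 : 0 < (m : ℝ) := lt_of_le_of_lt (by positivity) hm
  have h3 := hmain (m ^ 3)
  have e7 : (((m ^ 3 : ℕ) : ℝ)) ^ (2 / 3 : ℝ) = (m : ℝ) ^ 2 := by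
    push_cast
    rw [← Real.rpow_natCast (m : ℝ) 3, ← Real.rpow_mul hm1.le, ← Real.rpow_natCast (m : ℝ) 2]
    norm_num
  rw [e7] at h3
  push_cast at h3
  rw [div_lt_iff₀ hη] at hm
  have h4 : C * (m : ℝ) ^ 2 < η * (m : ℝ) ^ 3 := by
    have : C * (m : ℝ) ^ 2 < (m * η) * (m : ℝ) ^ 2 := mul_lt_mul_of_pos_right hm (by positivity)
    calc C * (m : ℝ) ^ 2 < (m * η) * (m : ℝ) ^ 2 := this
      _ = _ := by ring
  linarith

end Pool.Agent.T6.H48.KP
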