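import Pool.Agent.T6.H48.KP.Defs

/-! Module CONT of project KP. -/

namespace Pool.Agent.T6.H48.KP

open MeasureTheory Set Filter Topology
open scoped ENNReal

theorem mCONT : StmCONT := by
  intro Φ F D hKD E _ _ T y
  constructor
  · rintro ⟨⟨K, hK, h1⟩, ⟨K', hK', h2⟩⟩
    set C : ℝ := max 1 (max (‖T‖ * K) K') with hC
    have hC1 : 1 ≤ C := le_max_left _ _
    have hC2 : ‖T‖ * K ≤ C := (le_max_left _ _).trans (le_max_right _ _)
    have hC3 : K' ≤ C := (le_max_right _ _).trans (le_max_right _ _)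
    have hC0 : 0 < C := by linarith
    obtain ⟨N, hN, hosc⟩ := hKD.osc_up C hC1
    have hNR : (0 : ℝ) < N := by exact_mod_cast hN
    have hsN : 0 < √(N : ℝ) := Real.sqrt_pos.2 hNR
    have hsq : √(N : ℝ) ^ 2 = N := Real.sq_sqrt hNR.le
    set a : ℝ := 1 / (C * √(N : ℝ)) with ha
    have ha0 : 0 < a := by positivity
    have e1 : ‖∑ k ∈ Finset.range N, (C * a) • y k‖ ≤ K := by
      apply h1 (Finset.range N) (fun _ => C * a)
      simp only [sq, sq_abs, Finset.sum_const, Finset.card_range, nsmul_eq_mul]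
      have : C * a = 1 / √(N : ℝ) := by rw [ha]; field_simp
      rw [this, div_pow, hsq, one_pow]
      rw [mul_one_div_cancel hNR.ne']
    have e2 : ‖∑ k ∈ Finset.range N, a • y k‖ ≤ K / C := by
      have : ∑ k ∈ Finset.range N, (C * a) • y k = C • ∑ k ∈ Finset.range N, a • y k := by
        rw [Finset.smul_sum]
        exact Finset.sum_congr rfl fun k _ => by rw [smul_smul]
      rw [this, norm_smul, Real.norm_eq_abs, abs_of_pos hC0] at e1
      rw [le_div_iff₀ hC0]
      linarith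
    have e3 : ‖∑ k ∈ Finset.range N, a • T (y k)‖ ≤ 1 := by
      have : ∑ k ∈ Finset.range N, a • T (y k) = T (∑ k ∈ Finset.range N, a • y k) := by
        rw [map_sum]
        exact Finset.sum_congr rfl fun k _ => by rw [map_smul]
      rw [this]
      refine (T.le_opNorm _).trans ?_
      calc ‖T‖ * ‖∑ k ∈ Finset.range N, a • y k‖ ≤ ‖T‖ * (K / C) :=
            mul_le_mul_of_nonneg_left e2 (norm_nonneg _)
        _ = ‖T‖ * K / C := by ring
        _ ≤ 1 := by rw [div_le_one hC0]; exact hC2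
    have e4 := h2 (Finset.range N) (fun _ => a) e3
    simp only [Finset.sum_const, Finset.card_range, nsmul_eq_mul, abs_of_pos ha0] at e4
    linarith
  · rintro ⟨⟨K, hK, h1⟩, ⟨K', hK', h2⟩⟩
    set L : ℝ := K * (‖T‖ + 1) with hL
    have hL0 : 0 < L := by positivity
    set R : ℝ := 1 + L * (K' + 1) with hR
    have hR1 : 1 ≤ R := by
      have : 0 < L * (K' + 1) := by positivity
      linarith
    have hR0 : 0 < R := by linarith
    obtain ⟨N, hN, hosc⟩ := hKD.osc_dn R hR1
    have hNR : (0 : ℝ) < N := by exact_mod_cast hN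
    have hsN : 0 < √(N : ℝ) := Real.sqrt_pos.2 hNR
    have hsq : √(N : ℝ) ^ 2 = N := Real.sq_sqrt hNR.le
    have ha0 : 0 < R / √(N : ℝ) := by positivity
    have e1 : ‖∑ k ∈ Finset.range N, (R / √(N : ℝ)) • y k‖ ≤ K := by
      apply h1 (Finset.range N) (fun _ => R / √(N : ℝ))
      simp only [Finset.sum_const, Finset.card_range, nsmul_eq_mul, abs_of_pos ha0]
      exact hosc
    have e3 : ‖∑ k ∈ Finset.range N, (L⁻¹ * (R / √(N : ℝ))) • T (y k)‖ ≤ 1 := by
      have : ∑ k ∈ Finset.range N, (L⁻¹ * (R / √(N : ℝ))) • T (y k)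
          = L⁻¹ • T (∑ k ∈ Finset.range N, (R / √(N : ℝ)) • y k) := by
        rw [map_sum, Finset.smul_sum]
        exact Finset.sum_congr rfl fun k _ => by rw [map_smul, smul_smul]
      rw [this, norm_smul, Real.norm_eq_abs, abs_of_pos (inv_pos.2 hL0)]
      rw [inv_mul_le_iff₀ hL0, mul_one]
      refine (T.le_opNorm _).trans ?_
      calc ‖T‖ * ‖∑ k ∈ Finset.range N, (R / √(N : ℝ)) • y k‖ ≤ ‖T‖ * K :=
            mul_le_mul_of_nonneg_left e1 (norm_nonneg _)
        _ ≤ L := by rw [hL]; nlinarith [norm_nonneg T]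
    have e4 := h2 (Finset.range N) (fun _ => L⁻¹ * (R / √(N : ℝ))) e3
    simp only [sq, sq_abs, Finset.sum_const, Finset.card_range, nsmul_eq_mul] at e4
    rw [mul_pow, div_pow, hsq] at e4
    have e5 : (N : ℝ) * (L⁻¹ ^ 2 * (R ^ 2 / N)) = R ^ 2 / L ^ 2 := by
      field_simp
    rw [e5, div_le_iff₀ (by positivity)] at e4
    have e6 : L * (K' + 1) < R := by rw [hR]; linarith
    have e7 : (L * (K' + 1)) ^ 2 < R ^ 2 := by
      apply pow_lt_pow_left₀ e6 (by positivity) (by norm_num)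
    have e8 : K' * L ^ 2 ≤ (L * (K' + 1)) ^ 2 := by
      have : (L * (K' + 1)) ^ 2 = L ^ 2 * (K' + 1) ^ 2 := by ring
      rw [this]
      have hL2 : 0 < L ^ 2 := by positivity
      nlinarith [sq_nonneg K']
    linarith

end Pool.Agent.T6.H48.KP
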