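import Pool.Agent.T6.H48.KP.KATO

namespace Pool.Agent.T6.H48.KP

open MeasureTheory Set Filter Topology
open scoped ENNReal

namespace ModTARG

variable {Φ : OrliczFun}

theorem fn_sum (s : Finset ℕ) (a : ℕ → ℝ) (u : ℕ → LPhi Φ) :
    (∑ k ∈ s, a k • u k : LPhi Φ).fn =ᵐ[mu] fun x => ∑ k ∈ s, a k * (u k).fn x := by
  classical
  induction s using Finset.induction_on with
  | empty =>
    simp only [Finset.sum_empty]
    exact LPhi.fn_zero
  | insert k s hk ih =>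
    rw [Finset.sum_insert hk]
    filter_upwards [ih, LPhi.fn_add (a k • u k) (∑ k ∈ s, a k • u k), LPhi.fn_smul (a k) (u k)]
      with x h1 h2 h3
    rw [h2, h3, h1, Finset.sum_insert hk]

theorem lower_cut {Ξ : ℝ → ℝ} {w : ℕ → LPhi Φ} {A : ℕ → Set ℝ} (hA : ∀ j, MeasurableSet (A j))
    (hw : DisjSeq w) (h : Lower Ξ fun j => (w j).cut (A j)) : Lower Ξ w := by
  obtain ⟨K, hK, h⟩ := h
  refine ⟨K, hK, fun s a ha => h s a (le_trans ?_ ha)⟩
  refine LPhi.norm_mono ?_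
  have hpair : ∀ᵐ x ∂mu, ∀ i j : ℕ, i ≠ j → (w i).fn x = 0 ∨ (w j).fn x = 0 := by
    rw [ae_all_iff]
    intro i
    rw [ae_all_iff]
    intro j
    by_cases hij : i = j
    · exact Eventually.of_forall fun x h => absurd hij h
    · filter_upwards [hw i j hij] with x hx _
      exact hx
  have hcut : ∀ᵐ x ∂mu, ∀ j : ℕ, ((w j).cut (A j)).fn x = (A j).indicator (w j).fn x := by
    rw [ae_all_iff]
    intro j
    exact (w j).fn_cut (hA j)
  filter_upwards [fn_sum s a (fun j => (w j).cut (A j)), fn_sum s a w, hpair, hcut]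
    with x h1 h2 h3 h4
  rw [h1, h2]
  by_cases hall : ∀ k ∈ s, (w k).fn x = 0
  · have e1 : ∑ k ∈ s, a k * ((w k).cut (A k)).fn x = 0 := by
      refine Finset.sum_eq_zero fun k hk => ?_
      rw [h4 k]
      by_cases hxA : x ∈ A k
      · rw [indicator_of_mem hxA, hall k hk, mul_zero]
      · rw [indicator_of_notMem hxA, mul_zero]
    rw [e1, abs_zero]
    exact abs_nonneg _
  · push Not at hall
    obtain ⟨k₀, hk₀, hne⟩ := hall
    have hz : ∀ k ∈ s, k ≠ k₀ → (w k).fn x = 0 := fun k _ hkk =>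
      (h3 k k₀ hkk).resolve_right hne
    rw [Finset.sum_eq_single k₀ (fun k hk hkk => by
        rw [h4 k]
        by_cases hxA : x ∈ A k
        · rw [indicator_of_mem hxA, hz k hk hkk, mul_zero]
        · rw [indicator_of_notMem hxA, mul_zero]) (fun h => absurd hk₀ h),
      Finset.sum_eq_single k₀ (fun k hk hkk => by rw [hz k hk hkk, mul_zero])
        (fun h => absurd hk₀ h)]
    rw [abs_mul, abs_mul]
    refine mul_le_mul_of_nonneg_left ?_ (abs_nonneg _)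
    rw [h4 k₀]
    by_cases hxA : x ∈ A k₀
    · rw [indicator_of_mem hxA]
    · rw [indicator_of_notMem hxA, abs_zero]
      exact abs_nonneg _

theorem dseq_sub {u : ℕ → LPhi Φ} (hu : DisjSeq u) {κ : ℕ → ℕ} (hκ : StrictMono κ) :
    DisjSeq fun j => u (κ j) := fun _ _ hmn => hu _ _ (fun h => hmn (hκ.injective h))

end ModTARG

open ModTARG ModKATO in
theorem mTARG (h1 : StmTGTL) (h2 : StmTGTD) (h3 : StmCASE) (h4 : StmTGTF) (h5 : StmTGTS)
    (h6 : StmPERT) (_hd : StmDSUM) : StmTARG := by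
  intro Φ F D hK z B δ hδ hzB hzδ hw
  by_cases hlim : Tendsto (fun n => ∫ x, |(z n).fn x| ∂mu) atTop (𝓝 0)
  · set c : ℝ := min (δ / 2) 1 with hc
    have hcpos : 0 < c := lt_min (by positivity) one_pos
    have hc1 : c ≤ 1 := min_le_right _ _
    have hc2 : c ≤ δ / 2 := min_le_left _ _
    have hanti : Antitone fun j : ℕ => c * (1 / 4 : ℝ) ^ j := by
      intro i j hij
      exact mul_le_mul_of_nonneg_left
        (pow_le_pow_of_le_one (by norm_num) (by norm_num) hij) hcpos.le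
    obtain ⟨κ, hκ, w, hwH, hwD, hε⟩ := h2 Φ F D hK z B (fun j => c * (1 / 4 : ℝ) ^ j) hzB hlim
      hanti (fun n => by positivity)
    have hq1 : ∀ j : ℕ, (1 / 4 : ℝ) ^ j ≤ 1 := fun j => pow_le_one₀ (by norm_num) (by norm_num)
    have hwδ : ∀ j, δ / 2 ≤ ‖w j‖ := by
      intro j
      have e3 : ‖z (κ j)‖ ≤ ‖z (κ j) - w j‖ + ‖w j‖ := by
        have := norm_add_le (z (κ j) - w j) (w j)
        rwa [sub_add_cancel] at this
      have e2 := hzδ (κ j)
      have e4 : ‖z (κ j) - w j‖ ≤ c * (1 / 4 : ℝ) ^ j := hε j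
      have e5 : c * (1 / 4 : ℝ) ^ j ≤ c * 1 := mul_le_mul_of_nonneg_left (hq1 j) hcpos.le
      linarith
    obtain ⟨κ', hκ', A, hA, hH', hD', ⟨δ', hδ', hv⟩, hcase⟩ := h3 Φ F D hK
      (ContinuousLinearMap.id ℝ _) w (δ / 2) (by positivity) (by simpa using hwδ) hwH hwD
    have hv' : ∀ j, δ' ≤ ‖(w (κ' j)).cut (A j)‖ := by simpa using hv
    have fin : ∀ Ξ : ℝ → ℝ, GrowthFn Ξ →
        (∃ κ'' : ℕ → ℕ, StrictMono κ'' ∧ Lower Ξ fun j => (w (κ' (κ'' j))).cut (A (κ'' j))) →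
        ∃ κt : ℕ → ℕ, StrictMono κt ∧ Lower Ξ fun j => z (κt j) := by
      rintro Ξ hΞ ⟨κ'', hκ'', hlow⟩
      have hlow' : Lower Ξ fun j => w (κ' (κ'' j)) :=
        lower_cut (w := fun j => w (κ' (κ'' j))) (A := fun j => A (κ'' j)) (fun j => hA _)
          (dseq_sub hwD (hκ'.comp hκ'')) hlow
      obtain ⟨j₀, hj₀⟩ := h6 (LPhi Φ) Ξ (fun j => z (κ (κ' (κ'' j)))) (fun j => w (κ' (κ'' j)))
        hΞ hlow' (fun j => by
          refine (hε (κ' (κ'' j))).trans ?_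
          have e1 : j ≤ κ' (κ'' j) := (hκ'.comp hκ'').id_le j
          calc c * (1 / 4 : ℝ) ^ (κ' (κ'' j)) ≤ 1 * (1 / 4 : ℝ) ^ j :=
                mul_le_mul hc1 (pow_le_pow_of_le_one (by norm_num) (by norm_num) e1)
                  (by positivity) (by norm_num)
            _ = (1 / 4) ^ j := one_mul _)
      refine ⟨fun j => κ (κ' (κ'' (j + j₀))), ?_, hj₀⟩
      intro i j hij
      exact hκ (hκ' (hκ'' (by omega)))
    rcases hcase with ⟨M, hM⟩ | hflat
    · obtain ⟨κt, hκt, hl⟩ := fin F hK.F_growth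
        (h4 Φ F D hK (fun j => (w (κ' j)).cut (A j)) δ' M hδ' hv' hH' hD' hM)
      exact ⟨κt, hκt, Or.inr hl⟩
    · obtain ⟨κt, hκt, hl⟩ := fin sq growth_sq
        (h5 Φ F D hK (fun j => (w (κ' j)).cut (A j)) δ' hδ' hv' hD' hflat)
      exact ⟨κt, hκt, Or.inl hl⟩
  · rw [Metric.tendsto_atTop] at hlim
    push Not at hlim
    obtain ⟨η, hη, hf⟩ := hlim
    have hfreq : ∃ᶠ n in atTop, η ≤ ∫ x, |(z n).fn x| ∂mu := by
      rw [frequently_atTop]
      intro N
      obtain ⟨n, hn, hn'⟩ := hf N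
      refine ⟨n, hn, ?_⟩
      rwa [Real.dist_eq, sub_zero, abs_of_nonneg (integral_nonneg fun x => abs_nonneg _)] at hn'
    obtain ⟨κ, hκ, hκ'⟩ := extraction_of_frequently_atTop hfreq
    obtain ⟨κ', hκ2, hl⟩ := h1 Φ F D hK (fun n => z (κ n)) B η (fun n => hzB _)
      (fun h hh => (hw h hh).comp hκ.tendsto_atTop) hη hκ'
    exact ⟨fun n => κ (κ' n), hκ.comp hκ2, Or.inl hl⟩

end Pool.Agent.T6.H48.KP
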