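import Pool.Agent.T6.H48.KP.Defs

/-!
Project KP (helper48), MP_8301f5_an: common part of SRCF, SRCS, TGTF, TGTS (helper80).
-/

namespace Pool.Agent.T6.H48.KP

open MeasureTheory Set Filter Topology
open scoped ENNReal

namespace ModUL

theorem I_le_of_ae (Φ : OrliczFun) {f g : ℝ → ℝ} {C : ℝ} (hC : 0 ≤ C)
    (h : ∀ᵐ x ∂mu, Φ.φ |f x| ≤ C * Φ.φ |g x|) : Φ.I f ≤ ENNReal.ofReal C * Φ.I g := by
  unfold OrliczFun.I
  rw [← lintegral_const_mul' _ _ ENNReal.ofReal_ne_top]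
  refine lintegral_mono_ae (h.mono fun x hx => ?_)
  rw [← ENNReal.ofReal_mul hC]
  exact ENNReal.ofReal_le_ofReal hx

theorem sq_growth : GrowthFn sq where
  zero := by simp [sq]
  nonneg a := by unfold sq; positivity
  big a _ := rfl
  growth l a hl hl1 ha := by
    unfold sq
    have e1 : (l * a) ^ 2 = l ^ (2:ℝ) * a ^ 2 := by
      rw [mul_pow, Real.rpow_two]
    rw [e1]
    constructor
    · apply mul_le_mul_of_nonneg_right _ (by positivity)
      exact Real.rpow_le_rpow_of_exponent_ge hl hl1 (by norm_num)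
    · apply mul_le_mul_of_nonneg_right _ (by positivity)
      exact Real.rpow_le_rpow_of_exponent_ge hl hl1 (by norm_num)

theorem exp_le_half (j : ℕ) : Real.exp (-(j:ℝ)) ≤ (1 / 2 : ℝ) ^ j := by
  have h1 : Real.exp (-(j:ℝ)) = (Real.exp (-1)) ^ j := by
    rw [← Real.exp_nat_mul]
    congr 1
    ring
  rw [h1]
  apply pow_le_pow_left₀ (Real.exp_pos _).le
  rw [Real.exp_neg]
  have h2 : (2:ℝ) ≤ Real.exp 1 := by
    have := Real.add_one_le_exp (1:ℝ)
    linarith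
  rw [one_div]
  exact inv_anti₀ (by norm_num) h2

theorem sum_half (s : Finset ℕ) : ∑ j ∈ s, (1 / 2 : ℝ) ^ j ≤ 2 := by
  have := summable_geometric_two.sum_le_tsum s (fun i _ => by positivity)
  rwa [tsum_geometric_two] at this

theorem upper (hm : StmMODN) (hd : StmDSUM) {Φ : OrliczFun} {F D : ℝ → ℝ} (hK : KD Φ F D)
    {Ξ : ℝ → ℝ} (hΞ : GrowthFn Ξ) {v : ℕ → LPhi Φ} {B K : ℝ} (hB : ∀ n, ‖v n‖ ≤ B)
    (hdis : DisjSeq v) (hK1 : 1 ≤ K)
    (hloc : ∀ (j : ℕ) (a : ℝ), Real.exp (-(j:ℝ)) ≤ a → a ≤ 1 →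
      ∀ᵐ x ∂mu, Φ.φ (a * |(v j).fn x|) ≤ K * Ξ a * Φ.φ |(v j).fn x|) : Upper Ξ v := by
  obtain ⟨K', hK'1, hgr⟩ := hK.growth
  obtain ⟨-, hm2⟩ := hm Φ F D hK
  obtain ⟨B', hB'⟩ : ∃ B', B' = max B 1 := ⟨_, rfl⟩
  have hB'1 : 1 ≤ B' := by rw [hB']; exact le_max_right _ _
  have hB'0 : 0 < B' := by linarith
  have hI : ∀ n, Φ.I (fun x => B'⁻¹ * (v n).fn x) ≤ 1 := fun n =>
    ((v n).norm_le_iff hB'0).1 ((hB n).trans (by rw [hB']; exact le_max_left _ _))
  obtain ⟨C, hC⟩ : ∃ C, C = K * K' * B' ^ (5 / 2 : ℝ) := ⟨_, rfl⟩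
  have hCpos : 0 < C := by
    rw [hC]
    have : 0 < B' ^ (5 / 2 : ℝ) := Real.rpow_pos_of_pos hB'0 _
    positivity
  have hBinv : 0 < B'⁻¹ := inv_pos.2 hB'0
  have hBinv1 : B'⁻¹ ≤ 1 := inv_le_one_of_one_le₀ hB'1
  have hterm : ∀ (j : ℕ) (a : ℝ), |a| ≤ 1 →
      Φ.I (fun x => B'⁻¹ * (a * (v j).fn x)) ≤ ENNReal.ofReal (C * Ξ |a| + (1 / 2) ^ j) := by
    intro j a ha
    have hΞ0 := hΞ.nonneg |a|
    rcases le_or_gt (Real.exp (-(j:ℝ))) |a| with h | h
    · have h1 : Φ.I (fun x => B'⁻¹ * (a * (v j).fn x)) ≤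
          ENNReal.ofReal (C * Ξ |a|) * Φ.I (fun x => B'⁻¹ * (v j).fn x) := by
        apply I_le_of_ae Φ (by positivity)
        filter_upwards [hloc j |a| h ha] with x hx
        by_cases h0 : (v j).fn x = 0
        · simp [h0, Φ.zero']
        have hh : 0 < |(v j).fn x| := abs_pos.2 h0
        have e1 : |B'⁻¹ * (a * (v j).fn x)| ≤ |a| * |(v j).fn x| := by
          rw [abs_mul, abs_mul, abs_of_pos hBinv]
          exact mul_le_of_le_one_left (by positivity) hBinv1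
        have e2 := Φ.mono (abs_nonneg _) e1
        have e3 := (hgr |(v j).fn x| B'⁻¹ hh hBinv hBinv1).2
        have e4 : |B'⁻¹ * (v j).fn x| = B'⁻¹ * |(v j).fn x| := by
          rw [abs_mul, abs_of_pos hBinv]
        rw [e4]
        have e5 : Φ.φ |(v j).fn x| ≤ B' ^ (5 / 2 : ℝ) * (K' * Φ.φ (B'⁻¹ * |(v j).fn x|)) := by
          rw [Real.inv_rpow hB'0.le] at e3
          rwa [inv_mul_le_iff₀ (Real.rpow_pos_of_pos hB'0 _)] at e3
        calc Φ.φ |B'⁻¹ * (a * (v j).fn x)| ≤ K * Ξ |a| * Φ.φ |(v j).fn x| := e2.trans hx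
          _ ≤ K * Ξ |a| * (B' ^ (5 / 2 : ℝ) * (K' * Φ.φ (B'⁻¹ * |(v j).fn x|))) := by
            apply mul_le_mul_of_nonneg_left e5
            positivity
          _ = C * Ξ |a| * Φ.φ (B'⁻¹ * |(v j).fn x|) := by rw [hC]; ring
      calc Φ.I (fun x => B'⁻¹ * (a * (v j).fn x)) ≤ ENNReal.ofReal (C * Ξ |a|) * 1 :=
            h1.trans (by gcongr; exact hI j)
        _ = ENNReal.ofReal (C * Ξ |a|) := mul_one _
        _ ≤ ENNReal.ofReal (C * Ξ |a| + (1 / 2) ^ j) := by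
            apply ENNReal.ofReal_le_ofReal
            have : (0:ℝ) ≤ (1 / 2) ^ j := by positivity
            linarith
    · have h1 : Φ.I (fun x => B'⁻¹ * (a * (v j).fn x)) ≤
          Φ.I (fun x => |a| * (B'⁻¹ * (v j).fn x)) := by
        apply Φ.I_mono
        refine Eventually.of_forall fun x => le_of_eq ?_
        rw [abs_mul, abs_mul, abs_mul, abs_mul, abs_abs]
        ring
      have h2 := Φ.I_scale (f := fun x => B'⁻¹ * (v j).fn x) (abs_nonneg a) ha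
      calc Φ.I (fun x => B'⁻¹ * (a * (v j).fn x)) ≤
            ENNReal.ofReal |a| * Φ.I (fun x => B'⁻¹ * (v j).fn x) := h1.trans h2
        _ ≤ ENNReal.ofReal |a| * 1 := by gcongr; exact hI j
        _ = ENNReal.ofReal |a| := mul_one _
        _ ≤ ENNReal.ofReal (C * Ξ |a| + (1 / 2) ^ j) := by
            apply ENNReal.ofReal_le_ofReal
            have h3 : |a| ≤ (1 / 2) ^ j := h.le.trans (exp_le_half j)
            have h4 : 0 ≤ C * Ξ |a| := by positivity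
            linarith
  refine ⟨B' * (C + 2), by positivity, fun s a hs => ?_⟩
  have ha : ∀ k ∈ s, |a k| ≤ 1 := by
    intro k hk
    by_contra hcon
    push Not at hcon
    have h1 : Ξ |a k| ≤ ∑ k ∈ s, Ξ |a k| :=
      Finset.single_le_sum (f := fun k => Ξ |a k|) (fun i _ => hΞ.nonneg _) hk
    rw [hΞ.big _ hcon.le] at h1
    have h2 : 1 < |a k| ^ 2 := by nlinarith
    linarith
  apply hm2 B' (C + 2) _ hB'0 (by linarith)
  rw [hd Φ v hdis s a B'⁻¹]
  calc ∑ k ∈ s, Φ.I (fun x => B'⁻¹ * (a k * (v k).fn x))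
      ≤ ∑ k ∈ s, ENNReal.ofReal (C * Ξ |a k| + (1 / 2) ^ k) :=
        Finset.sum_le_sum fun k hk => hterm k (a k) (ha k hk)
    _ = ENNReal.ofReal (∑ k ∈ s, (C * Ξ |a k| + (1 / 2) ^ k)) := by
        rw [ENNReal.ofReal_sum_of_nonneg]
        intro k _
        have := hΞ.nonneg |a k|
        positivity
    _ ≤ ENNReal.ofReal (C + 2) := by
        apply ENNReal.ofReal_le_ofReal
        rw [Finset.sum_add_distrib, ← Finset.mul_sum]
        have h1 := sum_half s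
        have h2 : C * ∑ k ∈ s, Ξ |a k| ≤ C * 1 := mul_le_mul_of_nonneg_left hs hCpos.le
        linarith

theorem lower (hm : StmMODN) (hd : StmDSUM) {Φ : OrliczFun} {F D : ℝ → ℝ} (hK : KD Φ F D)
    {Ξ : ℝ → ℝ} (hΞ : GrowthFn Ξ) {v : ℕ → LPhi Φ} {δ K : ℝ} (hδ : 0 < δ) (hB : ∀ n, δ ≤ ‖v n‖)
    (hdis : DisjSeq v) (hK1 : 1 ≤ K)
    (hloc : ∀ (j : ℕ) (a : ℝ), Real.exp (-(j:ℝ)) ≤ a → a ≤ 1 →
      ∀ᵐ x ∂mu, Ξ a * Φ.φ |(v j).fn x| ≤ K * Φ.φ (a * |(v j).fn x|)) : Lower Ξ v := by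
  obtain ⟨K', hK'1, hgr⟩ := hK.growth
  obtain ⟨hm1, -⟩ := hm Φ F D hK
  obtain ⟨c, hc, hcI⟩ := hm1 δ hδ
  have hcv : ∀ n, ENNReal.ofReal c ≤ Φ.I (v n).fn := fun n => hcI _ (hB n)
  have hΞ1 : Ξ 1 = 1 := by rw [hΞ.big 1 le_rfl]; norm_num
  have hterm : ∀ (j : ℕ) (a : ℝ) (J : ℝ), 0 ≤ J → J ≤ 1 →
      Φ.I (fun x => a * (v j).fn x) = ENNReal.ofReal J →
      Ξ |a| ≤ (K / c + (K' / c) ^ 2) * J + (1 / 2) ^ j := by
    intro j a J hJ0 hJ1 hJ
    have hhalf : (0:ℝ) ≤ (1 / 2) ^ j := by positivity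
    rcases lt_or_ge 1 |a| with hbig | hle
    · -- large coefficient
      have ha0 : 0 < |a| := by linarith
      obtain ⟨t, ht⟩ : ∃ t, t = |a| ^ (3 / 2 : ℝ) := ⟨_, rfl⟩
      have ht0 : 0 < t := by rw [ht]; exact Real.rpow_pos_of_pos ha0 _
      have h1 : Φ.I (v j).fn ≤ ENNReal.ofReal (K' * t⁻¹) * Φ.I (fun x => a * (v j).fn x) := by
        apply I_le_of_ae Φ (by positivity)
        refine Eventually.of_forall fun x => ?_
        by_cases h0 : (v j).fn x = 0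
        · simp [h0, Φ.zero']
        have hh : 0 < |a * (v j).fn x| := by
          rw [abs_mul]
          exact mul_pos ha0 (abs_pos.2 h0)
        have e1 := (hgr |a * (v j).fn x| |a|⁻¹ hh (inv_pos.2 ha0)
          (inv_le_one_of_one_le₀ hbig.le)).1
        have e2 : |a|⁻¹ * |a * (v j).fn x| = |(v j).fn x| := by
          rw [abs_mul, inv_mul_cancel_left₀ ha0.ne']
        rw [e2, Real.inv_rpow ha0.le, ← ht] at e1
        exact e1
      have h2 : ENNReal.ofReal c ≤ ENNReal.ofReal (K' * t⁻¹ * J) := by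
        rw [ENNReal.ofReal_mul (by positivity), ← hJ]
        exact (hcv j).trans h1
      have h3 : c ≤ K' * t⁻¹ * J := by
        by_contra hcon
        push Not at hcon
        have h4 := (ENNReal.ofReal_lt_ofReal_iff hc).2 hcon
        exact absurd h2 (not_le.2 h4)
      have h4 : t ≤ K' / c * J := by
        have h5 : c * t ≤ K' * J := by
          calc c * t ≤ K' * t⁻¹ * J * t := mul_le_mul_of_nonneg_right h3 ht0.le
            _ = K' * J * (t⁻¹ * t) := by ring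
            _ = K' * J := by rw [inv_mul_cancel₀ ht0.ne', mul_one]
        rw [div_mul_eq_mul_div, le_div_iff₀ hc]
        linarith
      have h5 : |a| ^ 2 ≤ t ^ 2 := by
        have h6 : t ^ 2 = |a| ^ 3 := by
          rw [ht, ← Real.rpow_natCast, ← Real.rpow_mul ha0.le, ← Real.rpow_natCast]
          norm_num
        rw [h6]
        exact pow_le_pow_right₀ hbig.le (by norm_num)
      have h6 : t ^ 2 ≤ (K' / c * J) ^ 2 := pow_le_pow_left₀ ht0.le h4 2
      have h7 : (K' / c * J) ^ 2 ≤ (K' / c) ^ 2 * J := by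
        rw [mul_pow]
        apply mul_le_mul_of_nonneg_left _ (by positivity)
        nlinarith
      rw [hΞ.big _ hbig.le]
      have h8 : 0 ≤ K / c * J := by positivity
      nlinarith
    · rcases le_or_gt (Real.exp (-(j:ℝ))) |a| with h | h
      · have hΞ0 := hΞ.nonneg |a|
        have h1 : ENNReal.ofReal (Ξ |a|) * Φ.I (v j).fn ≤
            ENNReal.ofReal K * Φ.I (fun x => a * (v j).fn x) := by
          unfold OrliczFun.I
          rw [← lintegral_const_mul' _ _ ENNReal.ofReal_ne_top,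
            ← lintegral_const_mul' _ _ ENNReal.ofReal_ne_top]
          refine lintegral_mono_ae ((hloc j |a| h hle).mono fun x hx => ?_)
          rw [← ENNReal.ofReal_mul hΞ0, ← ENNReal.ofReal_mul (by linarith), abs_mul]
          exact ENNReal.ofReal_le_ofReal hx
        have h2 : ENNReal.ofReal (Ξ |a| * c) ≤ ENNReal.ofReal (K * J) := by
          rw [ENNReal.ofReal_mul hΞ0, ENNReal.ofReal_mul (by linarith), ← hJ]
          refine le_trans ?_ h1
          gcongr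
          exact hcv j
        have h3 : Ξ |a| * c ≤ K * J := (ENNReal.ofReal_le_ofReal_iff (by positivity)).1 h2
        have h4 : Ξ |a| ≤ K / c * J := by
          rw [div_mul_eq_mul_div, le_div_iff₀ hc]
          exact h3
        have h5 : 0 ≤ (K' / c) ^ 2 * J := by positivity
        linarith
      · have h1 : Ξ |a| ≤ |a| := by
          rcases eq_or_lt_of_le (abs_nonneg a) with h0 | h0
          · rw [← h0, hΞ.zero]
          · have h2 := (hΞ.growth |a| 1 h0 hle zero_le_one).1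
            rw [mul_one, hΞ1, mul_one] at h2
            have h3 : |a| ^ (3 / 2 : ℝ) ≤ |a| ^ (1 : ℝ) :=
              Real.rpow_le_rpow_of_exponent_ge h0 hle (by norm_num)
            rw [Real.rpow_one] at h3
            exact h2.trans h3
        have h2 : |a| ≤ (1 / 2) ^ j := h.le.trans (exp_le_half j)
        have h3 : 0 ≤ (K / c + (K' / c) ^ 2) * J := by positivity
        linarith
  refine ⟨K / c + (K' / c) ^ 2 + 2, by positivity, fun s a hs => ?_⟩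
  have hI1 : ∑ k ∈ s, Φ.I (fun x => a k * (v k).fn x) ≤ 1 := by
    have h1 := (LPhi.norm_le_iff _ one_pos).1 hs
    rw [hd Φ v hdis s a] at h1
    simpa using h1
  have hIk : ∀ k ∈ s, Φ.I (fun x => a k * (v k).fn x) ≤ 1 := fun k hk =>
    (Finset.single_le_sum (f := fun k => Φ.I (fun x => a k * (v k).fn x))
      (fun i _ => zero_le) hk).trans hI1
  obtain ⟨J, hJ⟩ : ∃ J : ℕ → ℝ, J = fun k => (Φ.I (fun x => a k * (v k).fn x)).toReal := ⟨_, rfl⟩
  have hJk : ∀ k ∈ s, Φ.I (fun x => a k * (v k).fn x) = ENNReal.ofReal (J k) := by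
    intro k hk
    rw [hJ]
    exact (ENNReal.ofReal_toReal (ne_top_of_le_ne_top ENNReal.one_ne_top (hIk k hk))).symm
  have hJ0 : ∀ k, 0 ≤ J k := fun k => by rw [hJ]; exact ENNReal.toReal_nonneg
  have hJ1 : ∀ k ∈ s, J k ≤ 1 := by
    intro k hk
    have := hIk k hk
    rw [hJk k hk] at this
    exact ENNReal.ofReal_le_one.1 this
  have hJs : ∑ k ∈ s, J k ≤ 1 := by
    have h1 : ENNReal.ofReal (∑ k ∈ s, J k) ≤ 1 := by
      rw [ENNReal.ofReal_sum_of_nonneg (fun k _ => hJ0 k)]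
      rw [← Finset.sum_congr rfl hJk]
      exact hI1
    exact ENNReal.ofReal_le_one.1 h1
  calc ∑ k ∈ s, Ξ |a k| ≤ ∑ k ∈ s, ((K / c + (K' / c) ^ 2) * J k + (1 / 2) ^ k) :=
        Finset.sum_le_sum fun k hk => hterm k (a k) (J k) (hJ0 k) (hJ1 k hk) (hJk k hk)
    _ = (K / c + (K' / c) ^ 2) * ∑ k ∈ s, J k + ∑ k ∈ s, (1 / 2 : ℝ) ^ k := by
        rw [Finset.sum_add_distrib, ← Finset.mul_sum]
    _ ≤ (K / c + (K' / c) ^ 2) * 1 + 2 := by
        gcongr
        exact sum_half s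
    _ = K / c + (K' / c) ^ 2 + 2 := by ring

/-- a strictly increasing sequence above given reals -/
theorem exists_kappa (H : ℕ → ℝ) : ∃ κ : ℕ → ℕ, StrictMono κ ∧ ∀ j, H j ≤ (κ j : ℝ) := by
  have h1 : ∀ j : ℕ, ∃ n : ℕ, H j ≤ n := fun j => exists_nat_ge (H j)
  choose m hm using h1
  refine ⟨fun j => ∑ i ∈ Finset.range (j + 1), (m i + 1), ?_, ?_⟩
  · apply strictMono_nat_of_lt_succ
    intro n
    rw [Finset.sum_range_succ _ (n + 1)]
    omega
  · intro j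
    refine (hm j).trans ?_
    have h2 : m j ≤ ∑ i ∈ Finset.range (j + 1), (m i + 1) := by
      rw [Finset.sum_range_succ]
      omega
    exact_mod_cast h2

/-- the local estimates at the features -/
theorem loc_feat {Φ : OrliczFun} {F D : ℝ → ℝ} (hK : KD Φ F D) {u : ℕ → LPhi Φ} {M : ℝ}
    (hu : High u) (hf : Feat D M u) : ∃ K : ℝ, 1 ≤ K ∧ ∃ κ : ℕ → ℕ, StrictMono κ ∧
    ∀ (j : ℕ) (a : ℝ), Real.exp (-(j:ℝ)) ≤ a → a ≤ 1 → ∀ᵐ x ∂mu,
      Φ.φ (a * |(u (κ j)).fn x|) ≤ K * F a * Φ.φ |(u (κ j)).fn x| ∧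
      F a * Φ.φ |(u (κ j)).fn x| ≤ K * Φ.φ (a * |(u (κ j)).fn x|) := by
  obtain ⟨K, hK1, hKf⟩ := hK.feat M
  choose H hH using hKf
  obtain ⟨κ, hκ, hκH⟩ := exists_kappa fun j => H j
  refine ⟨K, hK1, κ, hκ, fun j a h1 h2 => ?_⟩
  filter_upwards [hu (κ j), hf (κ j)] with x hx1 hx2
  rcases hx1 with hx1 | hx1
  · simp [hx1, Φ.zero']
  rcases hx2 with hx2 | hx2
  · simp [hx2, Φ.zero']
  exact hH j _ a (lt_of_le_of_lt (Nat.cast_nonneg _) hx1) ((hκH j).trans hx1.le) hx2 h1 h2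

/-- the local estimates far from the features -/
theorem loc_flat {Φ : OrliczFun} {F D : ℝ → ℝ} (hK : KD Φ F D) {u : ℕ → LPhi Φ}
    (hf : Flat D u) : ∃ K : ℝ, 1 ≤ K ∧ ∃ κ : ℕ → ℕ, StrictMono κ ∧
    ∀ (j : ℕ) (a : ℝ), Real.exp (-(j:ℝ)) ≤ a → a ≤ 1 → ∀ᵐ x ∂mu,
      Φ.φ (a * |(u (κ j)).fn x|) ≤ K * sq a * Φ.φ |(u (κ j)).fn x| ∧
      sq a * Φ.φ |(u (κ j)).fn x| ≤ K * Φ.φ (a * |(u (κ j)).fn x|) := by
  obtain ⟨K, hK1, hKf⟩ := hK.flat
  choose H hH using hKf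
  obtain ⟨κ, hκ, hκH⟩ := exists_kappa fun j => H j
  refine ⟨K, hK1, κ, hκ, fun j a h1 h2 => ?_⟩
  filter_upwards [hf (κ j)] with x hx2
  by_cases h0 : (u (κ j)).fn x = 0
  · simp [h0, Φ.zero']
  rcases hx2 with hx2 | hx2
  · exact absurd hx2 h0
  exact hH j _ a (abs_pos.2 h0) ((hκH j).trans hx2.le) h1 h2

theorem disj_sub {Φ : OrliczFun} {u : ℕ → LPhi Φ} (h : DisjSeq u) {κ : ℕ → ℕ}
    (hκ : StrictMono κ) : DisjSeq fun j => u (κ j) :=
  fun _ _ hmn => h _ _ fun e => hmn (hκ.injective e)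

end ModUL

open ModUL

theorem mTGTF (hm : StmMODN) (hd : StmDSUM) : StmTGTF := by
  intro Φ F D hK u δ M hδ hB hh hdis hf
  obtain ⟨K, hK1, κ, hκ, hloc⟩ := loc_feat hK hh hf
  exact ⟨κ, hκ, lower hm hd hK hK.F_growth hδ (fun n => hB (κ n)) (disj_sub hdis hκ) hK1
    fun j a h1 h2 => (hloc j a h1 h2).mono fun x hx => hx.2⟩

theorem mSRCS (hm : StmMODN) (hd : StmDSUM) : StmSRCS := by
  intro Φ F D hK u B hB hdis hf
  obtain ⟨K, hK1, κ, hκ, hloc⟩ := loc_flat hK hf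
  exact ⟨κ, hκ, upper hm hd hK sq_growth (fun n => hB (κ n)) (disj_sub hdis hκ) hK1
    fun j a h1 h2 => (hloc j a h1 h2).mono fun x hx => hx.1⟩

theorem mTGTS (hm : StmMODN) (hd : StmDSUM) : StmTGTS := by
  intro Φ F D hK u δ hδ hB hdis hf
  obtain ⟨K, hK1, κ, hκ, hloc⟩ := loc_flat hK hf
  exact ⟨κ, hκ, lower hm hd hK sq_growth hδ (fun n => hB (κ n)) (disj_sub hdis hκ) hK1
    fun j a h1 h2 => (hloc j a h1 h2).mono fun x hx => hx.2⟩

end Pool.Agent.T6.H48.KP
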